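import Pool.Agent.Lib_helper12.HZF.Closure

/-!
Absoluteness of the notions between a model `V` of ZF and (the power set of) a limit level.
-/

set_option linter.unusedSectionVars false

universe u

namespace Pool.Agent.HZF

open FirstOrder Language

section
variable {V : Type u} [Lset.Structure V]

/-- The substructure of the elements of `c`. -/
def Mod (c : V) : Type u := {x : V // x ∈ c}

instance (c : V) : Lset.Structure (Mod c) where
  funMap := fun f => f.elim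
  RelMap := fun r v => Structure.RelMap r (fun i => (v i).1)

theorem mem_mod {c : V} {x y : Mod c} : x ∈ y ↔ x.1 ∈ y.1 := by
  change Structure.RelMap (L := Lset) MemRel.mem (fun i => ((![x, y] : Fin 2 → Mod c) i).1) ↔
    Structure.RelMap (L := Lset) MemRel.mem ![x.1, y.1]
  have : (fun i => ((![x, y] : Fin 2 → Mod c) i).1) = ![x.1, y.1] := by
    funext i; fin_cases i <;> rfl
  rw [this]

theorem eq_mod {c : V} {x y : Mod c} : x = y ↔ x.1 = y.1 := Subtype.ext_iff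

/-! ### Transitive sets -/

section trans
variable {c : V} (hc : Trans c)
include hc

theorem lift_mem {x : V} {y : Mod c} (h : x ∈ y.1) : x ∈ c := hc y.1 y.2 x h

theorem abs_sub {x y : Mod c} : Sub x y ↔ Sub x.1 y.1 := by
  constructor
  · intro h z hz
    exact mem_mod.1 (h ⟨z, lift_mem hc hz⟩ (mem_mod.2 hz))
  · intro h z hz
    exact mem_mod.2 (h z.1 (mem_mod.1 hz))

theorem abs_emp {x : Mod c} : IsEmp x ↔ IsEmp x.1 := by
  constructor
  · intro h z hz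
    exact h ⟨z, lift_mem hc hz⟩ (mem_mod.2 hz)
  · intro h z hz
    exact h z.1 (mem_mod.1 hz)

theorem abs_upair {p x y : Mod c} : IsUpair p x y ↔ IsUpair p.1 x.1 y.1 := by
  constructor
  · intro h z
    constructor
    · intro hz
      have := (h ⟨z, lift_mem hc hz⟩).1 (mem_mod.2 hz)
      simpa [eq_mod] using this
    · rintro (rfl | rfl)
      · exact mem_mod.1 ((h x).2 (Or.inl rfl))
      · exact mem_mod.1 ((h y).2 (Or.inr rfl))
  · intro h z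
    rw [mem_mod, eq_mod, eq_mod]
    exact h z.1

theorem abs_opair {p x y : Mod c} : IsOpair p x y ↔ IsOpair p.1 x.1 y.1 := by
  constructor
  · rintro ⟨a, b, ha, hb, hp⟩
    exact ⟨a.1, b.1, (abs_upair hc).1 ha, (abs_upair hc).1 hb, (abs_upair hc).1 hp⟩
  · rintro ⟨a, b, ha, hb, hp⟩
    have hac : a ∈ c := lift_mem hc ((hp a).2 (Or.inl rfl))
    have hbc : b ∈ c := lift_mem hc ((hp b).2 (Or.inr rfl))
    exact ⟨⟨a, hac⟩, ⟨b, hbc⟩, (abs_upair hc).2 ha, (abs_upair hc).2 hb, (abs_upair hc).2 hp⟩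

theorem abs_succ {x y : Mod c} : IsSucc y x ↔ IsSucc y.1 x.1 := by
  constructor
  · intro h z
    constructor
    · intro hz
      have := (h ⟨z, lift_mem hc hz⟩).1 (mem_mod.2 hz)
      simpa [eq_mod, mem_mod] using this
    · rintro (hz | rfl)
      · exact mem_mod.1 ((h ⟨z, lift_mem hc hz⟩).2 (Or.inl (mem_mod.2 hz)))
      · exact mem_mod.1 ((h x).2 (Or.inr rfl))
  · intro h z
    rw [mem_mod, mem_mod, eq_mod]
    exact h z.1

theorem abs_inductive {I : Mod c} : IsInductive I ↔ IsInductive I.1 := by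
  constructor
  · rintro ⟨⟨e, he, hee⟩, h⟩
    refine ⟨⟨e.1, mem_mod.1 he, (abs_emp hc).1 hee⟩, fun x hx => ?_⟩
    obtain ⟨y, hy, hyx⟩ := h ⟨x, lift_mem hc hx⟩ (mem_mod.2 hx)
    exact ⟨y.1, mem_mod.1 hy, (abs_succ hc).1 hyx⟩
  · rintro ⟨⟨e, he, hee⟩, h⟩
    refine ⟨⟨⟨e, lift_mem hc he⟩, mem_mod.2 he, (abs_emp hc).2 hee⟩, fun x hx => ?_⟩
    obtain ⟨y, hy, hyx⟩ := h x.1 (mem_mod.1 hx)
    exact ⟨⟨y, lift_mem hc hy⟩, mem_mod.2 hy, (abs_succ hc).2 hyx⟩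

/-- In a structure of the form `{x | x ∈ c}` with `c` transitive, components of pairs exist. -/
theorem lift_fst {p : Mod c} {x y : V} (h : IsOpair p.1 x y) : x ∈ c := by
  obtain ⟨a, b, ha, hb, hp⟩ := h
  exact hc a (lift_mem hc ((hp a).2 (Or.inl rfl))) x ((ha x).2 (Or.inl rfl))

theorem lift_snd {p : Mod c} {x y : V} (h : IsOpair p.1 x y) : y ∈ c := by
  obtain ⟨a, b, ha, hb, hp⟩ := h
  exact hc b (lift_mem hc ((hp b).2 (Or.inr rfl))) y ((hb y).2 (Or.inr rfl))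

theorem lift_oMem_fst {f : Mod c} {x y : V} (h : OMem x y f.1) : x ∈ c := by
  obtain ⟨p, hp, h⟩ := h
  exact lift_fst hc (p := ⟨p, lift_mem hc hp⟩) h

theorem lift_oMem_snd {f : Mod c} {x y : V} (h : OMem x y f.1) : y ∈ c := by
  obtain ⟨p, hp, h⟩ := h
  exact lift_snd hc (p := ⟨p, lift_mem hc hp⟩) h

theorem abs_oMem {x y f : Mod c} : OMem x y f ↔ OMem x.1 y.1 f.1 := by
  constructor
  · rintro ⟨p, hp, h⟩
    exact ⟨p.1, mem_mod.1 hp, (abs_opair hc).1 h⟩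
  · rintro ⟨p, hp, h⟩
    exact ⟨⟨p, lift_mem hc hp⟩, mem_mod.2 hp, (abs_opair hc).2 h⟩

theorem abs_isFun {f d X : Mod c} : IsFun f d X ↔ IsFun f.1 d.1 X.1 := by
  constructor
  · rintro ⟨h1, h2⟩
    refine ⟨fun p hp => ?_, fun x hx => ?_⟩
    · obtain ⟨x, hx, y, hy, h⟩ := h1 ⟨p, lift_mem hc hp⟩ (mem_mod.2 hp)
      exact ⟨x.1, mem_mod.1 hx, y.1, mem_mod.1 hy, (abs_opair hc).1 h⟩
    · obtain ⟨y, hy, hu⟩ := h2 ⟨x, lift_mem hc hx⟩ (mem_mod.2 hx)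
      refine ⟨y.1, (abs_oMem hc).1 hy, fun z hz => ?_⟩
      exact eq_mod.1 (hu ⟨z, lift_oMem_snd hc hz⟩ ((abs_oMem hc).2 hz))
  · rintro ⟨h1, h2⟩
    refine ⟨fun p hp => ?_, fun x hx => ?_⟩
    · obtain ⟨x, hx, y, hy, h⟩ := h1 p.1 (mem_mod.1 hp)
      exact ⟨⟨x, lift_mem hc hx⟩, mem_mod.2 hx, ⟨y, lift_mem hc hy⟩, mem_mod.2 hy,
        (abs_opair hc).2 h⟩
    · obtain ⟨y, hy, hu⟩ := h2 x.1 (mem_mod.1 hx)
      refine ⟨⟨y, lift_oMem_snd hc hy⟩, (abs_oMem hc).2 hy, fun z hz => ?_⟩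
      exact eq_mod.2 (hu z.1 ((abs_oMem hc).1 hz))

theorem abs_num {k : ℕ} {x : Mod c} : IsNum k x ↔ IsNum k x.1 := by
  induction k generalizing x with
  | zero => exact abs_emp hc
  | succ k ih =>
    constructor
    · rintro ⟨y, hy, hxy⟩
      exact ⟨y.1, ih.1 hy, (abs_succ hc).1 hxy⟩
    · rintro ⟨y, hy, hxy⟩
      have hyc : y ∈ c := lift_mem hc ((hxy y).2 (Or.inr rfl))
      exact ⟨⟨y, hyc⟩, ih.2 hy, (abs_succ hc).2 hxy⟩

theorem abs_code1 {k : ℕ} {g a : Mod c} : IsCode1 k g a ↔ IsCode1 k g.1 a.1 := by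
  constructor
  · rintro ⟨t, ht, h⟩
    exact ⟨t.1, (abs_num hc).1 ht, (abs_opair hc).1 h⟩
  · rintro ⟨t, ht, h⟩
    exact ⟨⟨t, lift_fst hc h⟩, (abs_num hc).2 ht, (abs_opair hc).2 h⟩

theorem lift_code1 {k : ℕ} {g : Mod c} {a : V} (h : IsCode1 k g.1 a) : a ∈ c := by
  obtain ⟨t, ht, h⟩ := h
  exact lift_snd hc h

theorem abs_code2 {k : ℕ} {g a b : Mod c} : IsCode2 k g a b ↔ IsCode2 k g.1 a.1 b.1 := by
  constructor
  · rintro ⟨p, hp, h⟩
    exact ⟨p.1, (abs_opair hc).1 hp, (abs_code1 hc).1 h⟩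
  · rintro ⟨p, hp, h⟩
    exact ⟨⟨p, lift_code1 hc h⟩, (abs_opair hc).2 hp, (abs_code1 hc).2 h⟩

theorem lift_code2 {k : ℕ} {g : Mod c} {a b : V} (h : IsCode2 k g.1 a b) : a ∈ c ∧ b ∈ c := by
  obtain ⟨p, hp, h⟩ := h
  have hpc := lift_code1 hc h
  exact ⟨lift_fst hc (p := ⟨p, hpc⟩) hp, lift_snd hc (p := ⟨p, hpc⟩) hp⟩

theorem abs_comp {t s v : Mod c} : IsComp t s v ↔ IsComp t.1 s.1 v.1 := by
  constructor
  · rintro ⟨h1, h2⟩
    refine ⟨fun p hp => ?_, fun l j hlj => ?_⟩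
    · obtain ⟨l, j, a, h3, h4, h5⟩ := h1 ⟨p, lift_mem hc hp⟩ (mem_mod.2 hp)
      exact ⟨l.1, j.1, a.1, (abs_opair hc).1 h3, (abs_oMem hc).1 h4, (abs_oMem hc).1 h5⟩
    · obtain ⟨a, h3, h4⟩ := h2 ⟨l, lift_oMem_fst hc hlj⟩ ⟨j, lift_oMem_snd hc hlj⟩
        ((abs_oMem hc).2 hlj)
      exact ⟨a.1, (abs_oMem hc).1 h3, (abs_oMem hc).1 h4⟩
  · rintro ⟨h1, h2⟩
    refine ⟨fun p hp => ?_, fun l j hlj => ?_⟩
    · obtain ⟨l, j, a, h3, h4, h5⟩ := h1 p.1 (mem_mod.1 hp)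
      exact ⟨⟨l, lift_oMem_fst hc h4⟩, ⟨j, lift_oMem_snd hc h4⟩, ⟨a, lift_oMem_snd hc h5⟩,
        (abs_opair hc).2 h3, (abs_oMem hc).2 h4, (abs_oMem hc).2 h5⟩
    · obtain ⟨a, h3, h4⟩ := h2 l.1 j.1 ((abs_oMem hc).1 hlj)
      exact ⟨⟨a, lift_oMem_snd hc h3⟩, (abs_oMem hc).2 h3, (abs_oMem hc).2 h4⟩

end trans

/-! ### Transitive sets closed under subsets -/

section potent
variable {c : V} (hc : Trans c) (hp : ∀ x ∈ c, ∀ z, Sub z x → z ∈ c)
include hc hp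

theorem abs_hist {h : Mod c} : IsHist h ↔ IsHist h.1 := by
  constructor
  · intro hh x hx z
    have hxc := lift_mem hc hx
    constructor
    · intro hz
      have hzc : z ∈ c := hc x hxc z hz
      obtain ⟨b, hb, hbx, hzb⟩ := (hh ⟨x, hxc⟩ (mem_mod.2 hx) ⟨z, hzc⟩).1 (mem_mod.2 hz)
      exact ⟨b.1, mem_mod.1 hb, mem_mod.1 hbx, (abs_sub hc).1 hzb⟩
    · rintro ⟨b, hb, hbx, hzb⟩
      have hzc : z ∈ c := hp b (lift_mem hc hb) z hzb
      exact mem_mod.1 ((hh ⟨x, hxc⟩ (mem_mod.2 hx) ⟨z, hzc⟩).2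
          ⟨⟨b, lift_mem hc hb⟩, mem_mod.2 hb, mem_mod.2 hbx, (abs_sub hc).2 hzb⟩)
  · intro hh x hx z
    rw [mem_mod, hh x.1 (mem_mod.1 hx) z.1]
    constructor
    · rintro ⟨b, hb, hbx, hzb⟩
      exact ⟨⟨b, lift_mem hc hb⟩, mem_mod.2 hb, mem_mod.2 hbx, (abs_sub hc).2 hzb⟩
    · rintro ⟨b, hb, hbx, hzb⟩
      exact ⟨b.1, mem_mod.1 hb, mem_mod.1 hbx, (abs_sub hc).1 hzb⟩

theorem abs_lev {s : Mod c} : IsLev s ↔ IsLev s.1 := by
  constructor
  · rintro ⟨h, hh, hs⟩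
    refine ⟨h.1, (abs_hist hc hp).1 hh, fun z => ?_⟩
    constructor
    · intro hz
      obtain ⟨b, hb, hzb⟩ := (hs ⟨z, lift_mem hc hz⟩).1 (mem_mod.2 hz)
      exact ⟨b.1, mem_mod.1 hb, (abs_sub hc).1 hzb⟩
    · rintro ⟨b, hb, hzb⟩
      have hzc : z ∈ c := hp b (lift_mem hc hb) z hzb
      exact mem_mod.1 ((hs ⟨z, hzc⟩).2 ⟨⟨b, lift_mem hc hb⟩, mem_mod.2 hb, (abs_sub hc).2 hzb⟩)
  · rintro ⟨h, hh, hs⟩
    have hhc : h ∈ c := hp s.1 s.2 h fun x hx => (hs x).2 ⟨x, hx, fun _ h => h⟩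
    refine ⟨⟨h, hhc⟩, (abs_hist hc hp).2 hh, fun z => ?_⟩
    rw [mem_mod, hs z.1]
    constructor
    · rintro ⟨b, hb, hzb⟩
      exact ⟨⟨b, hc h hhc b hb⟩, mem_mod.2 hb, (abs_sub hc).2 hzb⟩
    · rintro ⟨b, hb, hzb⟩
      exact ⟨b.1, mem_mod.1 hb, (abs_sub hc).1 hzb⟩

theorem abs_lim {u : Mod c} : IsLim u ↔ IsLim u.1 := by
  constructor
  · rintro ⟨h1, ⟨w, hw, hwi⟩, h2⟩
    refine ⟨(abs_lev hc hp).1 h1, ⟨w.1, mem_mod.1 hw, (abs_inductive hc).1 hwi⟩, fun x hx => ?_⟩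
    obtain ⟨r, hr, hrl, hxr⟩ := h2 ⟨x, lift_mem hc hx⟩ (mem_mod.2 hx)
    exact ⟨r.1, mem_mod.1 hr, (abs_lev hc hp).1 hrl, mem_mod.1 hxr⟩
  · rintro ⟨h1, ⟨w, hw, hwi⟩, h2⟩
    refine ⟨(abs_lev hc hp).2 h1, ⟨⟨w, lift_mem hc hw⟩, mem_mod.2 hw,
      (abs_inductive hc).2 hwi⟩, fun x hx => ?_⟩
    obtain ⟨r, hr, hrl, hxr⟩ := h2 x.1 (mem_mod.1 hx)
    exact ⟨⟨r, lift_mem hc hr⟩, mem_mod.2 hr, (abs_lev hc hp).2 hrl, mem_mod.2 hxr⟩

end potent

end

/-! ### Strong induction on membership -/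

section
variable {V : Type u} [Lset.Structure V]

/-- `y` belongs to the transitive closure of `x`. -/
def TCMem (y x : V) : Prop := ∀ T : V, Trans T → Sub x T → y ∈ T

instance {t s : (ℕ → V) → V} [ht : DF t] [hs : DF s] : DP (fun v => TCMem (t v) (s v)) :=
  DP.comp2 (by unfold TCMem; infer_instance) ht hs

theorem TCMem.base {y x : V} (h : y ∈ x) : TCMem y x := fun _ _ hx => hx y h

theorem TCMem.step {z y x : V} (h : TCMem y x) (hz : z ∈ y) : TCMem z x :=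
  fun T hT hx => hT y (h T hT hx) z hz

variable [IsZF V]

theorem TCMem.cases {y x : V} (h : TCMem y x) : ∃ z ∈ x, y = z ∨ TCMem y z := by
  obtain ⟨T, hxT, hT⟩ := exists_trans x
  have h1 := h (sep (fun y => ∃ z ∈ x, y = z ∨ TCMem y z) T) ?_ ?_
  · exact (mem_sep.1 h1).2
  · intro a ha b hb
    obtain ⟨haT, z, hz, h⟩ := mem_sep.1 ha
    refine mem_sep.2 ⟨hT a haT b hb, z, hz, Or.inr ?_⟩
    rcases h with rfl | h
    · exact TCMem.base hb
    · exact h.step hb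
  · intro a ha
    exact mem_sep.2 ⟨hT x hxT a ha, a, ha, Or.inl rfl⟩

theorem strong_ind {Q : V → Prop} [DP (fun v => Q (v 0))]
    (h : ∀ x, (∀ y, TCMem y x → Q y) → Q x) (x : V) : Q x := by
  have key : ∀ x : V, ∀ y, TCMem y x → Q y := by
    refine mem_ind (Q := fun x => ∀ y, TCMem y x → Q y) ?_
    intro x ih y hy
    obtain ⟨z, hz, h'⟩ := hy.cases
    rcases h' with rfl | h'
    · exact h y (ih y hz)
    · exact ih z hz y h'
  exact h x (key x)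

theorem tcMem_fst {g x y : V} (h : g = opair x y) : TCMem x g := by
  subst h
  have h1 : TCMem (upair x y) (opair x y) := TCMem.base (mem_upair.2 (Or.inr rfl))
  exact h1.step (mem_upair.2 (Or.inl rfl))

theorem tcMem_snd {g x y : V} (h : g = opair x y) : TCMem y g := by
  subst h
  have h1 : TCMem (upair x y) (opair x y) := TCMem.base (mem_upair.2 (Or.inr rfl))
  exact h1.step (mem_upair.2 (Or.inr rfl))

theorem TCMem.trans' {z y x : V} (h : TCMem y x) (hz : TCMem z y) : TCMem z x := by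
  intro T hT hx
  exact hz T hT (hT y (h T hT hx))

theorem IsCode1.tc {k : ℕ} {g a : V} (h : IsCode1 k g a) : TCMem a g := by
  obtain ⟨t, _, h⟩ := h
  exact tcMem_snd (isOpair_iff.1 h)

theorem IsCode2.tc {k : ℕ} {g a b : V} (h : IsCode2 k g a b) : TCMem a g ∧ TCMem b g := by
  obtain ⟨p, hp, h⟩ := h
  have h1 := h.tc
  exact ⟨h1.trans' (tcMem_fst (isOpair_iff.1 hp)), h1.trans' (tcMem_snd (isOpair_iff.1 hp))⟩

/-! ### Restricting the witnesses to subsets of a limit level -/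

section restrict
variable {X : V} (hX : IsLim X)
include hX

theorem IsLim.code1 {k : ℕ} {g a : V} (h : IsCode1 k g a) (ha : a ∈ X) : g ∈ X := by
  obtain ⟨t, ht, h⟩ := h
  rw [isOpair_iff.1 h]
  exact hX.opair (hX.num_mem ht) ha

theorem IsLim.code2 {k : ℕ} {g a b : V} (h : IsCode2 k g a b) (ha : a ∈ X) (hb : b ∈ X) :
    g ∈ X := by
  obtain ⟨p, hp, h⟩ := h
  refine hX.code1 h ?_
  rw [isOpair_iff.1 hp]
  exact hX.opair ha hb

theorem IsLim.of_code1 {k : ℕ} {g a : V} (h : IsCode1 k g a) (hg : g ∈ X) : a ∈ X := by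
  obtain ⟨t, ht, h⟩ := h
  rw [isOpair_iff.1 h] at hg
  exact hX.snd_mem hg

theorem IsLim.of_code2 {k : ℕ} {g a b : V} (h : IsCode2 k g a b) (hg : g ∈ X) :
    a ∈ X ∧ b ∈ X := by
  obtain ⟨p, hp, h⟩ := h
  have h1 := hX.of_code1 h hg
  rw [isOpair_iff.1 hp] at h1
  exact ⟨hX.fst_mem h1, hX.snd_mem h1⟩

theorem IsLim.fun_mem' {k t Y : V} (hk : k ∈ (omega : V)) (ht : IsFun t k Y) (hY : Sub Y X) :
    t ∈ X := hX.fun_mem hk t (ht.mono hY)

theorem nat_sub_lim {n : V} (hn : n ∈ (omega : V)) : Sub n X := fun m hm =>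
  hX.nat_mem (omega_trans hn m hm)

theorem liForm_mem {G : V} (hG : LIForm G) (g : V) : ∀ n, OMem g n G → g ∈ X := by
  refine strong_ind (Q := fun g => ∀ n, OMem g n G → g ∈ X) ?_ g
  intro g ih n hg
  obtain ⟨q, hq, hqg⟩ := hg
  obtain ⟨g', n', hq', hn, hcases⟩ := hG q hq
  rw [isOpair_iff] at hqg hq'
  rw [hqg, opair_inj] at hq'
  obtain ⟨rfl, rfl⟩ := hq'
  have hn' : n ∈ (omega : V) := mem_omega.2 hn
  rcases hcases with ⟨i, j, h, hi, hj⟩ | ⟨i, v, k, h, hi, hk, hv⟩ | ⟨a, b, h, ha, hb⟩ |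
    ⟨a, m, h, _, ha⟩ | ⟨a, b, m, h, _, ha, hb⟩
  · exact hX.code2 h (nat_sub_lim hX hn' i hi) (nat_sub_lim hX hn' j hj)
  · exact hX.code2 h (hX.nat_mem (mem_omega.2 hi))
      (hX.fun_mem' (mem_omega.2 hk) hv (nat_sub_lim hX hn'))
  · exact hX.code2 h (ih a h.tc.1 n ha) (ih b h.tc.2 n hb)
  · exact hX.code1 h (ih a h.tc m ha)
  · exact hX.code2 h (ih a h.tc.1 m ha) (ih b h.tc.2 m hb)

theorem liForm_sub {G : V} (hG : LIForm G) : Sub G X := by
  intro q hq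
  obtain ⟨g, n, hqg, hn, _⟩ := hG q hq
  have hg : g ∈ X := liForm_mem hX hG g n ⟨q, hq, hqg⟩
  rw [isOpair_iff.1 hqg]
  exact hX.opair hg (hX.nat_mem (mem_omega.2 hn))

theorem liForm_nat {G g n : V} (hG : LIForm G) (h : OMem g n G) : n ∈ (omega : V) := by
  obtain ⟨q, hq, hqg⟩ := h
  obtain ⟨g', n', hq', hn, _⟩ := hG q hq
  rw [isOpair_iff] at hqg hq'
  rw [hqg, opair_inj] at hq'
  rw [hq'.2]; exact mem_omega.2 hn

theorem isStr_sub {A : V} (hA : IsStr X A) : Sub A X := by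
  intro p hp
  obtain ⟨i, t, k, h, hi, hk, ht⟩ := hA p hp
  rw [isOpair_iff.1 h]
  exact hX.opair (hX.nat_mem (mem_omega.2 hi)) (hX.fun_mem (mem_omega.2 hk) t ht)

theorem oMem_restrict {W a s : V} (ha : a ∈ X) (hs : s ∈ X) :
    OMem a s W ↔ OMem a s (sep (fun w => w ∈ X) W) := by
  rw [oMem_iff, oMem_iff, mem_sep]
  exact ⟨fun h => ⟨h, hX.opair ha hs⟩, fun h => h.1⟩

theorem isExt_mem {s' s n x : V} (hs : s ∈ X) (hn : n ∈ X) (hx : x ∈ X) (h : IsExt s' s n x) :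
    s' ∈ X := by
  rw [isExt_iff.1 h]
  exact hX.un hs (hX.sing (hX.opair hn hx))

theorem isDefSet_restrict {W a s n B : V} (ha : a ∈ X) (hs : s ∈ X) (hn : n ∈ X) :
    IsDefSet X W a s n B ↔ IsDefSet X (sep (fun w => w ∈ X) W) a s n B := by
  unfold IsDefSet
  refine forall_congr' fun x => iff_congr Iff.rfl (and_congr_right fun hx => ?_)
  refine exists_congr fun s' => and_congr_right fun h => ?_
  exact oMem_restrict hX ha (isExt_mem hX hs hn hx h)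

theorem liClause_restrict {A W g n s : V} (hg : g ∈ X) (hn : n ∈ X) (hs : s ∈ X) :
    LIClause X A W g n s ↔ LIClause X A (sep (fun w => w ∈ X) W) g n s := by
  unfold LIClause
  refine or_congr Iff.rfl (or_congr Iff.rfl (or_congr ?_ (or_congr ?_ ?_)))
  · refine exists_congr fun a => exists_congr fun b => and_congr_right fun h => ?_
    obtain ⟨ha, hb⟩ := hX.of_code2 h hg
    rw [oMem_restrict hX ha hs, oMem_restrict hX hb hs]
  · refine exists_congr fun a => and_congr_right fun h => ?_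
    have ha := hX.of_code1 h hg
    refine forall_congr' fun x => imp_congr_right fun hx => ?_
    refine exists_congr fun s' => and_congr_right fun h => ?_
    exact oMem_restrict hX ha (isExt_mem hX hs hn hx h)
  · refine exists_congr fun a => exists_congr fun b => and_congr_right fun h => ?_
    obtain ⟨ha, hb⟩ := hX.of_code2 h hg
    refine exists_congr fun B => exists_congr fun C => ?_
    rw [isDefSet_restrict hX ha hs hn, isDefSet_restrict hX hb hs hn]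

theorem liModel_restrict {φ : V} (h : LIModel X φ) :
    ∃ A G W e, Sub A X ∧ Sub G X ∧ Sub W X ∧ e ∈ X ∧
      IsStr X A ∧ LIForm G ∧ IsEmp e ∧ OMem φ e G ∧ LISat X A G W ∧ OMem φ e W := by
  obtain ⟨A, G, W, e, hA, hG, he, hφ, hW, hφW⟩ := h
  have heX : e ∈ X := by rw [isEmp_iff.1 he]; exact hX.emp_mem
  have hφX : φ ∈ X := liForm_mem hX hG φ e hφ
  refine ⟨A, G, sep (fun w => w ∈ X) W, e, isStr_sub hX hA, liForm_sub hX hG,
    fun w hw => (mem_sep.1 hw).2, heX, hA, hG, he, hφ, ?_, (oMem_restrict hX hφX heX).1 hφW⟩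
  intro g n s hgn hs
  have hg : g ∈ X := liForm_mem hX hG g n hgn
  have hn : n ∈ (omega : V) := liForm_nat hX hG hgn
  have hsX : s ∈ X := hX.fun_mem hn s hs
  rw [← oMem_restrict hX hg hsX, ← liClause_restrict hX hg (hX.nat_mem hn) hsX]
  exact hW g n s hgn hs

end restrict

end

end Pool.Agent.HZF
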