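import Pool.Agent.Lib_helper12.HZF.Abs

/-!
Absoluteness of satisfaction for `L(I)` between a model `V` of ZF and the power set of a
limit level.
-/

set_option linter.unusedSectionVars false

universe u

namespace Pool.Agent.HZF

open FirstOrder Language

section
variable {V : Type u} [Lset.Structure V] [IsZF V]

theorem trans_pow' {U : V} (hT : Trans U) : Trans (pow U) := by
  intro x hx y hy
  rw [mem_pow] at hx ⊢
  exact hT y (hx y hy)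

theorem potent_pow {U : V} : ∀ x ∈ pow U, ∀ z, Sub z x → z ∈ pow U := by
  intro x hx z hz
  rw [mem_pow] at hx ⊢
  exact sub_trans hz hx

section
variable {U : V} (hU : IsLim U)
include hU

theorem tp : Trans (pow U) := trans_pow' hU.trans

theorem up {x : V} (hx : x ∈ U) : x ∈ pow U := mem_pow.2 (hU.trans x hx)

theorem omega_mem_pow : (omega : V) ∈ pow U := up hU hU.omega_mem

theorem abs_nat {n : Mod (pow U)} : IsNat n ↔ IsNat n.1 := by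
  constructor
  · intro h
    have h1 : IsInductive (V := Mod (pow U)) ⟨omega, omega_mem_pow hU⟩ :=
      (abs_inductive (tp hU)).2 isInductive_omega
    have h2 := h _ h1
    exact mem_omega.1 (mem_mod.1 h2)
  · intro h I hI
    exact mem_mod.2 (h I.1 ((abs_inductive (tp hU)).1 hI))

theorem nat_mem_pow {n : V} (h : IsNat n) : n ∈ pow U := up hU (hU.nat_mem (mem_omega.2 h))

theorem abs_ext {s' s n x : Mod (pow U)} (hn : n.1 ∈ U) (hx : x.1 ∈ U) :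
    IsExt s' s n x ↔ IsExt s'.1 s.1 n.1 x.1 := by
  constructor
  · intro h p
    constructor
    · intro hp
      have := (h ⟨p, lift_mem (tp hU) hp⟩).1 (mem_mod.2 hp)
      simpa [mem_mod, abs_opair (tp hU)] using this
    · rintro (hp | hp)
      · exact mem_mod.1 ((h ⟨p, lift_mem (tp hU) hp⟩).2 (Or.inl (mem_mod.2 hp)))
      · have hpU : p ∈ pow U := by
          rw [isOpair_iff.1 hp]; exact up hU (hU.opair hn hx)
        exact mem_mod.1 ((h ⟨p, hpU⟩).2 (Or.inr ((abs_opair (tp hU)).2 hp)))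
  · intro h p
    rw [mem_mod, mem_mod, abs_opair (tp hU)]
    exact h p.1

theorem abs_str {X A : Mod (pow U)} : IsStr X A ↔ IsStr X.1 A.1 := by
  constructor
  · intro h p hp
    obtain ⟨i, t, k, h1, h2, h3, h4⟩ := h ⟨p, lift_mem (tp hU) hp⟩ (mem_mod.2 hp)
    exact ⟨i.1, t.1, k.1, (abs_opair (tp hU)).1 h1, (abs_nat hU).1 h2, (abs_nat hU).1 h3,
      (abs_isFun (tp hU)).1 h4⟩
  · intro h p hp
    obtain ⟨i, t, k, h1, h2, h3, h4⟩ := h p.1 (mem_mod.1 hp)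
    exact ⟨⟨i, lift_fst (tp hU) h1⟩, ⟨t, lift_snd (tp hU) h1⟩, ⟨k, nat_mem_pow hU h3⟩,
      (abs_opair (tp hU)).2 h1, (abs_nat hU).2 h2, (abs_nat hU).2 h3, (abs_isFun (tp hU)).2 h4⟩

theorem abs_bij {f B C : Mod (pow U)} : IsBij f B C ↔ IsBij f.1 B.1 C.1 := by
  constructor
  · rintro ⟨h1, h2⟩
    refine ⟨(abs_isFun (tp hU)).1 h1, fun y hy => ?_⟩
    obtain ⟨x, hx, hux⟩ := h2 ⟨y, lift_mem (tp hU) hy⟩ (mem_mod.2 hy)
    refine ⟨x.1, (abs_oMem (tp hU)).1 hx, fun z hz => ?_⟩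
    exact eq_mod.1 (hux ⟨z, lift_oMem_fst (tp hU) hz⟩ ((abs_oMem (tp hU)).2 hz))
  · rintro ⟨h1, h2⟩
    refine ⟨(abs_isFun (tp hU)).2 h1, fun y hy => ?_⟩
    obtain ⟨x, hx, hux⟩ := h2 y.1 (mem_mod.1 hy)
    refine ⟨⟨x, lift_oMem_fst (tp hU) hx⟩, (abs_oMem (tp hU)).2 hx, fun z hz => ?_⟩
    exact eq_mod.2 (hux z.1 ((abs_oMem (tp hU)).1 hz))

theorem abs_equinum {B C : Mod (pow U)} : Equinum B C ↔ Equinum B.1 C.1 := by
  constructor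
  · rintro ⟨f, hf⟩
    exact ⟨f.1, (abs_bij hU).1 hf⟩
  · rintro ⟨f, hf⟩
    have hfU : f ∈ pow U := by
      rw [mem_pow]
      intro p hp
      obtain ⟨x, y, hx, hy, rfl⟩ := hf.1.isPair hp
      exact hU.opair (mem_pow.1 B.2 x hx) (mem_pow.1 C.2 y hy)
    exact ⟨⟨f, hfU⟩, (abs_bij hU).2 hf⟩

theorem abs_liForm {G : Mod (pow U)} : LIForm G ↔ LIForm G.1 := by
  have hc := tp hU
  constructor
  · intro h q hq
    obtain ⟨g, n, h1, h2, h3⟩ := h ⟨q, lift_mem hc hq⟩ (mem_mod.2 hq)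
    refine ⟨g.1, n.1, (abs_opair hc).1 h1, (abs_nat hU).1 h2, ?_⟩
    rcases h3 with ⟨i, j, h, hi, hj⟩ | ⟨i, v, k, h, hi, hk, hv⟩ | ⟨a, b, h, ha, hb⟩ |
      ⟨a, m, h, hm, ha⟩ | ⟨a, b, m, h, hm, ha, hb⟩
    · exact Or.inl ⟨i.1, j.1, (abs_code2 hc).1 h, mem_mod.1 hi, mem_mod.1 hj⟩
    · exact Or.inr (Or.inl ⟨i.1, v.1, k.1, (abs_code2 hc).1 h, (abs_nat hU).1 hi,
        (abs_nat hU).1 hk, (abs_isFun hc).1 hv⟩)
    · exact Or.inr (Or.inr (Or.inl ⟨a.1, b.1, (abs_code2 hc).1 h, (abs_oMem hc).1 ha,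
        (abs_oMem hc).1 hb⟩))
    · exact Or.inr (Or.inr (Or.inr (Or.inl ⟨a.1, m.1, (abs_code1 hc).1 h, (abs_succ hc).1 hm,
        (abs_oMem hc).1 ha⟩)))
    · exact Or.inr (Or.inr (Or.inr (Or.inr ⟨a.1, b.1, m.1, (abs_code2 hc).1 h,
        (abs_succ hc).1 hm, (abs_oMem hc).1 ha, (abs_oMem hc).1 hb⟩)))
  · intro h q hq
    obtain ⟨g, n, h1, h2, h3⟩ := h q.1 (mem_mod.1 hq)
    have hgc := lift_fst hc h1
    have hnc := lift_snd hc h1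
    refine ⟨⟨g, hgc⟩, ⟨n, hnc⟩, (abs_opair hc).2 h1, (abs_nat hU).2 h2, ?_⟩
    rcases h3 with ⟨i, j, h, hi, hj⟩ | ⟨i, v, k, h, hi, hk, hv⟩ | ⟨a, b, h, ha, hb⟩ |
      ⟨a, m, h, hm, ha⟩ | ⟨a, b, m, h, hm, ha, hb⟩
    · obtain ⟨hic, hjc⟩ := lift_code2 hc (g := ⟨g, hgc⟩) h
      exact Or.inl ⟨⟨i, hic⟩, ⟨j, hjc⟩, (abs_code2 hc).2 h, mem_mod.2 hi, mem_mod.2 hj⟩
    · obtain ⟨hic, hvc⟩ := lift_code2 hc (g := ⟨g, hgc⟩) h
      exact Or.inr (Or.inl ⟨⟨i, hic⟩, ⟨v, hvc⟩, ⟨k, nat_mem_pow hU hk⟩, (abs_code2 hc).2 h,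
        (abs_nat hU).2 hi, (abs_nat hU).2 hk, (abs_isFun hc).2 hv⟩)
    · obtain ⟨hac, hbc⟩ := lift_code2 hc (g := ⟨g, hgc⟩) h
      exact Or.inr (Or.inr (Or.inl ⟨⟨a, hac⟩, ⟨b, hbc⟩, (abs_code2 hc).2 h, (abs_oMem hc).2 ha,
        (abs_oMem hc).2 hb⟩))
    · have hac := lift_code1 hc (g := ⟨g, hgc⟩) h
      exact Or.inr (Or.inr (Or.inr (Or.inl ⟨⟨a, hac⟩, ⟨m, lift_oMem_snd hc ha⟩,
        (abs_code1 hc).2 h, (abs_succ hc).2 hm, (abs_oMem hc).2 ha⟩)))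
    · obtain ⟨hac, hbc⟩ := lift_code2 hc (g := ⟨g, hgc⟩) h
      exact Or.inr (Or.inr (Or.inr (Or.inr ⟨⟨a, hac⟩, ⟨b, hbc⟩, ⟨m, lift_oMem_snd hc ha⟩,
        (abs_code2 hc).2 h, (abs_succ hc).2 hm, (abs_oMem hc).2 ha, (abs_oMem hc).2 hb⟩)))

theorem abs_liSentence {φ : Mod (pow U)} : LISentence φ ↔ LISentence φ.1 := by
  have hc := tp hU
  constructor
  · rintro ⟨G, e, hG, he, h⟩
    exact ⟨G.1, e.1, (abs_liForm hU).1 hG, (abs_emp hc).1 he, (abs_oMem hc).1 h⟩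
  · rintro ⟨G, e, hG, he, h⟩
    have hGc : G ∈ pow U := mem_pow.2 (liForm_sub hU hG)
    have hec : e ∈ pow U := by rw [isEmp_iff.1 he]; exact up hU hU.emp_mem
    exact ⟨⟨G, hGc⟩, ⟨e, hec⟩, (abs_liForm hU).2 hG, (abs_emp hc).2 he, (abs_oMem hc).2 h⟩

theorem abs_defSet {X W a s n B : Mod (pow U)} (hn : n.1 ∈ U) :
    IsDefSet X W a s n B ↔ IsDefSet X.1 W.1 a.1 s.1 n.1 B.1 := by
  have hc := tp hU
  constructor
  · intro h x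
    constructor
    · intro hx
      obtain ⟨h1, s', h2, h3⟩ := (h ⟨x, lift_mem hc hx⟩).1 (mem_mod.2 hx)
      have hxX := mem_mod.1 h1
      exact ⟨hxX, s'.1, (abs_ext hU hn (mem_pow.1 X.2 x hxX)).1 h2, (abs_oMem hc).1 h3⟩
    · rintro ⟨hx, s', h2, h3⟩
      have hs' : s' ∈ pow U := lift_oMem_snd hc h3
      exact mem_mod.1 ((h ⟨x, lift_mem hc hx⟩).2 ⟨mem_mod.2 hx, ⟨s', hs'⟩,
        (abs_ext hU hn (mem_pow.1 X.2 x hx)).2 h2, (abs_oMem hc).2 h3⟩)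
  · intro h x
    rw [mem_mod, mem_mod, h x.1]
    refine and_congr_right fun hx => ?_
    constructor
    · rintro ⟨s', h2, h3⟩
      exact ⟨⟨s', lift_oMem_snd hc h3⟩, (abs_ext hU hn (mem_pow.1 X.2 x.1 hx)).2 h2,
        (abs_oMem hc).2 h3⟩
    · rintro ⟨s', h2, h3⟩
      exact ⟨s'.1, (abs_ext hU hn (mem_pow.1 X.2 x.1 hx)).1 h2, (abs_oMem hc).1 h3⟩

theorem abs_liClause {X A W g n s : Mod (pow U)} (hn : n.1 ∈ U) :
    LIClause X A W g n s ↔ LIClause X.1 A.1 W.1 g.1 n.1 s.1 := by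
  have hc := tp hU
  unfold LIClause
  refine or_congr ?_ (or_congr ?_ (or_congr ?_ (or_congr ?_ ?_)))
  · constructor
    · rintro ⟨i, j, x, h1, h2, h3⟩
      exact ⟨i.1, j.1, x.1, (abs_code2 hc).1 h1, (abs_oMem hc).1 h2, (abs_oMem hc).1 h3⟩
    · rintro ⟨i, j, x, h1, h2, h3⟩
      obtain ⟨hi, hj⟩ := lift_code2 hc h1
      exact ⟨⟨i, hi⟩, ⟨j, hj⟩, ⟨x, lift_oMem_snd hc h2⟩, (abs_code2 hc).2 h1,
        (abs_oMem hc).2 h2, (abs_oMem hc).2 h3⟩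
  · constructor
    · rintro ⟨i, v, t, h1, h2, h3⟩
      exact ⟨i.1, v.1, t.1, (abs_code2 hc).1 h1, (abs_comp hc).1 h2, (abs_oMem hc).1 h3⟩
    · rintro ⟨i, v, t, h1, h2, h3⟩
      obtain ⟨hi, hv⟩ := lift_code2 hc h1
      exact ⟨⟨i, hi⟩, ⟨v, hv⟩, ⟨t, lift_oMem_snd hc h3⟩, (abs_code2 hc).2 h1,
        (abs_comp hc).2 h2, (abs_oMem hc).2 h3⟩
  · constructor
    · rintro ⟨a, b, h1, h2⟩
      refine ⟨a.1, b.1, (abs_code2 hc).1 h1, ?_⟩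
      rwa [abs_oMem hc, abs_oMem hc] at h2
    · rintro ⟨a, b, h1, h2⟩
      obtain ⟨ha, hb⟩ := lift_code2 hc h1
      refine ⟨⟨a, ha⟩, ⟨b, hb⟩, (abs_code2 hc).2 h1, ?_⟩
      rwa [abs_oMem hc, abs_oMem hc]
  · constructor
    · rintro ⟨a, h1, h2⟩
      refine ⟨a.1, (abs_code1 hc).1 h1, fun x hx => ?_⟩
      obtain ⟨s', h3, h4⟩ := h2 ⟨x, lift_mem hc hx⟩ (mem_mod.2 hx)
      exact ⟨s'.1, (abs_ext hU hn (mem_pow.1 X.2 x hx)).1 h3, (abs_oMem hc).1 h4⟩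
    · rintro ⟨a, h1, h2⟩
      refine ⟨⟨a, lift_code1 hc h1⟩, (abs_code1 hc).2 h1, fun x hx => ?_⟩
      obtain ⟨s', h3, h4⟩ := h2 x.1 (mem_mod.1 hx)
      exact ⟨⟨s', lift_oMem_snd hc h4⟩,
        (abs_ext hU hn (mem_pow.1 X.2 x.1 (mem_mod.1 hx))).2 h3, (abs_oMem hc).2 h4⟩
  · constructor
    · rintro ⟨a, b, h1, B, C, h2, h3, h4⟩
      exact ⟨a.1, b.1, (abs_code2 hc).1 h1, B.1, C.1, (abs_defSet hU hn).1 h2,
        (abs_defSet hU hn).1 h3, (abs_equinum hU).1 h4⟩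
    · rintro ⟨a, b, h1, B, C, h2, h3, h4⟩
      obtain ⟨ha, hb⟩ := lift_code2 hc h1
      have hB : B ∈ pow U := mem_pow.2 fun x hx => mem_pow.1 X.2 x ((h2 x).1 hx).1
      have hC : C ∈ pow U := mem_pow.2 fun x hx => mem_pow.1 X.2 x ((h3 x).1 hx).1
      exact ⟨⟨a, ha⟩, ⟨b, hb⟩, (abs_code2 hc).2 h1, ⟨B, hB⟩, ⟨C, hC⟩,
        (abs_defSet hU hn).2 h2, (abs_defSet hU hn).2 h3, (abs_equinum hU).2 h4⟩

theorem abs_liSat {X A G W : Mod (pow U)} (hG : LIForm G.1) :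
    LISat X A G W ↔ LISat X.1 A.1 G.1 W.1 := by
  have hc := tp hU
  constructor
  · intro h g n s hgn hs
    have hn : n ∈ (omega : V) := liForm_nat hU hG hgn
    have hs' : s ∈ U := hU.fun_mem' hn hs (mem_pow.1 X.2)
    have h1 := h ⟨g, lift_oMem_fst hc hgn⟩ ⟨n, lift_oMem_snd hc hgn⟩ ⟨s, up hU hs'⟩
      ((abs_oMem hc).2 hgn) ((abs_isFun hc).2 hs)
    rw [abs_oMem hc, abs_liClause hU (hU.nat_mem hn)] at h1
    exact h1
  · intro h g n s hgn hs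
    have hgn' := (abs_oMem hc).1 hgn
    have hn : n.1 ∈ (omega : V) := liForm_nat hU hG hgn'
    rw [abs_oMem hc, abs_liClause hU (hU.nat_mem hn)]
    exact h g.1 n.1 s.1 hgn' ((abs_isFun hc).1 hs)

theorem abs_liModel {X φ : Mod (pow U)} (hX : IsLim X.1) : LIModel X φ ↔ LIModel X.1 φ.1 := by
  have hc := tp hU
  constructor
  · rintro ⟨A, G, W, e, h1, h2, h3, h4, h5, h6⟩
    exact ⟨A.1, G.1, W.1, e.1, (abs_str hU).1 h1, (abs_liForm hU).1 h2, (abs_emp hc).1 h3,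
      (abs_oMem hc).1 h4, (abs_liSat hU ((abs_liForm hU).1 h2)).1 h5, (abs_oMem hc).1 h6⟩
  · intro h
    obtain ⟨A, G, W, e, hA, hG, hW, he, h1, h2, h3, h4, h5, h6⟩ := liModel_restrict hX h
    have hXU : Sub X.1 U := mem_pow.1 X.2
    exact ⟨⟨A, mem_pow.2 (sub_trans hA hXU)⟩, ⟨G, mem_pow.2 (sub_trans hG hXU)⟩,
      ⟨W, mem_pow.2 (sub_trans hW hXU)⟩, ⟨e, up hU (hXU e he)⟩, (abs_str hU).2 h1,
      (abs_liForm hU).2 h2, (abs_emp hc).2 h3, (abs_oMem hc).2 h4, (abs_liSat hU h2).2 h5,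
      (abs_oMem hc).2 h6⟩

end

end

end Pool.Agent.HZF
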