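import Pool.Agent.Lib_helper12.HZF.Syntax

/-!
Closure properties of limit levels; finite functions.
-/

set_option linter.unusedSectionVars false

universe u

namespace Pool.Agent.HZF

open FirstOrder Language

section
variable {V : Type u} [Lset.Structure V] [IsZF V]

theorem isCode1_iff {k : ℕ} {g a : V} : IsCode1 k g a ↔ ∃ t, IsNum k t ∧ g = opair t a := by
  simp [IsCode1, isOpair_iff]

theorem isFun_iff {f d X : V} : IsFun f d X ↔
    (∀ p ∈ f, ∃ x ∈ d, ∃ y ∈ X, p = opair x y) ∧ ∀ x ∈ d, ∃! y, opair x y ∈ f := by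
  simp [IsFun, isOpair_iff, oMem_iff]

theorem IsFun.mono {f d X Y : V} (h : IsFun f d X) (hXY : Sub X Y) : IsFun f d Y := by
  rw [isFun_iff] at h ⊢
  refine ⟨fun p hp => ?_, h.2⟩
  obtain ⟨x, hx, y, hy, rfl⟩ := h.1 p hp
  exact ⟨x, hx, y, hXY y hy, rfl⟩

theorem IsFun.dom {f d X x y : V} (h : IsFun f d X) (hxy : opair x y ∈ f) : x ∈ d := by
  obtain ⟨x', hx, y', hy, e⟩ := (isFun_iff.1 h).1 _ hxy
  rw [opair_inj] at e
  rw [e.1]; exact hx

theorem IsFun.ran {f d X x y : V} (h : IsFun f d X) (hxy : opair x y ∈ f) : y ∈ X := by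
  obtain ⟨x', hx, y', hy, e⟩ := (isFun_iff.1 h).1 _ hxy
  rw [opair_inj] at e
  rw [e.2]; exact hy

theorem IsFun.uniq {f d X x y z : V} (h : IsFun f d X) (hxy : opair x y ∈ f)
    (hxz : opair x z ∈ f) : y = z :=
  ((isFun_iff.1 h).2 x (h.dom hxy)).unique hxy hxz

theorem IsFun.exists {f d X x : V} (h : IsFun f d X) (hx : x ∈ d) : ∃ y, opair x y ∈ f :=
  ((isFun_iff.1 h).2 x hx).exists

theorem IsFun.isPair {f d X p : V} (h : IsFun f d X) (hp : p ∈ f) :
    ∃ x y, x ∈ d ∧ y ∈ X ∧ p = opair x y := by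
  obtain ⟨x, hx, y, hy, e⟩ := (isFun_iff.1 h).1 p hp
  exact ⟨x, y, hx, hy, e⟩

/-- Two functions on `d` with the same values are equal. -/
theorem IsFun.ext {f g d X Y : V} (hf : IsFun f d X) (hg : IsFun g d Y)
    (h : ∀ x y, opair x y ∈ f → opair x y ∈ g) : f = g := by
  refine HZF.ext fun p => ⟨fun hp => ?_, fun hp => ?_⟩
  · obtain ⟨x, y, _, _, rfl⟩ := hf.isPair hp
    exact h x y hp
  · obtain ⟨x, y, hx, _, rfl⟩ := hg.isPair hp
    obtain ⟨z, hz⟩ := hf.exists hx
    rw [hg.uniq hp (h x z hz)]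
    exact hz

/-- The prolongation of a finite sequence. -/
theorem isExt_iff {s' s n x : V} : IsExt s' s n x ↔ s' = un s (sing (opair n x)) := by
  unfold IsExt
  constructor
  · intro h
    exact ext fun p => by rw [h p, isOpair_iff, mem_un, mem_sing]
  · rintro rfl p
    rw [isOpair_iff, mem_un, mem_sing]

theorem isFun_ext {s n X x : V} (hs : IsFun s n X) (hx : x ∈ X) :
    IsFun (un s (sing (opair n x))) (succ n) X := by
  rw [isFun_iff]
  constructor
  · intro p hp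
    rcases mem_un.1 hp with hp | hp
    · obtain ⟨a, b, ha, hb, rfl⟩ := hs.isPair hp
      exact ⟨a, mem_succ.2 (Or.inl ha), b, hb, rfl⟩
    · rw [mem_sing] at hp
      exact ⟨n, mem_succ.2 (Or.inr rfl), x, hx, hp⟩
  · intro a ha
    rcases mem_succ.1 ha with ha | rfl
    · obtain ⟨b, hb⟩ := hs.exists ha
      refine ⟨b, mem_un.2 (Or.inl hb), fun c hc => ?_⟩
      rcases mem_un.1 hc with hc | hc
      · exact hs.uniq hc hb
      · rw [mem_sing, opair_inj] at hc
        rw [hc.1] at ha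
        exact absurd ha (not_mem_self n)
    · refine ⟨x, mem_un.2 (Or.inr (mem_sing.2 rfl)), fun c hc => ?_⟩
      rcases mem_un.1 hc with hc | hc
      · exact absurd (hs.dom hc) (not_mem_self _)
      · rw [mem_sing, opair_inj] at hc
        exact hc.2

/-- Every function on `succ n` is the prolongation of a function on `n`. -/
theorem isFun_succ {t n X : V} (ht : IsFun t (succ n) X) :
    ∃ s x, IsFun s n X ∧ x ∈ X ∧ t = un s (sing (opair n x)) := by
  obtain ⟨x, hx⟩ := ht.exists (mem_succ.2 (Or.inr rfl))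
  refine ⟨sep (fun p => ∃ a b, a ∈ n ∧ p = opair a b) t, x, ?_, ht.ran hx, ?_⟩
  · rw [isFun_iff]
    constructor
    · intro p hp
      obtain ⟨hp, a, b, ha, rfl⟩ := mem_sep.1 hp
      exact ⟨a, ha, b, ht.ran hp, rfl⟩
    · intro a ha
      obtain ⟨b, hb⟩ := ht.exists (mem_succ.2 (Or.inl ha))
      refine ⟨b, mem_sep.2 ⟨hb, a, b, ha, rfl⟩, fun c hc => ?_⟩
      exact ht.uniq (mem_sep.1 hc).1 hb
  · refine ext fun p => ?_
    rw [mem_un, mem_sep, mem_sing]
    constructor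
    · intro hp
      obtain ⟨a, b, ha, _, rfl⟩ := ht.isPair hp
      rcases mem_succ.1 ha with ha | rfl
      · exact Or.inl ⟨hp, a, b, ha, rfl⟩
      · exact Or.inr (by rw [ht.uniq hp hx])
    · rintro (⟨hp, _⟩ | rfl)
      · exact hp
      · exact hx

theorem isFun_emp {t X : V} : IsFun t emp X ↔ t = emp := by
  constructor
  · intro h
    refine ext fun p => ⟨fun hp => ?_, fun hp => absurd hp (not_mem_emp p)⟩
    obtain ⟨x, _, hx, _, _⟩ := h.isPair hp
    exact absurd hx (not_mem_emp x)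
  · rintro rfl
    rw [isFun_iff]
    exact ⟨fun p hp => absurd hp (not_mem_emp p), fun p hp => absurd hp (not_mem_emp p)⟩

/-! ### Limit levels -/

section lim
variable {U : V} (hU : IsLim U)
include hU

theorem IsLim.lev : IsLev U := hU.1

theorem IsLim.trans : Trans U := hU.1.trans

theorem IsLim.mem_of_mem {x y : V} (h : x ∈ y) (hy : y ∈ U) : x ∈ U := hU.trans y hy x h

theorem IsLim.potent {x z : V} (hx : x ∈ U) (hz : Sub z x) : z ∈ U := hU.1.potent hx hz

theorem IsLim.two {x y : V} (hx : x ∈ U) (hy : y ∈ U) : ∃ r ∈ U, IsLev r ∧ x ∈ r ∧ y ∈ r := by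
  obtain ⟨r, hr, hrl, hxr⟩ := hU.2.2 x hx
  obtain ⟨s, hs, hsl, hys⟩ := hU.2.2 y hy
  rcases lev_comp r hrl s hsl with h | h | h
  · exact ⟨s, hs, hsl, hsl.trans r h x hxr, hys⟩
  · subst h; exact ⟨r, hr, hrl, hxr, hys⟩
  · exact ⟨r, hr, hrl, hxr, hrl.trans s h y hys⟩

theorem IsLim.upair {x y : V} (hx : x ∈ U) (hy : y ∈ U) : upair x y ∈ U := by
  obtain ⟨r, hr, hrl, hxr, hyr⟩ := hU.two hx hy
  refine hU.potent hr fun z hz => ?_
  rcases mem_upair.1 hz with rfl | rfl <;> assumption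

theorem IsLim.sing {x : V} (hx : x ∈ U) : sing x ∈ U := hU.upair hx hx

theorem IsLim.opair {x y : V} (hx : x ∈ U) (hy : y ∈ U) : opair x y ∈ U :=
  hU.upair (hU.sing hx) (hU.upair hx hy)

theorem IsLim.un {x y : V} (hx : x ∈ U) (hy : y ∈ U) : un x y ∈ U := by
  obtain ⟨r, hr, hrl, hxr, hyr⟩ := hU.two hx hy
  refine hU.potent hr fun z hz => ?_
  rcases mem_un.1 hz with hz | hz
  · exact hrl.trans x hxr z hz
  · exact hrl.trans y hyr z hz

theorem IsLim.succ {x : V} (hx : x ∈ U) : succ x ∈ U := hU.un hx (hU.sing hx)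

theorem IsLim.pow {x : V} (hx : x ∈ U) : pow x ∈ U := by
  obtain ⟨r, hr, hrl, hxr⟩ := hU.2.2 x hx
  exact hU.potent hr fun z hz => hrl.potent hxr (mem_pow.1 hz)

theorem IsLim.omega_mem : (omega : V) ∈ U := by
  obtain ⟨w, hw, hwi⟩ := hU.2.1
  exact hU.potent hw fun n hn => mem_omega.1 hn w hwi

theorem IsLim.nat_mem {n : V} (hn : n ∈ (omega : V)) : n ∈ U := hU.mem_of_mem hn hU.omega_mem

theorem IsLim.emp_mem : (emp : V) ∈ U := hU.nat_mem emp_mem_omega

theorem IsLim.num_mem {k : ℕ} {x : V} (h : IsNum k x) : x ∈ U := by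
  induction k generalizing x with
  | zero => rw [isEmp_iff.1 h]; exact hU.emp_mem
  | succ k ih =>
    obtain ⟨y, hy, hx⟩ := h
    rw [isSucc_iff.1 hx]
    exact hU.succ (ih hy)

theorem IsLim.fst_mem {x y : V} (h : HZF.opair x y ∈ U) : x ∈ U := by
  have h1 : HZF.upair x y ∈ U := hU.mem_of_mem (mem_upair.2 (Or.inr rfl)) h
  exact hU.mem_of_mem (mem_upair.2 (Or.inl rfl)) h1

theorem IsLim.snd_mem {x y : V} (h : HZF.opair x y ∈ U) : y ∈ U := by
  have h1 : HZF.upair x y ∈ U := hU.mem_of_mem (mem_upair.2 (Or.inr rfl)) h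
  exact hU.mem_of_mem (mem_upair.2 (Or.inr rfl)) h1

/-- Finite sequences of elements of a limit level belong to it. -/
theorem IsLim.fun_mem {k : V} (hk : k ∈ (omega : V)) : ∀ t, IsFun t k U → t ∈ U := by
  refine nat_ind (Q := fun k => ∀ t, IsFun t k U → t ∈ U) ?_ ?_ k hk
  · intro t ht
    rw [isFun_emp.1 ht]
    exact hU.emp_mem
  · intro n hn ih t ht
    obtain ⟨s, x, hs, hx, rfl⟩ := isFun_succ ht
    exact hU.un (ih s hs) (hU.sing (hU.opair (hU.nat_mem hn) hx))

end lim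

/-- Comparability of limit levels. -/
theorem lim_comp {U T : V} (hU : IsLim U) (hT : IsLim T) : U ∈ T ∨ U = T ∨ T ∈ U :=
  lev_comp U hU.lev T hT.lev

/-- A limit level is not equinumerous to one of its elements. -/
theorem cantor {U T f : V} (hU : IsLim U) (hT : T ∈ U) (hf : IsBij f T U) : False := by
  have hd : sep (fun x => ∃ y : V, opair x y ∈ f ∧ x ∉ y) T ∈ U :=
    hU.mem_of_mem (mem_pow.2 fun z hz => (mem_sep.1 hz).1) (hU.pow hT)
  obtain ⟨x, hx, _⟩ := hf.2 _ hd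
  rw [oMem_iff] at hx
  by_cases h : x ∈ sep (fun x => ∃ y : V, opair x y ∈ f ∧ x ∉ y) T
  · obtain ⟨_, y, hy, hxy⟩ := mem_sep.1 h
    rw [hf.1.uniq hx hy] at h
    exact hxy h
  · exact h (mem_sep.2 ⟨hf.1.dom hx, _, hx, h⟩)

theorem lim_eq_of_bij {U T f : V} (hU : IsLim U) (hT : IsLim T) (hf : IsBij f T U)
    : T = U ∨ U ∈ T := by
  rcases lim_comp hU hT with h | h | h
  · exact Or.inr h
  · exact Or.inl h.symm
  · exact (cantor hU h hf).elim

/-- The inverse of a bijection. -/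
theorem IsBij.symm {f B C : V} (hf : IsBij f B C) : ∃ g, IsBij g C B ∧
    ∀ x y, opair x y ∈ f ↔ opair y x ∈ g := by
  have hdef : ∀ x y, opair x y ∈ f ↔ opair y x ∈
      sep (fun p => ∃ x y : V, opair x y ∈ f ∧ p = opair y x) (pow (pow (un B C))) := by
    intro x y
    rw [mem_sep]
    constructor
    · intro h
      refine ⟨?_, x, y, h, rfl⟩
      rw [mem_pow]
      intro z hz
      rw [mem_pow]
      intro w hw
      have hx := hf.1.dom h
      have hy := hf.1.ran h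
      rw [mem_un]
      rcases mem_upair.1 hz with rfl | rfl
      · rw [mem_sing] at hw; subst hw; exact Or.inr hy
      · rcases mem_upair.1 hw with rfl | rfl
        · exact Or.inr hy
        · exact Or.inl hx
    · rintro ⟨_, x', y', h, e⟩
      rw [opair_inj] at e
      rw [e.1, e.2]; exact h
  refine ⟨sep (fun p => ∃ x y : V, opair x y ∈ f ∧ p = opair y x) (pow (pow (un B C))), ?_, hdef⟩
  constructor
  · rw [isFun_iff]
    constructor
    · intro p hp
      obtain ⟨_, x, y, h, rfl⟩ := mem_sep.1 hp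
      exact ⟨y, hf.1.ran h, x, hf.1.dom h, rfl⟩
    · intro y hy
      obtain ⟨x, hx, hux⟩ := hf.2 y hy
      refine ⟨x, (hdef x y).1 (oMem_iff.1 hx), fun z hz => ?_⟩
      exact hux z (oMem_iff.2 ((hdef z y).2 hz))
  · intro x hx
    obtain ⟨y, hy⟩ := hf.1.exists hx
    refine ⟨y, oMem_iff.2 ((hdef x y).1 hy), fun z hz => ?_⟩
    exact hf.1.uniq ((hdef x z).2 (oMem_iff.1 hz)) hy

theorem lim_eq_of_bij' {U T f : V} (hU : IsLim U) (hT : IsLim T) (hf : IsBij f T U) : T = U := by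
  rcases lim_eq_of_bij hU hT hf with h | h
  · exact h
  · obtain ⟨g, hg, _⟩ := hf.symm
    exact (cantor hT h hg).elim

end

end Pool.Agent.HZF
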