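import Pool.Agent.Lib_helper12.HZF.Abs2

/-!
The Mostowski collapse of a well-founded extensional relation on a set, inside a model of ZF.
-/

set_option linter.unusedSectionVars false

universe u

namespace Pool.Agent.HZF

open FirstOrder Language

section
variable {V : Type u} [Lset.Structure V] [IsZF V]

/-- `r` is a relation on `Y` which is well-founded in `V`. -/
structure WFRel (Y r : V) : Prop where
  sub : ∀ w y, opair w y ∈ r → w ∈ Y ∧ y ∈ Y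
  wf : ∀ Z, Sub Z Y → (∃ z, z ∈ Z) → ∃ z ∈ Z, ∀ w ∈ Z, opair w z ∉ r

section
variable {Y r : V} (h : WFRel Y r)
include h

theorem WFRel.ind {Q : V → Prop} [DP (fun v => Q (v 0))]
    (hQ : ∀ y ∈ Y, (∀ w, opair w y ∈ r → Q w) → Q y) : ∀ y ∈ Y, Q y := by
  intro y hy
  by_contra hcon
  obtain ⟨z, hz, hz'⟩ := h.wf (sep (fun y => ¬ Q y) Y) (fun z hz => (mem_sep.1 hz).1)
    ⟨y, mem_sep.2 ⟨hy, hcon⟩⟩
  rw [mem_sep] at hz
  refine hz.2 (hQ z hz.1 fun w hw => ?_)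
  by_contra hQw
  exact hz' w (mem_sep.2 ⟨(h.sub w z hw).1, hQw⟩) hw

end

variable (Y r : V)

/-- `f` is a bisimulation between `(Y, r)` and the universe. -/
def IsBisim (f : V) : Prop :=
  ∀ p ∈ f, ∃ y x, y ∈ Y ∧ p = opair y x ∧ (∀ w, opair w y ∈ r → ∃ z ∈ x, opair w z ∈ f) ∧
    ∀ z ∈ x, ∃ w, opair w y ∈ r ∧ opair w z ∈ f

/-- `y` is related to `x` by some bisimulation. -/
def Coll (y x : V) : Prop := ∃ f, IsBisim Y r f ∧ opair y x ∈ f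

instance {t : (ℕ → V) → V} [ht : DF t] : DP (fun v => IsBisim Y r (t v)) :=
  DP.comp1 (R := fun f => IsBisim Y r f) (by unfold IsBisim; infer_instance) ht

instance {t s : (ℕ → V) → V} [ht : DF t] [hs : DF s] : DP (fun v => Coll Y r (t v) (s v)) :=
  DP.comp2 (R := fun y x => Coll Y r y x) (by unfold Coll; infer_instance) ht hs

variable {Y r}

theorem Coll.mem {y x : V} (h : Coll Y r y x) :
    (∀ w, opair w y ∈ r → ∃ z ∈ x, Coll Y r w z) ∧ ∀ z ∈ x, ∃ w, opair w y ∈ r ∧ Coll Y r w z := by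
  obtain ⟨f, hf, hyx⟩ := h
  obtain ⟨y', x', _, e, h1, h2⟩ := hf _ hyx
  obtain ⟨rfl, rfl⟩ := opair_inj.1 e
  constructor
  · intro w hw
    obtain ⟨z, hz, hwz⟩ := h1 w hw
    exact ⟨z, hz, f, hf, hwz⟩
  · intro z hz
    obtain ⟨w, hw, hwz⟩ := h2 z hz
    exact ⟨w, hw, f, hf, hwz⟩

theorem Coll.uniq (h : WFRel Y r) : ∀ y ∈ Y, ∀ x x', Coll Y r y x → Coll Y r y x' → x = x' := by
  refine h.ind (Q := fun y => ∀ x x', Coll Y r y x → Coll Y r y x' → x = x') ?_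
  intro y hy ih x x' hx hx'
  refine ext fun z => ⟨fun hz => ?_, fun hz => ?_⟩
  · obtain ⟨w, hw, hwz⟩ := hx.mem.2 z hz
    obtain ⟨z', hz', hwz'⟩ := hx'.mem.1 w hw
    rw [ih w hw z z' hwz hwz']
    exact hz'
  · obtain ⟨w, hw, hwz⟩ := hx'.mem.2 z hz
    obtain ⟨z', hz', hwz'⟩ := hx.mem.1 w hw
    rw [ih w hw z z' hwz hwz']
    exact hz'

/-- The set of all pairs `⟨y, x⟩` such that `y` collapses to `x`. -/
theorem exists_coll (h : WFRel Y r) :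
    ∃ F : V, ∀ p, p ∈ F ↔ ∃ y ∈ Y, ∃ x, Coll Y r y x ∧ p = opair y x := by
  obtain ⟨F, hF⟩ := exists_repl (fun y p => ∃ x, Coll Y r y x ∧ p = opair y x)
    (sep (fun y => ∃ x, Coll Y r y x) Y) (fun y hy => by
      obtain ⟨hy, x, hx⟩ := mem_sep.1 hy
      refine ⟨opair y x, ⟨x, hx, rfl⟩, ?_⟩
      rintro p ⟨x', hx', rfl⟩
      rw [Coll.uniq h y hy x' x hx' hx])
  refine ⟨F, fun p => ?_⟩
  rw [hF p]
  constructor
  · rintro ⟨y, hy, x, hx, rfl⟩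
    exact ⟨y, (mem_sep.1 hy).1, x, hx, rfl⟩
  · rintro ⟨y, hy, x, hx, rfl⟩
    exact ⟨y, mem_sep.2 ⟨hy, x, hx⟩, x, hx, rfl⟩

theorem coll_total (h : WFRel Y r) : ∀ y ∈ Y, ∃ x, Coll Y r y x := by
  obtain ⟨F, hF⟩ := exists_coll h
  have hFb : ∀ w z, opair w z ∈ F ↔ w ∈ Y ∧ Coll Y r w z := by
    intro w z
    rw [hF]
    constructor
    · rintro ⟨y, hy, x, hx, e⟩
      obtain ⟨rfl, rfl⟩ := opair_inj.1 e
      exact ⟨hy, hx⟩
    · rintro ⟨hw, hz⟩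
      exact ⟨w, hw, z, hz, rfl⟩
  refine h.ind (Q := fun y => ∃ x, Coll Y r y x) ?_
  intro y hy ih
  obtain ⟨x, hx⟩ := exists_repl (fun w z => Coll Y r w z) (sep (fun w => opair w y ∈ r) Y)
    (fun w hw => by
      obtain ⟨hwY, hw⟩ := mem_sep.1 hw
      obtain ⟨z, hz⟩ := ih w hw
      exact ⟨z, hz, fun z' hz' => Coll.uniq h w hwY z' z hz' hz⟩)
  refine ⟨x, un F (sing (opair y x)), ?_, mem_un.2 (Or.inr (mem_sing.2 rfl))⟩
  intro p hp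
  rcases mem_un.1 hp with hp | hp
  · obtain ⟨y', hy', x', hx', rfl⟩ := (hF p).1 hp
    refine ⟨y', x', hy', rfl, fun w hw => ?_, fun z hz => ?_⟩
    · obtain ⟨z, hz, hwz⟩ := hx'.mem.1 w hw
      exact ⟨z, hz, mem_un.2 (Or.inl ((hFb w z).2 ⟨(h.sub w y' hw).1, hwz⟩))⟩
    · obtain ⟨w, hw, hwz⟩ := hx'.mem.2 z hz
      exact ⟨w, hw, mem_un.2 (Or.inl ((hFb w z).2 ⟨(h.sub w y' hw).1, hwz⟩))⟩
  · rw [mem_sing] at hp
    refine ⟨y, x, hy, hp, fun w hw => ?_, fun z hz => ?_⟩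
    · have hwY := (h.sub w y hw).1
      obtain ⟨z, hz⟩ := ih w hw
      exact ⟨z, (hx z).2 ⟨w, mem_sep.2 ⟨hwY, hw⟩, hz⟩, mem_un.2 (Or.inl ((hFb w z).2 ⟨hwY, hz⟩))⟩
    · obtain ⟨w, hw, hwz⟩ := (hx z).1 hz
      obtain ⟨hwY, hw⟩ := mem_sep.1 hw
      exact ⟨w, hw, mem_un.2 (Or.inl ((hFb w z).2 ⟨hwY, hwz⟩))⟩

/-- The Mostowski collapse. -/
theorem collapse (h : WFRel Y r)
    (hext : ∀ y ∈ Y, ∀ y' ∈ Y, (∀ w, opair w y ∈ r ↔ opair w y' ∈ r) → y = y') :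
    ∃ T f : V, IsBij f Y T ∧ Trans T ∧
      ∀ y x, opair y x ∈ f → ∀ z, z ∈ x ↔ ∃ w, opair w y ∈ r ∧ opair w z ∈ f := by
  obtain ⟨F, hF⟩ := exists_coll h
  have hFb : ∀ w z, opair w z ∈ F ↔ w ∈ Y ∧ Coll Y r w z := by
    intro w z
    rw [hF]
    constructor
    · rintro ⟨y, hy, x, hx, e⟩
      obtain ⟨rfl, rfl⟩ := opair_inj.1 e
      exact ⟨hy, hx⟩
    · rintro ⟨hw, hz⟩
      exact ⟨w, hw, z, hz, rfl⟩
  obtain ⟨T, hT⟩ := exists_repl (fun y x => Coll Y r y x) Y (fun y hy => by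
    obtain ⟨x, hx⟩ := coll_total h y hy
    exact ⟨x, hx, fun x' hx' => Coll.uniq h y hy x' x hx' hx⟩)
  have hstep : ∀ y x, opair y x ∈ F → ∀ z, z ∈ x ↔ ∃ w, opair w y ∈ r ∧ opair w z ∈ F := by
    intro y x hyx z
    obtain ⟨hy, hx⟩ := (hFb y x).1 hyx
    constructor
    · intro hz
      obtain ⟨w, hw, hwz⟩ := hx.mem.2 z hz
      exact ⟨w, hw, (hFb w z).2 ⟨(h.sub w y hw).1, hwz⟩⟩
    · rintro ⟨w, hw, hwz⟩
      obtain ⟨hwY, hwz⟩ := (hFb w z).1 hwz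
      obtain ⟨z', hz', hwz'⟩ := hx.mem.1 w hw
      rw [Coll.uniq h w hwY z z' hwz hwz']
      exact hz'
  have hinj : ∀ y ∈ Y, ∀ y' x, opair y x ∈ F → opair y' x ∈ F → y = y' := by
    refine h.ind (Q := fun y => ∀ y' x, opair y x ∈ F → opair y' x ∈ F → y = y') ?_
    intro y hy ih y' x hx hx'
    refine hext y hy y' ((hFb y' x).1 hx').1 fun w => ⟨fun hw => ?_, fun hw => ?_⟩
    · obtain ⟨z, hz⟩ := coll_total h w (h.sub w y hw).1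
      have hwz : opair w z ∈ F := (hFb w z).2 ⟨(h.sub w y hw).1, hz⟩
      have hzx : z ∈ x := (hstep y x hx z).2 ⟨w, hw, hwz⟩
      obtain ⟨w', hw', hwz'⟩ := (hstep y' x hx' z).1 hzx
      rw [ih w hw w' z hwz hwz']
      exact hw'
    · obtain ⟨z, hz⟩ := coll_total h w (h.sub w y' hw).1
      have hwz : opair w z ∈ F := (hFb w z).2 ⟨(h.sub w y' hw).1, hz⟩
      have hzx : z ∈ x := (hstep y' x hx' z).2 ⟨w, hw, hwz⟩
      obtain ⟨w', hw', hwz'⟩ := (hstep y x hx z).1 hzx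
      rw [← ih w' hw' w z hwz' hwz]
      exact hw'
  refine ⟨T, F, ⟨?_, ?_⟩, ?_, hstep⟩
  · rw [isFun_iff]
    constructor
    · intro p hp
      obtain ⟨y, hy, x, hx, rfl⟩ := (hF p).1 hp
      exact ⟨y, hy, x, (hT x).2 ⟨y, hy, hx⟩, rfl⟩
    · intro y hy
      obtain ⟨x, hx⟩ := coll_total h y hy
      exact ⟨x, (hFb y x).2 ⟨hy, hx⟩, fun x' hx' => Coll.uniq h y hy x' x ((hFb y x').1 hx').2 hx⟩
  · intro x hx
    obtain ⟨y, hy, hyx⟩ := (hT x).1 hx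
    refine ⟨y, oMem_iff.2 ((hFb y x).2 ⟨hy, hyx⟩), fun y' hy' => ?_⟩
    exact (hinj y hy y' x ((hFb y x).2 ⟨hy, hyx⟩) (oMem_iff.1 hy')).symm
  · intro x hx z hz
    obtain ⟨y, hy, hyx⟩ := (hT x).1 hx
    obtain ⟨w, hw, hwz⟩ := hyx.mem.2 z hz
    exact (hT z).2 ⟨w, (h.sub w y hw).1, hwz⟩

end

end Pool.Agent.HZF
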