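import Pool.Agent.Lib_helper12.HZF.Notions

/-!
The first-order language of set theory and definability with parameters.
-/

universe u

namespace Pool.Agent.HZF

open FirstOrder Language

section
variable {V : Type u} [Lset.Structure V]

/-- The atomic formula `x_i ∈ x_j`. -/
def fMem {α : Type} (i j : α) : Lset.Formula α :=
  Relations.formula₂ (L := Lset) (MemRel.mem : Lset.Relations 2) (Term.var i) (Term.var j)

def fMem' {α : Type u} (i j : α) : Lset.Formula α :=
  Relations.formula₂ (L := Lset) (MemRel.mem : Lset.Relations 2) (Term.var i) (Term.var j)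

theorem realize_fMem' {α : Type u} (i j : α) (v : α → V) :
    (fMem' i j).Realize v ↔ v i ∈ v j := by
  unfold fMem'
  rw [Formula.realize_rel₂]
  simp
  rfl

abbrev shift (v : ℕ → V) : ℕ → V := fun n => v (n + 1)

/-- Definability with parameters of a predicate on assignments. -/
class DP (Q : (ℕ → V) → Prop) : Prop where
  out : ∃ φ : Lset.Formula (ℕ ⊕ V), ∀ v : ℕ → V, φ.Realize (Sum.elim v id) ↔ Q v

/-- Definability with parameters of a function. -/
class DF (t : (ℕ → V) → V) : Prop where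
  out : DP (fun v => v 0 = t (shift v))

theorem DP.congr {P Q : (ℕ → V) → Prop} (h : DP P) (hPQ : ∀ v, P v ↔ Q v) : DP Q := by
  obtain ⟨φ, hφ⟩ := h.out
  exact ⟨⟨φ, fun v => (hφ v).trans (hPQ v)⟩⟩

instance (priority := 50) DP.const (p : Prop) : DP (fun _ : ℕ → V => p) := by
  by_cases h : p
  · exact ⟨⟨⊤, fun v => by simp [h]⟩⟩
  · exact ⟨⟨⊥, fun v => by simp [h]⟩⟩

instance DP.not {P : (ℕ → V) → Prop} [hP : DP P] : DP (fun v => ¬ P v) := by
  obtain ⟨φ, hφ⟩ := hP.out
  exact ⟨⟨φ.not, fun v => by simp [Formula.realize_not, hφ]⟩⟩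

instance DP.imp {P Q : (ℕ → V) → Prop} [hP : DP P] [hQ : DP Q] : DP (fun v => P v → Q v) := by
  obtain ⟨φ, hφ⟩ := hP.out
  obtain ⟨ψ, hψ⟩ := hQ.out
  exact ⟨⟨φ.imp ψ, fun v => by simp [Formula.realize_imp, hφ, hψ]⟩⟩

instance DP.and {P Q : (ℕ → V) → Prop} [hP : DP P] [hQ : DP Q] : DP (fun v => P v ∧ Q v) := by
  have h : DP (fun v => ¬ (P v → ¬ Q v)) := inferInstance
  exact h.congr (fun v => by tauto)

instance DP.or {P Q : (ℕ → V) → Prop} [hP : DP P] [hQ : DP Q] : DP (fun v => P v ∨ Q v) := by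
  have h : DP (fun v => (¬ P v → Q v)) := inferInstance
  exact h.congr (fun v => by tauto)

instance DP.iff {P Q : (ℕ → V) → Prop} [hP : DP P] [hQ : DP Q] : DP (fun v => (P v ↔ Q v)) := by
  have h : DP (fun v => ((P v → Q v) ∧ (Q v → P v))) := inferInstance
  exact h.congr (fun v => by tauto)

/-- The relabelling used for quantifiers. -/
def shiftMap {W : Type u} : ℕ ⊕ W → (ℕ ⊕ W) ⊕ Fin 1
  | Sum.inl 0 => Sum.inr 0
  | Sum.inl (n + 1) => Sum.inl (Sum.inl n)
  | Sum.inr c => Sum.inl (Sum.inr c)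

theorem DP.all' {P : V → (ℕ → V) → Prop} (h : DP (fun v => P (v 0) (shift v))) :
    DP (fun v => ∀ x, P x v) := by
  obtain ⟨φ, hφ⟩ := h.out
  refine ⟨⟨BoundedFormula.all (BoundedFormula.relabel (n := 1) shiftMap φ), fun v => ?_⟩⟩
  unfold Formula.Realize at hφ ⊢
  rw [BoundedFormula.realize_all]
  refine forall_congr' fun x => ?_
  rw [BoundedFormula.realize_relabel]
  have hP : P x v ↔ BoundedFormula.Realize φ
      (Sum.elim (fun n => Nat.casesOn n x v : ℕ → V) id) default :=
    (hφ (fun n => Nat.casesOn n x v)).symm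
  rw [hP]
  have h1 : (Sum.elim (Sum.elim v id) ((Fin.snoc default x : Fin (0 + 1) → V) ∘ Fin.castAdd 0) ∘
      (shiftMap (W := V))) = Sum.elim (fun n => Nat.casesOn n x v : ℕ → V) id := by
    funext i
    rcases i with (_ | n) | c
    · simp [shiftMap, Fin.snoc]
    · simp [shiftMap]
    · simp [shiftMap]
  rw [h1]
  have h2 : ((Fin.snoc default x : Fin (0 + 1) → V) ∘ Fin.natAdd 1) = (default : Fin 0 → V) :=
    Subsingleton.elim _ _
  rw [h2]

instance DP.all {P : V → (ℕ → V) → Prop} [h : DP (fun v => P (v 0) (shift v))] :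
    DP (fun v => ∀ x, P x v) := DP.all' h

instance DP.ex {P : V → (ℕ → V) → Prop} [h : DP (fun v => P (v 0) (shift v))] :
    DP (fun v => ∃ x, P x v) := by
  have h1 : DP (fun v => ¬ P (v 0) (shift v)) := DP.not
  have h2 : DP (fun v => ∀ x, ¬ P x v) := DP.all' (P := fun x v => ¬ P x v) h1
  have h3 : DP (fun v => ¬ ∀ x, ¬ P x v) := DP.not
  exact h3.congr (fun v => by push Not; rfl)

theorem DP.mem_var (i j : ℕ) : DP (fun v : ℕ → V => v i ∈ v j) :=
  ⟨⟨fMem' (Sum.inl i) (Sum.inl j), fun v => by rw [realize_fMem']; simp⟩⟩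

theorem DP.eq_var (i j : ℕ) : DP (fun v : ℕ → V => v i = v j) :=
  ⟨⟨Term.equal (Term.var (Sum.inl i)) (Term.var (Sum.inl j)), fun v => by
    simp [Formula.realize_equal]⟩⟩

theorem DP.eq_const (i : ℕ) (c : V) : DP (fun v : ℕ → V => v i = c) :=
  ⟨⟨Term.equal (Term.var (Sum.inl i)) (Term.var (Sum.inr c)), fun v => by
    simp [Formula.realize_equal]⟩⟩

/-- Renaming of variables. -/
theorem DP.rename {Q : (ℕ → V) → Prop} (h : DP Q) (f : ℕ → ℕ) : DP (fun v => Q (v ∘ f)) := by
  obtain ⟨φ, hφ⟩ := h.out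
  refine ⟨⟨φ.relabel (Sum.map f id), fun v => ?_⟩⟩
  rw [Formula.realize_relabel, ← hφ]
  have : Sum.elim v id ∘ Sum.map f id = (Sum.elim (v ∘ f) id : ℕ ⊕ V → V) := by
    funext i; rcases i with n | c <;> rfl
  rw [this]

instance DF.var (i : ℕ) : DF (fun v : ℕ → V => v i) :=
  ⟨DP.eq_var 0 (i + 1)⟩

instance DF.const (c : V) : DF (fun _ : ℕ → V => c) := ⟨DP.eq_const 0 c⟩

/-- Substitution of a definable function for a variable. -/
theorem DP.subst {P : V → (ℕ → V) → Prop} (h : DP (fun v => P (v 0) (shift v)))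
    {t : (ℕ → V) → V} (ht : DF t) : DP (fun v => P (t v) v) := by
  have h1 : DP (fun v => v 0 = t (shift v)) := ht.out
  have h2 : DP (fun v => v 0 = t (shift v) ∧ P (v 0) (shift v)) := DP.and
  have h3 : DP (fun v => ∃ x, x = t v ∧ P x v) := DP.ex (P := fun x v => x = t v ∧ P x v)
  exact h3.congr (fun v => by simp)

theorem DF.rename {t : (ℕ → V) → V} (h : DF t) (f : ℕ → ℕ) : DF (fun v => t (v ∘ f)) := by
  refine ⟨?_⟩
  have := h.out.rename (fun n => Nat.casesOn n 0 (fun m => f m + 1))
  exact this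

theorem DP.comp1 {R : V → Prop} (h : DP (fun v => R (v 0)))
    {t : (ℕ → V) → V} (ht : DF t) : DP (fun v => R (t v)) :=
  DP.subst (P := fun x _ => R x) h ht

theorem DP.comp2 {R : V → V → Prop} (h : DP (fun v => R (v 0) (v 1)))
    {t s : (ℕ → V) → V} (ht : DF t) (hs : DF s) : DP (fun v => R (t v) (s v)) := by
  -- first substitute for the first variable
  have h1 : DP (fun v => R (v 0) (v 1)) := h
  have h2 : DP (fun v => R (v 0) (s (shift v))) := by
    have hs' : DF (fun v => s (shift v)) := hs.rename (fun n => n + 1)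
    refine DP.subst (P := fun y v => R (v 0) y) ?_ hs'
    exact h.rename (fun n => Nat.casesOn n 1 (fun _ => 0))
  exact DP.subst (P := fun x v => R x (s v)) h2 ht

theorem DP.comp3 {R : V → V → V → Prop} (h : DP (fun v => R (v 0) (v 1) (v 2)))
    {t s r : (ℕ → V) → V} (ht : DF t) (hs : DF s) (hr : DF r) :
    DP (fun v => R (t v) (s v) (r v)) := by
  have h2 : DP (fun v => R (v 0) (s (shift v)) (r (shift v))) := by
    have hs' : DF (fun v => s (shift v)) := hs.rename (fun n => n + 1)
    have hr' : DF (fun v => r (shift v)) := hr.rename (fun n => n + 1)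
    have h3 : DP (fun v => R (v 1) (v 0) (r (shift (shift v)))) := by
      have hr'' : DF (fun v => r (shift (shift v))) := hr.rename (fun n => n + 2)
      refine DP.subst (P := fun y v => R (v 1) (v 0) y) ?_ hr''
      exact h.rename (fun n => Nat.casesOn n 2 (fun m => Nat.casesOn m 1 (fun _ => 0)))
    exact DP.subst (P := fun y v => R (v 0) y (r (shift v))) h3 hs'
  exact DP.subst (P := fun x v => R x (s v) (r v)) h2 ht

instance DP.mem {t s : (ℕ → V) → V} [ht : DF t] [hs : DF s] : DP (fun v => t v ∈ s v) :=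
  DP.comp2 (R := fun x y => x ∈ y) (DP.mem_var 0 1) ht hs

instance DP.eq {t s : (ℕ → V) → V} [ht : DF t] [hs : DF s] : DP (fun v => t v = s v) :=
  DP.comp2 (R := fun x y => x = y) (DP.eq_var 0 1) ht hs

/-- Renaming skipping the variable `1`. -/
def skipOne : ℕ → ℕ
  | 0 => 0
  | (m + 1) => m + 2

instance DP.exu {P : V → (ℕ → V) → Prop} [h : DP (fun v => P (v 0) (shift v))] :
    DP (fun v => ∃! x, P x v) := by
  have h1 : DP (fun v => P (v 0) (shift (shift v))) :=
    DP.rename (Q := fun v => P (v 0) (shift v)) h skipOne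
  have h2 : DP (fun v => ∀ y, P y (shift v) → y = v 0) :=
    DP.all' (P := fun y v => P y (shift v) → y = v 0) DP.imp
  have h3 : DP (fun v => P (v 0) (shift v) ∧ ∀ y, P y (shift v) → y = v 0) := DP.and
  exact DP.ex (P := fun x v => P x v ∧ ∀ y, P y v → y = x)

/-- Simultaneous substitution of definable functions for the first `n` variables. -/
theorem DP.substn : ∀ {n : ℕ} {P : (Fin n → V) → (ℕ → V) → Prop},
    DP (fun v => P (fun i => v i) (fun m => v (m + n))) →
    ∀ t : Fin n → (ℕ → V) → V, (∀ i, DF (t i)) → DP (fun v => P (fun i => t i v) v)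
  | 0, P, h, t, _ => by
    refine h.congr fun v => ?_
    have : (fun i : Fin 0 => v i) = fun i => t i v := Subsingleton.elim _ _
    rw [this]; rfl
  | (n + 1), P, h, t, ht => by
    have h1 : DP (fun v => P (Fin.cons (v 0) (fun i : Fin n => shift v i))
        (fun m => shift v (m + n))) := by
      refine h.congr fun v => ?_
      have e : (fun i : Fin (n + 1) => v i) = Fin.cons (v 0) (fun i : Fin n => shift v i) := by
        funext i
        refine Fin.cases ?_ (fun j => ?_) i
        · rfl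
        · simp [shift]
      rw [e]; rfl
    have ht0 : DF (fun w => t 0 (fun m => w (m + n))) := (ht 0).rename (fun m => m + n)
    have h2 : DP (fun v => P (Fin.cons (t 0 (fun m => v (m + n))) (fun i : Fin n => v i))
        (fun m => v (m + n))) :=
      DP.subst (P := fun x w => P (Fin.cons x (fun i : Fin n => w i)) (fun m => w (m + n))) h1 ht0
    have h3 := DP.substn (P := fun y v => P (Fin.cons (t 0 v) y) v) h2 (fun i => t i.succ)
      (fun i => ht i.succ)
    refine h3.congr fun v => ?_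
    have e : (Fin.cons (t 0 v) (fun i : Fin n => t i.succ v) : Fin (n + 1) → V)
        = fun i => t i v := by
      funext i
      refine Fin.cases ?_ (fun j => ?_) i
      · rfl
      · simp
    rw [e]

theorem DP.compn {n : ℕ} {R : (Fin n → V) → Prop} (h : DP (fun v => R (fun i => v i)))
    (t : Fin n → (ℕ → V) → V) (ht : ∀ i, DF (t i)) : DP (fun v => R (fun i => t i v)) :=
  DP.substn (P := fun x _ => R x) h t ht

theorem DP.comp4 {R : V → V → V → V → Prop} (h : DP (fun v => R (v 0) (v 1) (v 2) (v 3)))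
    {a b c d : (ℕ → V) → V} (ha : DF a) (hb : DF b) (hc : DF c) (hd : DF d) :
    DP (fun v => R (a v) (b v) (c v) (d v)) :=
  DP.compn (n := 4) (R := fun x => R (x 0) (x 1) (x 2) (x 3)) h ![a, b, c, d]
    (fun i => match i with | 0 => ha | 1 => hb | 2 => hc | 3 => hd)

theorem DP.comp5 {R : V → V → V → V → V → Prop}
    (h : DP (fun v => R (v 0) (v 1) (v 2) (v 3) (v 4)))
    {a b c d e : (ℕ → V) → V} (ha : DF a) (hb : DF b) (hc : DF c) (hd : DF d) (he : DF e) :
    DP (fun v => R (a v) (b v) (c v) (d v) (e v)) :=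
  DP.compn (n := 5) (R := fun x => R (x 0) (x 1) (x 2) (x 3) (x 4)) h ![a, b, c, d, e]
    (fun i => match i with | 0 => ha | 1 => hb | 2 => hc | 3 => hd | 4 => he)

theorem DP.comp6 {R : V → V → V → V → V → V → Prop}
    (h : DP (fun v => R (v 0) (v 1) (v 2) (v 3) (v 4) (v 5)))
    {a b c d e f : (ℕ → V) → V} (ha : DF a) (hb : DF b) (hc : DF c) (hd : DF d) (he : DF e)
    (hf : DF f) :
    DP (fun v => R (a v) (b v) (c v) (d v) (e v) (f v)) :=
  DP.compn (n := 6) (R := fun x => R (x 0) (x 1) (x 2) (x 3) (x 4) (x 5)) h ![a, b, c, d, e, f]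
    (fun i => match i with | 0 => ha | 1 => hb | 2 => hc | 3 => hd | 4 => he | 5 => hf)

end

end Pool.Agent.HZF
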