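import Pool.Agent.Lib_helper12.HZF.Models

/-!
The models of the theory ZF are the structures satisfying `ModelsZF`.
-/

set_option linter.unusedSectionVars false
set_option linter.unusedVariables false

universe u

namespace Pool.Agent.HZF

open FirstOrder Language BoundedFormula

section
variable {V : Type u} [Lset.Structure V]

/-- Formulas with parameters, the parameters being values of variables. -/
theorem exists_param_nat {α : Type u} (φ : Lset.Formula α) (m : ℕ)
    (h : α → Fin m ⊕ V) (c0 : V) :
    ∃ (v : ℕ → V) (ψ : Lset.Formula ℕ), ∀ xs : Fin m → V,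
      ψ.Realize (fun k => if hk : k < m then xs ⟨k, hk⟩ else v k) ↔
      φ.Realize (fun a => Sum.elim xs id (h a)) := by
  classical
  let s := φ.freeVarFinset
  let e : s ≃ Fin s.card := s.equivFin
  let f : φ.freeVarFinset → ℕ := fun a =>
    Sum.elim (fun j : Fin m => (j : ℕ)) (fun _ => m + (e a : ℕ)) (h a.1)
  let v : ℕ → V := fun k =>
    if hk : k - m < s.card then
      Sum.elim (fun _ => c0) id (h (e.symm ⟨k - m, hk⟩).1) else c0
  refine ⟨v, BoundedFormula.restrictFreeVar φ f, fun xs => ?_⟩
  unfold Formula.Realize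
  rw [BoundedFormula.realize_restrictFreeVar (fun a => Sum.elim xs id (h a))]
  rintro ⟨a, ha⟩
  rcases hh : h a with j | c
  · have hf : f ⟨a, ha⟩ = (j : ℕ) := by simp [f, hh]
    rw [hf]
    simp
  · have hf : f ⟨a, ha⟩ = m + (e ⟨a, ha⟩ : ℕ) := by simp [f, hh]
    rw [hf]
    have h1 : m + (e ⟨a, ha⟩ : ℕ) - m = (e ⟨a, ha⟩ : ℕ) := by omega
    have h2 : m + (e ⟨a, ha⟩ : ℕ) - m < s.card := by rw [h1]; exact (e ⟨a, ha⟩).2
    have h3 : (⟨m + (e ⟨a, ha⟩ : ℕ) - m, h2⟩ : Fin s.card) = e ⟨a, ha⟩ := Fin.ext h1
    change (if hk : m + (e ⟨a, ha⟩ : ℕ) < m then xs ⟨_, hk⟩ else v (m + (e ⟨a, ha⟩ : ℕ))) = c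
    rw [dif_neg (by omega)]
    dsimp only [v]
    rw [dif_pos h2, h3, Equiv.symm_apply_apply, hh]
    rfl

theorem isZF_of_modelsZF (h : ModelsZF V) : IsZF V := by
  obtain ⟨h1, h2, h3, h4, h5, h6, h7, h8⟩ := h
  have c0 : V := h6.choose
  refine ⟨h1, h2, h3, h4, h5, h6, fun Q hQ a => ?_, fun R hR a ha => ?_⟩
  · obtain ⟨φ, hφ⟩ := hQ.out
    obtain ⟨v, ψ, hψ⟩ := exists_param_nat φ 1 (Sum.map (fun _ => 0) id) c0
    obtain ⟨b, hb⟩ := h7 ψ v a
    refine ⟨b, fun z => ?_⟩
    rw [hb z]
    refine and_congr_right fun _ => ?_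
    have e1 : (fun k => if hk : k < 1 then (fun _ : Fin 1 => z) ⟨k, hk⟩ else v k) =
        Function.update v 0 z := by
      funext k
      rcases k with _ | k
      · simp
      · simp
    have h1 := hψ (fun _ => z)
    rw [e1] at h1
    rw [h1]
    have e2 : (fun a : ℕ ⊕ V => Sum.elim (fun _ : Fin 1 => z) id
        (Sum.map (fun _ : ℕ => (0 : Fin 1)) id a)) = Sum.elim (fun _ => z) id := by
      funext a
      rcases a with a | a <;> rfl
    rw [e2]
    exact hφ (fun _ => z)
  · obtain ⟨φ, hφ⟩ := hR.out
    obtain ⟨v, ψ, hψ⟩ := exists_param_nat φ 2 (Sum.map (fun i => if i = 0 then 0 else 1) id) c0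
    have key : ∀ x y : V, ψ.Realize (Function.update (Function.update v 0 x) 1 y) ↔ R x y := by
      intro x y
      have e1 : (fun k => if hk : k < 2 then ![x, y] ⟨k, hk⟩ else v k) =
          Function.update (Function.update v 0 x) 1 y := by
        funext k
        rcases k with _ | _ | k
        · simp
        · simp
        · simp
      have h1 := hψ ![x, y]
      rw [e1] at h1
      rw [h1]
      have h2 := hφ (fun i => if i = 0 then x else y)
      have e2 : (fun a : ℕ ⊕ V => Sum.elim ![x, y] id
          (Sum.map (fun i : ℕ => if i = 0 then (0 : Fin 2) else 1) id a)) =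
          Sum.elim (fun i => if i = 0 then x else y) id := by
        funext a
        rcases a with a | a
        · by_cases ha : a = 0 <;> simp [ha]
        · rfl
      rw [e2]
      simpa using h2
    obtain ⟨b, hb⟩ := h8 ψ v a (by simpa only [key] using ha)
    exact ⟨b, by simpa only [key] using hb⟩

/-- Definability with parameters of formulas in which some variables are parameters. -/
theorem dp_formula {α : Type} (φ : Lset.Formula α) (h : α → ℕ ⊕ V) :
    DP (fun w => φ.Realize (fun a => Sum.elim w id (h a))) :=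
  ⟨⟨φ.relabel h, fun w => by rw [Formula.realize_relabel]; rfl⟩⟩

theorem modelsZF_of_isZF [IsZF V] : ModelsZF V := by
  refine ⟨IsZF.ext, IsZF.found, IsZF.pair, IsZF.union, IsZF.power, IsZF.infinity,
    fun φ v a => ?_, fun φ v a ha => ?_⟩
  · have hD : DP (fun w : ℕ → V => φ.Realize (Function.update v 0 (w 0))) := by
      refine (dp_formula φ (fun k => if k = 0 then Sum.inl 0 else Sum.inr (v k))).congr
        fun w => ?_
      have : (fun a => Sum.elim w id (if a = 0 then Sum.inl 0 else Sum.inr (v a))) =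
          Function.update v 0 (w 0) := by
        funext k
        rcases k with _ | k <;> simp
      rw [this]
    exact IsZF.sep (fun z => φ.Realize (Function.update v 0 z)) hD a
  · have hD : DP (fun w : ℕ → V => φ.Realize
        (Function.update (Function.update v 0 (w 0)) 1 (w 1))) := by
      refine (dp_formula φ (fun k => if k = 0 then Sum.inl 0 else if k = 1 then Sum.inl 1 else
        Sum.inr (v k))).congr fun w => ?_
      have : (fun a => Sum.elim w id (if a = 0 then Sum.inl 0 else if a = 1 then Sum.inl 1 else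
          Sum.inr (v a))) = Function.update (Function.update v 0 (w 0)) 1 (w 1) := by
        funext k
        rcases k with _ | _ | k <;> simp
      rw [this]
    exact IsZF.repl (fun x y => φ.Realize (Function.update (Function.update v 0 x) 1 y)) hD a ha

theorem models_of_isZF [IsZF V] : V ⊨ ZF := by
  rw [Theory.model_iff]
  rintro S ((hS | ⟨n, φ, rfl⟩) | ⟨n, φ, rfl⟩)
  · simp only [Set.mem_insert_iff, Set.mem_singleton_iff] at hS
    rcases hS with rfl | rfl | rfl | rfl | rfl | rfl
    · exact realize_axExt.2 IsZF.ext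
    · exact realize_axFound.2 IsZF.found
    · exact realize_axPair.2 IsZF.pair
    · exact realize_axUnion.2 IsZF.union
    · exact realize_axPower.2 IsZF.power
    · rw [realize_axInf]
      obtain ⟨x, ⟨e, he, he'⟩, hx⟩ := IsZF.infinity (V := V)
      exact ⟨x, ⟨e, he, he'⟩, hx⟩
  · rw [realize_axSep]
    intro p a
    have hD : DP (fun w : ℕ → V => φ.Realize default (Fin.snoc p (w 0))) := by
      refine (dp_formula φ.toFormula (Sum.elim Empty.elim
        (fun i => if h : (i : ℕ) < n then Sum.inr (p ⟨i, h⟩) else Sum.inl 0))).congr fun w => ?_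
      rw [BoundedFormula.realize_toFormula]
      have e1 : ((fun a => Sum.elim w id (Sum.elim (Empty.elim : Empty → ℕ ⊕ V)
          (fun i : Fin (n + 1) => if h : (i : ℕ) < n then Sum.inr (p ⟨i, h⟩) else Sum.inl 0) a)) ∘
          Sum.inr) = (Fin.snoc p (w 0) : Fin (n + 1) → V) := by
        funext i
        refine Fin.lastCases ?_ (fun j => ?_) i
        · simp
        · simp
      have e2 : ((fun a => Sum.elim w id (Sum.elim (Empty.elim : Empty → ℕ ⊕ V)
          (fun i : Fin (n + 1) => if h : (i : ℕ) < n then Sum.inr (p ⟨i, h⟩) else Sum.inl 0) a)) ∘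
          Sum.inl) = (default : Empty → V) := Subsingleton.elim _ _
      rw [e1, e2]
    exact IsZF.sep (fun z => φ.Realize default (Fin.snoc p z)) hD a
  · rw [realize_axRepl]
    intro p a ha
    have hD : DP (fun w : ℕ → V => φ.Realize default
        (Fin.snoc (Fin.snoc p (w 0) : Fin (n + 1) → V) (w 1))) := by
      refine (dp_formula φ.toFormula (Sum.elim Empty.elim
        (fun i => if h : (i : ℕ) < n then Sum.inr (p ⟨i, h⟩) else
          if (i : ℕ) = n then Sum.inl 0 else Sum.inl 1))).congr fun w => ?_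
      rw [BoundedFormula.realize_toFormula]
      have e1 : ((fun a => Sum.elim w id (Sum.elim (Empty.elim : Empty → ℕ ⊕ V)
          (fun i : Fin (n + 2) => if h : (i : ℕ) < n then Sum.inr (p ⟨i, h⟩) else
          if (i : ℕ) = n then Sum.inl 0 else Sum.inl 1) a)) ∘ Sum.inr) =
          (Fin.snoc (Fin.snoc p (w 0) : Fin (n + 1) → V) (w 1) : Fin (n + 2) → V) := by
        funext i
        refine Fin.lastCases ?_ (fun j => ?_) i
        · simp
        · refine Fin.lastCases ?_ (fun k => ?_) j
          · simp
          · simp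
      have e2 : ((fun a => Sum.elim w id (Sum.elim (Empty.elim : Empty → ℕ ⊕ V)
          (fun i : Fin (n + 2) => if h : (i : ℕ) < n then Sum.inr (p ⟨i, h⟩) else
          if (i : ℕ) = n then Sum.inl 0 else Sum.inl 1) a)) ∘ Sum.inl) =
          (default : Empty → V) := Subsingleton.elim _ _
      rw [e1, e2]
    obtain ⟨b, hb⟩ := IsZF.repl (fun x y => φ.Realize default
      (Fin.snoc (Fin.snoc p x : Fin (n + 1) → V) y)) hD a (by
        intro x hx
        obtain ⟨z, hz⟩ := ha x hx
        exact ⟨z, (hz z).2 rfl, fun y hy => (hz y).1 hy⟩)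
    refine ⟨b, fun x hx => ?_⟩
    obtain ⟨z, hz⟩ := ha x hx
    exact ⟨z, (hb z).2 ⟨x, hx, (hz z).2 rfl⟩, (hz z).2 rfl⟩

theorem models_iff [Nonempty V] : V ⊨ ZF ↔ ModelsZF V := by
  constructor
  · intro h
    have := isZF_of_models h
    exact modelsZF_of_isZF
  · intro h
    have := isZF_of_modelsZF h
    exact models_of_isZF

end

end Pool.Agent.HZF
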