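import Pool.Agent.Lib_helper12.HZF.Models

/-!
The theory ZF is satisfiable: the sets of Mathlib form a model.
-/

set_option linter.unusedSectionVars false
set_option linter.unusedVariables false

namespace Pool.Agent.HZF

open FirstOrder Language

/-- A copy of the type of sets of Mathlib. -/
structure ZFM : Type 1 where
  val : ZFSet.{0}

theorem ZFM.ext' {a b : ZFM} (h : a.val = b.val) : a = b := by
  cases a; cases b; simpa using h

/-- The interpretation of the relation symbol. -/
def zRel : {n : ℕ} → MemRel n → (Fin n → ZFM) → Prop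
  | _, MemRel.mem, x => (x 0).val ∈ (x 1).val

instance zfmStr : Lset.Structure ZFM where
  funMap := fun f => Empty.elim f
  RelMap := fun R x => zRel R x

instance : Nonempty ZFM := ⟨⟨∅⟩⟩

theorem zmem {a b : ZFM} : a ∈ b ↔ a.val ∈ b.val := Iff.rfl

theorem zfm_models : ZFM ⊨ ZF := by
  rw [Theory.model_iff]
  rintro S ((hS | ⟨n, φ, rfl⟩) | ⟨n, φ, rfl⟩)
  · simp only [Set.mem_insert_iff, Set.mem_singleton_iff] at hS
    rcases hS with rfl | rfl | rfl | rfl | rfl | rfl
    · rw [realize_axExt]
      intro x y h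
      exact ZFM.ext' (ZFSet.ext fun z => h ⟨z⟩)
    · rw [realize_axFound]
      rintro x ⟨y, hy⟩
      by_contra hcon
      have : ∀ z : ZFSet.{0}, z ∉ x.val := by
        intro z
        refine ZFSet.inductionOn z fun z ih hz => ?_
        exact hcon ⟨⟨z⟩, hz, fun w hw hwz => ih w.val hwz hw⟩
      exact this y.val hy
    · rw [realize_axPair]
      intro x y
      refine ⟨⟨{x.val, y.val}⟩, fun z => ?_⟩
      rw [zmem, ZFSet.mem_pair]
      constructor
      · rintro (h | h)
        · exact Or.inl (ZFM.ext' h)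
        · exact Or.inr (ZFM.ext' h)
      · rintro (h | h)
        · exact Or.inl (congrArg ZFM.val h)
        · exact Or.inr (congrArg ZFM.val h)
    · rw [realize_axUnion]
      intro x
      refine ⟨⟨ZFSet.sUnion x.val⟩, fun w => ?_⟩
      rw [zmem, ZFSet.mem_sUnion]
      constructor
      · rintro ⟨z, h1, h2⟩
        exact ⟨⟨z⟩, h1, h2⟩
      · rintro ⟨z, h1, h2⟩
        exact ⟨z.val, h1, h2⟩
    · rw [realize_axPower]
      intro x
      refine ⟨⟨ZFSet.powerset x.val⟩, fun w => ?_⟩
      rw [zmem, ZFSet.mem_powerset]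
      constructor
      · intro h z hz
        exact h hz
      · intro h z hz
        exact h ⟨z⟩ hz
    · rw [realize_axInf]
      refine ⟨⟨ZFSet.omega⟩, ⟨⟨∅⟩, ZFSet.omega_zero, fun z => ZFSet.notMem_empty _⟩,
        fun y hy => ⟨⟨insert y.val y.val⟩, ZFSet.omega_succ hy, fun z => ?_⟩⟩
      rw [zmem, ZFSet.mem_insert_iff]
      constructor
      · rintro (h | h)
        · exact Or.inr (ZFM.ext' h)
        · exact Or.inl h
      · rintro (h | h)
        · exact Or.inr h
        · exact Or.inl (congrArg ZFM.val h)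
  · rw [realize_axSep]
    intro p a
    refine ⟨⟨ZFSet.sep (fun z => φ.Realize default (Fin.snoc p (⟨z⟩ : ZFM))) a.val⟩,
      fun z => ?_⟩
    rw [zmem, ZFSet.mem_sep]
    rfl
  · rw [realize_axRepl]
    intro p a h
    classical
    let F : ZFSet.{0} → ZFSet.{0} := fun x =>
      if hx : x ∈ a.val then (h ⟨x⟩ hx).choose.val else ∅
    refine ⟨⟨@ZFSet.image F (Classical.allZFSetDefinable _) a.val⟩, fun x hx => ?_⟩
    refine ⟨(h x hx).choose, ?_, ((h x hx).choose_spec _).2 rfl⟩
    rw [zmem, @ZFSet.mem_image F (Classical.allZFSetDefinable _)]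
    refine ⟨x.val, hx, ?_⟩
    have hx' : x.val ∈ a.val := hx
    simp only [F]
    rw [dif_pos hx']

theorem zf_satisfiable : ZF.IsSatisfiable := by
  have := zfm_models
  exact Theory.Model.isSatisfiable ZFM

end Pool.Agent.HZF
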