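import Pool.Agent.Lib_helper12.HZF.SOEval
import Pool.Agent.Lib_helper12.HZF.Abs2

/-!
Isomorphism invariance: structures may be transported along bijections, and the sentences of
`L(I)` are preserved.
-/

set_option linter.unusedSectionVars false
set_option linter.unusedVariables false

universe u

namespace Pool.Agent.HZF

open FirstOrder Language

section
variable {V : Type u} [Lset.Structure V] [IsZF V]

/-! ### Bijections -/

theorem opair_mem_pp {x y B C : V} (hx : x ∈ B) (hy : y ∈ C) :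
    opair x y ∈ pow (pow (un B C)) := by
  rw [mem_pow]
  intro z hz
  rw [mem_pow]
  intro w hw
  rw [mem_un]
  rcases mem_upair.1 hz with rfl | rfl
  · rw [mem_sing] at hw; subst hw; exact Or.inl hx
  · rcases mem_upair.1 hw with rfl | rfl
    · exact Or.inl hx
    · exact Or.inr hy

/-- Composition of functions. -/
theorem exists_comp {s f n B C : V} (hs : IsFun s n B) (hf : IsFun f B C) :
    ∃ s', IsFun s' n C ∧ ∀ l c, opair l c ∈ s' ↔ ∃ a, opair l a ∈ s ∧ opair a c ∈ f := by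
  have key : ∀ l c, opair l c ∈ sep (fun p => ∃ l a c : V, opair l a ∈ s ∧ opair a c ∈ f ∧
      p = opair l c) (pow (pow (un n C))) ↔ ∃ a, opair l a ∈ s ∧ opair a c ∈ f := by
    intro l c
    rw [mem_sep]
    constructor
    · rintro ⟨_, l', a, c', h1, h2, e⟩
      rw [opair_inj] at e
      obtain ⟨rfl, rfl⟩ := e
      exact ⟨a, h1, h2⟩
    · rintro ⟨a, h1, h2⟩
      exact ⟨opair_mem_pp (hs.dom h1) (hf.ran h2), l, a, c, h1, h2, rfl⟩
  refine ⟨_, isFun_iff.2 ⟨fun p hp => ?_, fun l hl => ?_⟩, key⟩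
  · obtain ⟨_, l, a, c, h1, h2, rfl⟩ := mem_sep.1 hp
    exact ⟨l, hs.dom h1, c, hf.ran h2, rfl⟩
  · obtain ⟨a, ha⟩ := hs.exists hl
    obtain ⟨c, hc⟩ := hf.exists (hs.ran ha)
    refine ⟨c, (key l c).2 ⟨a, ha, hc⟩, fun c' hc' => ?_⟩
    obtain ⟨a', ha', hc''⟩ := (key l c').1 hc'
    rw [hs.uniq ha' ha] at hc''
    exact hf.uniq hc'' hc

theorem IsBij.trans {f h B C D : V} (hf : IsBij f B C) (hh : IsBij h C D) :
    ∃ k, IsBij k B D := by
  obtain ⟨k, hk, hk'⟩ := exists_comp hf.1 hh.1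
  refine ⟨k, hk, fun d hd => ?_⟩
  obtain ⟨c, hc, huc⟩ := hh.2 d hd
  rw [oMem_iff] at hc
  obtain ⟨b, hb, hub⟩ := hf.2 c (hh.1.dom hc)
  rw [oMem_iff] at hb
  refine ⟨b, oMem_iff.2 ((hk' b d).2 ⟨c, hb, hc⟩), fun b' hb' => ?_⟩
  obtain ⟨c', h1, h2⟩ := (hk' b' d).1 (oMem_iff.1 hb')
  rw [huc c' (oMem_iff.2 h2)] at h1
  exact hub b' (oMem_iff.2 h1)

theorem Equinum.symm {B C : V} (h : Equinum B C) : Equinum C B := by
  obtain ⟨f, hf⟩ := h
  obtain ⟨g, hg, _⟩ := hf.symm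
  exact ⟨g, hg⟩

theorem Equinum.trans {B C D : V} (h : Equinum B C) (h' : Equinum C D) : Equinum B D := by
  obtain ⟨f, hf⟩ := h
  obtain ⟨g, hg⟩ := h'
  exact hf.trans hg

theorem Equinum.refl (B : V) : Equinum B B := by
  have key : ∀ x y : V, opair x y ∈
      sep (fun p => ∃ x : V, p = opair x x) (pow (pow (un B B))) ↔ x ∈ B ∧ x = y := by
    intro x y
    rw [mem_sep]
    constructor
    · rintro ⟨h, z, e⟩
      rw [opair_inj] at e
      obtain ⟨e1, e2⟩ := e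
      refine ⟨?_, e1.trans e2.symm⟩
      rw [mem_pow] at h
      have := mem_pow.1 (h (sing x) (mem_upair.2 (Or.inl rfl))) x (mem_sing.2 rfl)
      rcases mem_un.1 this with h | h <;> exact h
    · rintro ⟨h, rfl⟩
      exact ⟨opair_mem_pp h h, x, rfl⟩
  refine ⟨sep (fun p => ∃ x : V, p = opair x x) (pow (pow (un B B))), ?_, ?_⟩
  · rw [isFun_iff]
    refine ⟨fun p hp => ?_, fun x hx => ?_⟩
    · obtain ⟨_, x, rfl⟩ := mem_sep.1 hp
      have := ((key x x).1 hp).1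
      exact ⟨x, this, x, this, rfl⟩
    · exact ⟨x, (key x x).2 ⟨hx, rfl⟩, fun y hy => ((key x y).1 hy).2.symm⟩
  · intro x hx
    exact ⟨x, oMem_iff.2 ((key x x).2 ⟨hx, rfl⟩),
      fun y hy => ((key y x).1 (oMem_iff.1 hy)).2⟩

/-- A pair of mutually inverse bijections. -/
def BP (f g Y U : V) : Prop :=
  IsBij f Y U ∧ IsBij g U Y ∧ ∀ x y, opair x y ∈ f ↔ opair y x ∈ g

theorem BP.symm {f g Y U : V} (h : BP f g Y U) : BP g f U Y :=
  ⟨h.2.1, h.1, fun x y => (h.2.2 y x).symm⟩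

theorem BP.inj {f g Y U x x' y : V} (h : BP f g Y U) (h1 : opair x y ∈ f)
    (h2 : opair x' y ∈ f) : x = x' :=
  h.2.1.1.uniq ((h.2.2 _ _).1 h1) ((h.2.2 _ _).1 h2)

/-- A bijection maps subsets to equinumerous subsets. -/
theorem BP.equinum {f g Y U B C : V} (h : BP f g Y U)
    (hB : ∀ x ∈ B, ∃ y ∈ C, opair x y ∈ f) (hC : ∀ y ∈ C, ∃ x ∈ B, opair x y ∈ f) :
    Equinum B C := by
  have key : ∀ x y, opair x y ∈ sep (fun p => ∃ x y : V, x ∈ B ∧ p = opair x y) f ↔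
      x ∈ B ∧ opair x y ∈ f := by
    intro x y
    rw [mem_sep]
    constructor
    · rintro ⟨h, x', y', hx', e⟩
      rw [opair_inj] at e
      obtain ⟨rfl, rfl⟩ := e
      exact ⟨hx', h⟩
    · rintro ⟨h1, h2⟩
      exact ⟨h2, x, y, h1, rfl⟩
  refine ⟨sep (fun p => ∃ x y : V, x ∈ B ∧ p = opair x y) f, ?_, fun y hy => ?_⟩
  · rw [isFun_iff]
    refine ⟨fun p hp => ?_, fun x hx => ?_⟩
    · obtain ⟨hp, x, y, hx, rfl⟩ := mem_sep.1 hp
      obtain ⟨y', hy', hxy'⟩ := hB x hx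
      rw [h.1.1.uniq hxy' hp] at hy'
      exact ⟨x, hx, y, hy', rfl⟩
    · obtain ⟨y, hy, hxy⟩ := hB x hx
      exact ⟨y, (key x y).2 ⟨hx, hxy⟩, fun z hz => h.1.1.uniq ((key x z).1 hz).2 hxy⟩
  · obtain ⟨x, hx, hxy⟩ := hC y hy
    refine ⟨x, oMem_iff.2 ((key x y).2 ⟨hx, hxy⟩), fun z hz => ?_⟩
    exact h.inj ((key z y).1 (oMem_iff.1 hz)).2 hxy

/-! ### Finite sequences -/

/-- `s' = f ∘ s`, for a bijection `f` and `s : n → Y`. -/
def Push (f Y U n s s' : V) : Prop :=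
  IsFun s n Y ∧ IsFun s' n U ∧ ∀ l a b, opair a b ∈ f → (opair l a ∈ s ↔ opair l b ∈ s')

instance {t1 t2 t3 t4 t5 t6 : (ℕ → V) → V} [h1 : DF t1] [h2 : DF t2] [h3 : DF t3] [h4 : DF t4]
    [h5 : DF t5] [h6 : DF t6] :
    DP (fun v => Push (t1 v) (t2 v) (t3 v) (t4 v) (t5 v) (t6 v)) :=
  DP.comp6 (by unfold Push; infer_instance) h1 h2 h3 h4 h5 h6

theorem Push.symm {f g Y U n s s' : V} (h : BP f g Y U) (hp : Push f Y U n s s') :
    Push g U Y n s' s :=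
  ⟨hp.2.1, hp.1, fun l a b hab => (hp.2.2 l b a ((h.2.2 b a).2 hab)).symm⟩

theorem exists_push {f g Y U n s : V} (h : BP f g Y U) (hs : IsFun s n Y) :
    ∃ s', Push f Y U n s s' := by
  obtain ⟨s', hs', hs''⟩ := exists_comp hs h.1.1
  refine ⟨s', hs, hs', fun l a b hab => ?_⟩
  rw [hs'']
  constructor
  · intro hl
    exact ⟨a, hl, hab⟩
  · rintro ⟨a', h1, h2⟩
    rw [h.inj hab h2]
    exact h1

theorem exists_push' {f g Y U n s' : V} (h : BP f g Y U) (hs : IsFun s' n U) :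
    ∃ s, Push f Y U n s s' := by
  obtain ⟨s, hs⟩ := exists_push h.symm hs
  exact ⟨s, hs.symm h.symm⟩

theorem Push.uniq {f g Y U n m s s' s'' : V} (h : BP f g Y U) (hp : Push f Y U n s s')
    (hp' : Push f Y U m s s'') : s' = s'' := by
  have hnm := isFun_dom_uniq hp.1 hp'.1
  subst hnm
  refine hp.2.1.ext hp'.2.1 fun l b hb => ?_
  obtain ⟨a, ha⟩ := h.2.1.1.exists (hp.2.1.ran hb)
  have hab := (h.2.2 a b).2 ha
  exact (hp'.2.2 l a b hab).1 ((hp.2.2 l a b hab).2 hb)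

theorem Push.uniq' {f g Y U n m s s1 s' : V} (h : BP f g Y U) (hp : Push f Y U n s s')
    (hp' : Push f Y U m s1 s') : s = s1 :=
  (hp.symm h).uniq h.symm (hp'.symm h)

theorem Push.ext {f g Y U n s s' a b : V} (h : BP f g Y U) (hp : Push f Y U n s s')
    (hab : opair a b ∈ f) :
    Push f Y U (succ n) (un s (sing (opair n a))) (un s' (sing (opair n b))) := by
  refine ⟨isFun_ext hp.1 (h.1.1.dom hab), isFun_ext hp.2.1 (h.1.1.ran hab), fun l c d hcd => ?_⟩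
  rw [mem_un, mem_un, mem_sing, mem_sing, opair_inj, opair_inj, hp.2.2 l c d hcd]
  refine or_congr_right (and_congr_right fun _ => ?_)
  constructor
  · rintro rfl
    exact h.1.1.uniq hcd hab
  · rintro rfl
    exact h.inj hcd hab

theorem isComp_isFun {t s v n k Y : V} (hs : IsFun s n Y) (hv : IsFun v k n)
    (h : IsComp t s v) : IsFun t k Y ∧ ∀ l a, opair l a ∈ t ↔ ∃ j, opair l j ∈ v ∧ opair j a ∈ s := by
  have key : ∀ l a, opair l a ∈ t ↔ ∃ j, opair l j ∈ v ∧ opair j a ∈ s := by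
    intro l a
    constructor
    · intro hp
      obtain ⟨l', j, a', e, h1, h2⟩ := h.1 _ hp
      rw [isOpair_iff, opair_inj] at e
      obtain ⟨rfl, rfl⟩ := e
      exact ⟨j, oMem_iff.1 h1, oMem_iff.1 h2⟩
    · rintro ⟨j, h1, h2⟩
      obtain ⟨a', h3, h4⟩ := h.2 l j (oMem_iff.2 h1)
      rw [oMem_iff] at h3 h4
      rw [hs.uniq h2 h3]
      exact h4
  refine ⟨isFun_iff.2 ⟨fun p hp => ?_, fun l hl => ?_⟩, key⟩
  · obtain ⟨l, j, a, e, h1, h2⟩ := h.1 p hp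
    exact ⟨l, hv.dom (oMem_iff.1 h1), a, hs.ran (oMem_iff.1 h2), isOpair_iff.1 e⟩
  · obtain ⟨j, hj⟩ := hv.exists hl
    obtain ⟨a, ha⟩ := hs.exists (hv.ran hj)
    refine ⟨a, (key l a).2 ⟨j, hj, ha⟩, fun a' ha' => ?_⟩
    obtain ⟨j', h1, h2⟩ := (key l a').1 ha'
    rw [hv.uniq h1 hj] at h2
    exact hs.uniq h2 ha

theorem isComp_push {f g Y U n k s s' t t' v : V} (h : BP f g Y U) (hp : Push f Y U n s s')
    (hv : IsFun v k n) (ht : Push f Y U k t t') (hc : IsComp t s v) : IsComp t' s' v := by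
  obtain ⟨_, key⟩ := isComp_isFun hp.1 hv hc
  constructor
  · intro p hpt
    obtain ⟨l, b, hl, hb, rfl⟩ := ht.2.1.isPair hpt
    obtain ⟨a, ha⟩ := h.2.1.1.exists hb
    have hab := (h.2.2 a b).2 ha
    have h1 := (ht.2.2 l a b hab).2 hpt
    obtain ⟨j, h2, h3⟩ := (key l a).1 h1
    exact ⟨l, j, b, isOpair_iff.2 rfl, oMem_iff.2 h2, oMem_iff.2 ((hp.2.2 j a b hab).1 h3)⟩
  · intro l j hlj
    rw [oMem_iff] at hlj
    obtain ⟨b, hb⟩ := hp.2.1.exists (hv.ran hlj)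
    obtain ⟨a, ha⟩ := h.2.1.1.exists (hp.2.1.ran hb)
    have hab := (h.2.2 a b).2 ha
    refine ⟨b, oMem_iff.2 hb, oMem_iff.2 ?_⟩
    exact (ht.2.2 l a b hab).1 ((key l a).2 ⟨j, hlj, (hp.2.2 j a b hab).2 hb⟩)

/-! ### Transfer of the satisfaction relation -/

theorem liForm_at {G g n : V} (hG : LIForm G) (h : OMem g n G) :
    IsNat n ∧
    ((∃ i j, IsCode2 0 g i j ∧ i ∈ n ∧ j ∈ n) ∨
     (∃ i v k, IsCode2 1 g i v ∧ IsNat i ∧ IsNat k ∧ IsFun v k n) ∨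
     (∃ a b, IsCode2 2 g a b ∧ OMem a n G ∧ OMem b n G) ∨
     (∃ a m, IsCode1 3 g a ∧ IsSucc m n ∧ OMem a m G) ∨
     (∃ a b m, IsCode2 4 g a b ∧ IsSucc m n ∧ OMem a m G ∧ OMem b m G)) := by
  obtain ⟨q, hq, hqg⟩ := h
  obtain ⟨g', n', hq', hn, hcases⟩ := hG q hq
  rw [isOpair_iff] at hqg hq'
  rw [hqg, opair_inj] at hq'
  obtain ⟨rfl, rfl⟩ := hq'
  exact ⟨hn, hcases⟩

theorem liForm_rel {G g n i v : V} (hG : LIForm G) (h : OMem g n G) (hc : IsCode2 1 g i v) :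
    IsNat i ∧ ∃ k, IsNat k ∧ IsFun v k n := by
  have := (liForm_at hG h).2
  rw [isCode2_iff'] at hc
  subst hc
  simp [isCode1_iff', isCode2_iff', opair_inj, num_inj] at this
  exact this

theorem liForm_nand {G g n a b : V} (hG : LIForm G) (h : OMem g n G) (hc : IsCode2 2 g a b) :
    OMem a n G ∧ OMem b n G := by
  have := (liForm_at hG h).2
  rw [isCode2_iff'] at hc
  subst hc
  simpa [isCode1_iff', isCode2_iff', opair_inj, num_inj] using this

theorem liForm_all {G g n a : V} (hG : LIForm G) (h : OMem g n G) (hc : IsCode1 3 g a) :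
    OMem a (succ n) G := by
  have := (liForm_at hG h).2
  rw [isCode1_iff'] at hc
  subst hc
  simpa [isCode1_iff', isCode2_iff', opair_inj, num_inj, isSucc_iff] using this

theorem liForm_eqc {G g n a b : V} (hG : LIForm G) (h : OMem g n G) (hc : IsCode2 4 g a b) :
    OMem a (succ n) G ∧ OMem b (succ n) G := by
  have := (liForm_at hG h).2
  rw [isCode2_iff'] at hc
  subst hc
  simpa [isCode1_iff', isCode2_iff', opair_inj, num_inj, isSucc_iff] using this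

/-- The set of the `⟨i, f ∘ t⟩`, for `⟨i, t⟩ ∈ A` with `t` a finite sequence. -/
noncomputable def pushSet (f Y U A : V) : V :=
  sep (fun p => ∃ i k t t' : V, p = opair i t' ∧ IsNat k ∧ opair i t ∈ A ∧ Push f Y U k t t') U

theorem mem_pushSet {f g Y U A i k t t' : V} (h : BP f g Y U) (hU : IsLim U) (hi : i ∈ U)
    (hk : IsNat k) (hp : Push f Y U k t t') :
    opair i t ∈ A ↔ opair i t' ∈ pushSet f Y U A := by
  unfold pushSet
  rw [mem_sep]
  constructor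
  · intro hA
    exact ⟨hU.opair hi (hU.fun_mem (mem_omega.2 hk) t' hp.2.1), i, k, t, t', rfl, hk, hA, hp⟩
  · rintro ⟨_, i1, k1, t1, t1', e, hk1, hA, hp1⟩
    rw [opair_inj] at e
    obtain ⟨rfl, rfl⟩ := e
    rw [hp.uniq' h hp1]
    exact hA

theorem isDefSet_push {f g Y U W W' a s s' n B B' : V} (h : BP f g Y U)
    (hs : Push f Y U n s s')
    (hW : ∀ s s', Push f Y U (succ n) s s' → (opair a s ∈ W ↔ opair a s' ∈ W'))
    (hB : IsDefSet Y W a s n B) (hB' : IsDefSet U W' a s' n B') : Equinum B B' := by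
  refine h.equinum (fun x hx => ?_) (fun y hy => ?_)
  · obtain ⟨hxY, s1, h1, h2⟩ := (hB x).1 hx
    obtain ⟨y, hy⟩ := h.1.1.exists hxY
    refine ⟨y, (hB' y).2 ⟨h.1.1.ran hy, un s' (sing (opair n y)), isExt_iff.2 rfl, ?_⟩, hy⟩
    rw [isExt_iff.1 h1, oMem_iff, hW _ _ (hs.ext h hy)] at h2
    exact oMem_iff.2 h2
  · obtain ⟨hyU, s1, h1, h2⟩ := (hB' y).1 hy
    obtain ⟨x, hx⟩ := h.2.1.1.exists hyU
    rw [← h.2.2] at hx
    refine ⟨x, (hB x).2 ⟨h.1.1.dom hx, un s (sing (opair n x)), isExt_iff.2 rfl, ?_⟩, hx⟩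
    rw [isExt_iff.1 h1, oMem_iff, ← hW _ _ (hs.ext h hx)] at h2
    exact oMem_iff.2 h2

theorem exists_defSet (X W a s n : V) : ∃ B, IsDefSet X W a s n B :=
  ⟨sep (fun x => ∃ s', IsExt s' s n x ∧ OMem a s' W) X, fun x => mem_sep⟩

theorem liClause_push {f g Y U A A' G W W' φ n s s' : V} (h : BP f g Y U) (hG : LIForm G)
    (hA : ∀ i k t t', IsNat i → IsNat k → Push f Y U k t t' →
      (opair i t ∈ A ↔ opair i t' ∈ A'))
    (hW : ∀ a m s s', OMem a m G → Push f Y U m s s' →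
      (opair a s ∈ W ↔ opair a s' ∈ W'))
    (hφ : OMem φ n G) (hs : Push f Y U n s s') (hc : LIClause Y A W φ n s) :
    LIClause U A' W' φ n s' := by
  rcases hc with ⟨i, j, x, h1, h2, h3⟩ | ⟨i, v, t, h1, h2, h3⟩ | ⟨a, b, h1, h2⟩ |
    ⟨a, h1, h2⟩ | ⟨a, b, h1, B, C, h2, h3, h4⟩
  · rw [oMem_iff] at h2 h3
    obtain ⟨y, hy⟩ := h.1.1.exists (hs.1.ran h2)
    exact Or.inl ⟨i, j, y, h1, oMem_iff.2 ((hs.2.2 i x y hy).1 h2),
      oMem_iff.2 ((hs.2.2 j x y hy).1 h3)⟩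
  · obtain ⟨hi, k, hk, hv⟩ := liForm_rel hG hφ h1
    have ht := (isComp_isFun hs.1 hv h2).1
    obtain ⟨t', ht'⟩ := exists_push h ht
    refine Or.inr (Or.inl ⟨i, v, t', h1, isComp_push h hs hv ht' h2, ?_⟩)
    rw [oMem_iff] at h3 ⊢
    exact (hA i k t t' hi hk ht').1 h3
  · obtain ⟨ha, hb⟩ := liForm_nand hG hφ h1
    refine Or.inr (Or.inr (Or.inl ⟨a, b, h1, ?_⟩))
    rw [oMem_iff, oMem_iff] at h2 ⊢
    rwa [hW a n s s' ha hs, hW b n s s' hb hs] at h2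
  · have ha := liForm_all hG hφ h1
    refine Or.inr (Or.inr (Or.inr (Or.inl ⟨a, h1, fun y hy => ?_⟩)))
    obtain ⟨x, hx⟩ := h.2.1.1.exists hy
    rw [← h.2.2] at hx
    obtain ⟨s1, h3, h4⟩ := h2 x (h.1.1.dom hx)
    refine ⟨un s' (sing (opair n y)), isExt_iff.2 rfl, ?_⟩
    rw [isExt_iff.1 h3, oMem_iff, hW a _ _ _ ha (hs.ext h hx)] at h4
    exact oMem_iff.2 h4
  · obtain ⟨ha, hb⟩ := liForm_eqc hG hφ h1
    obtain ⟨B', hB'⟩ := exists_defSet U W' a s' n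
    obtain ⟨C', hC'⟩ := exists_defSet U W' b s' n
    refine Or.inr (Or.inr (Or.inr (Or.inr ⟨a, b, h1, B', C', hB', hC', ?_⟩)))
    have e1 := isDefSet_push h hs (fun s s' => hW a _ s s' ha) h2 hB'
    have e2 := isDefSet_push h hs (fun s s' => hW b _ s s' hb) h3 hC'
    exact (e1.symm.trans h4).trans e2

/-- Models of `L(I)`-sentences can be transported to limit levels. -/
theorem liModel_push {f Y U φ : V} (hf : IsBij f Y U) (hU : IsLim U) (hm : LIModel Y φ) :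
    LIModel U φ := by
  obtain ⟨g, hg, hfg⟩ := hf.symm
  have h : BP f g Y U := ⟨hf, hg, hfg⟩
  obtain ⟨A, G, W, e, hA, hG, he, hφ, hW, hφW⟩ := hm
  have hAA : ∀ i k t t', IsNat i → IsNat k → Push f Y U k t t' →
      (opair i t ∈ A ↔ opair i t' ∈ pushSet f Y U A) := fun i k t t' hi hk hp =>
    mem_pushSet h hU (hU.nat_mem (mem_omega.2 hi)) hk hp
  have hWW : ∀ a m s s', OMem a m G → Push f Y U m s s' →
      (opair a s ∈ W ↔ opair a s' ∈ pushSet f Y U W) := fun a m s s' ha hp =>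
    mem_pushSet h hU (liForm_mem hU hG a m ha) (liForm_at hG ha).1 hp
  refine ⟨pushSet f Y U A, G, pushSet f Y U W, e, ?_, hG, he, hφ, ?_, ?_⟩
  · intro p hp
    obtain ⟨_, i, k, t, t', rfl, hk, hit, hpt⟩ := mem_sep.1 hp
    obtain ⟨i1, t1, k1, e1, hi1, hk1, _⟩ := hA _ hit
    rw [isOpair_iff, opair_inj] at e1
    obtain ⟨rfl, rfl⟩ := e1
    exact ⟨i, t', k, isOpair_iff.2 rfl, hi1, hk, hpt.2.1⟩
  · intro φ n s' hφ hs'
    obtain ⟨s, hs⟩ := exists_push' h hs'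
    rw [oMem_iff, ← hWW φ n s s' hφ hs, ← oMem_iff, hW φ n s hφ hs.1]
    constructor
    · exact liClause_push h hG hAA hWW hφ hs
    · refine liClause_push h.symm hG ?_ ?_ hφ (hs.symm h)
      · intro i k t t' hi hk hp
        exact (hAA i k t' t hi hk (hp.symm h.symm)).symm
      · intro a m s s' ha hp
        exact (hWW a m s' s ha (hp.symm h.symm)).symm
  · rw [oMem_iff] at hφW ⊢
    refine (hWW φ e e e hφ ⟨?_, ?_, fun l a b _ => ?_⟩).1 hφW
    · rw [isEmp_iff.1 he, isFun_emp]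
    · rw [isEmp_iff.1 he, isFun_emp]
    · exact ⟨fun h => absurd h (he _), fun h => absurd h (he _)⟩

end

end Pool.Agent.HZF
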