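import Pool.Agent.Lib_helper12.HZF.Main
import Pool.Agent.Lib_helper12.HZF.Models2
import Pool.Agent.Lib_helper12.HZF.Sat
import Pool.Agent.Lib_helper12.HZF.Transfer

/-!
The final form: in every model of ZF some second-order spectrum is not an `L(I)`-spectrum, and the
statement about spectra is expressed by one sentence of the language of set theory.
-/

set_option linter.unusedSectionVars false
set_option linter.unusedVariables false

universe u

namespace Pool.Agent.HZF

open FirstOrder Language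

section
variable {V : Type u} [Lset.Structure V] [IsZF V]

/-- In a model of ZF some second-order spectrum is not an `L(I)`-spectrum. -/
theorem spec_diag : ¬ SpectraStatement V := by
  intro hS
  obtain ⟨σ, hσ, h1, h2⟩ := exists_so_sentence (V := V)
  obtain ⟨φ, hφ, hcon⟩ := hS σ hσ
  have hne : ∀ U : V, IsLim U → ∃ x, x ∈ U := fun U hU => ⟨_, hU.emp_mem⟩
  obtain ⟨U0, hU0, hR0⟩ := exists_reflects (V := V)
  have hD : DP (fun v : ℕ → V => IsLim (v 0) ∧ InSOSpec (v 0) σ) := by
    unfold InSOSpec; infer_instance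
  obtain ⟨U, ⟨_, ⟨hU, Y, hUY, hYσ⟩, hmin⟩, _⟩ := exists_least
    (Q := fun U => IsLim U ∧ InSOSpec U σ) hU0.lev ⟨hU0, U0, Equinum.refl U0, h1 U0 hU0 hR0⟩
  obtain ⟨T, f, hf, hT, hR⟩ := h2 Y hYσ
  obtain ⟨g, hg⟩ := hUY.trans ⟨f, hf⟩
  have hUT : U = T := lim_eq_of_bij' hT hU hg
  subst hUT
  obtain ⟨Z, hUZ, hZ⟩ := (hcon U (hne U hU)).1 ⟨Y, hUY, hYσ⟩
  obtain ⟨k, hk⟩ := hUZ.symm
  obtain ⟨u, huU, hu, hum⟩ := hR φ hφ (liModel_push hk hU hZ)
  exact hmin u huU hu.lev ⟨hu, (hcon u (hne u hu)).2 ⟨u, Equinum.refl u, hum⟩⟩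

end

instance (i j : ℕ) : UD.{u} (fun N _ v => InLISpec (v i) (v j)) := by
  unfold InLISpec; infer_instance

instance (i j : ℕ) : UD.{u} (fun N _ v => InSOSpec (v i) (v j)) := by
  unfold InSOSpec; infer_instance

instance ud_spectra : UD.{u} (fun N _ _ => SpectraStatement N) := by
  unfold SpectraStatement; infer_instance

theorem final : ∃ (T : Lset.Theory) (S : Lset.Sentence),
    (∀ (V : Type) [Lset.Structure V] [Nonempty V], V ⊨ T ↔ ModelsZF V) ∧
    (∀ (V : Type) [Lset.Structure V] [Nonempty V], V ⊨ S ↔ SpectraStatement V) ∧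
    T.IsSatisfiable ∧ T ⊨ᵇ S.not ∧ ¬ (T ∪ {S}).IsSatisfiable := by
  obtain ⟨S, hS⟩ := exists_sentence (P := fun N _ => SpectraStatement N) ud_spectra.{0}
  have key : ∀ (V : Type) [Lset.Structure V] [Nonempty V], V ⊨ ZF → ¬ V ⊨ S := by
    intro V _ _ hV h
    have := isZF_of_models hV
    exact spec_diag ((hS V).1 h)
  refine ⟨ZF, S, fun V _ _ => models_iff, hS, zf_satisfiable, ?_, ?_⟩
  · rw [Theory.models_sentence_iff]
    intro M
    rw [Sentence.realize_not]
    exact key M M.is_model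
  · rintro ⟨M⟩
    have h1 : M ⊨ ZF := Theory.Model.mono M.is_model Set.subset_union_left
    exact key M h1 (Theory.realize_sentence_of_mem (M := M) (T := ZF ∪ {S})
      (Set.mem_union_right _ rfl))

end Pool.Agent.HZF
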