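import Pool.Agent.Lib_helper12.HZF.Basic

/-!
Iteration along the natural numbers, induction on membership, and the levels of the
cumulative hierarchy (without ordinals), inside a model of ZF.
-/

set_option linter.unusedSectionVars false

universe u

namespace Pool.Agent.HZF

open FirstOrder Language

section notions
variable {V : Type u} [Lset.Structure V]

/-- `x` is a transitive set. -/
def Trans (x : V) : Prop := ∀ y ∈ x, Sub y x

/-- `h` is a history: every `x ∈ h` consists of the subsets of the members of `h` that belong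
to `x`. -/
def IsHist (h : V) : Prop := ∀ x ∈ h, ∀ z, z ∈ x ↔ ∃ c ∈ h, c ∈ x ∧ Sub z c

/-- `s` is a level (`s = V_α` for some ordinal `α`): `s` consists of the subsets of the members
of some history. -/
def IsLev (s : V) : Prop := ∃ h : V, IsHist h ∧ ∀ z, z ∈ s ↔ ∃ c ∈ h, Sub z c

/-- `u` is a limit level having an inductive set as an element (`u = V_α` with `α > ω` limit). -/
def IsLim (u : V) : Prop :=
  IsLev u ∧ (∃ w ∈ u, IsInductive w) ∧ ∀ x ∈ u, ∃ r ∈ u, IsLev r ∧ x ∈ r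

variable {t s r : (ℕ → V) → V}

instance [ht : DF t] : DP (fun v => Trans (t v)) :=
  DP.comp1 (by unfold Trans; infer_instance) ht

instance [ht : DF t] : DP (fun v => IsHist (t v)) :=
  DP.comp1 (by unfold IsHist; infer_instance) ht

instance [ht : DF t] : DP (fun v => IsLev (t v)) :=
  DP.comp1 (by unfold IsLev; infer_instance) ht

instance [ht : DF t] : DP (fun v => IsLim (t v)) :=
  DP.comp1 (by unfold IsLim; infer_instance) ht

end notions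

section
variable {V : Type u} [Lset.Structure V] [IsZF V]

/-! ### Iteration -/

section iterate
variable (F : V → V) (s : V)

/-- Attempts at the iteration of `F` starting from `s`. -/
def IsAtt (f : V) : Prop :=
  ∀ p ∈ f, p = opair emp s ∨ ∃ m y, opair m y ∈ f ∧ p = opair (succ m) (F y)

theorem dp_isAtt (hF : ∀ (t : (ℕ → V) → V), DF t → DF (fun v => F (t v)))
    {t : (ℕ → V) → V} (ht : DF t) : DP (fun v => IsAtt F s (t v)) := by
  have hF' : ∀ (t : (ℕ → V) → V) [DF t], DF (fun v => F (t v)) := fun t _ => hF t ‹_›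
  exact DP.comp1 (R := fun f => IsAtt F s f) (by unfold IsAtt; infer_instance) ht

theorem iterate (hF : ∀ (t : (ℕ → V) → V), DF t → DF (fun v => F (t v))) :
    ∃ U : V, s ∈ U ∧ ∀ x ∈ U, F x ∈ U := by
  have hA : ∀ (t : (ℕ → V) → V) [DF t], DP (fun v => IsAtt F s (t v)) :=
    fun t ht => dp_isAtt F s hF ht
  have key : ∀ n ∈ (omega : V), ∃! x, ∃ f, IsAtt F s f ∧ opair n x ∈ f := by
    refine nat_ind (Q := fun n => ∃! x, ∃ f, IsAtt F s f ∧ opair n x ∈ f) ?_ ?_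
    · refine ⟨s, ⟨sing (opair emp s), ?_, mem_sing.2 rfl⟩, ?_⟩
      · intro p hp
        exact Or.inl (mem_sing.1 hp)
      · rintro y ⟨f, hf, hy⟩
        rcases hf _ hy with h | ⟨m, z, _, h⟩
        · exact (opair_inj.1 h).2
        · exact absurd (opair_inj.1 h).1.symm (succ_ne_emp m)
    · rintro n _ ⟨x, ⟨f, hf, hx⟩, hux⟩
      refine ⟨F x, ⟨un f (sing (opair (succ n) (F x))), ?_, mem_un.2 (Or.inr (mem_sing.2 rfl))⟩,
        ?_⟩
      · intro p hp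
        rcases mem_un.1 hp with hp | hp
        · rcases hf _ hp with h | ⟨m, y, hy, h⟩
          · exact Or.inl h
          · exact Or.inr ⟨m, y, mem_un.2 (Or.inl hy), h⟩
        · exact Or.inr ⟨n, x, mem_un.2 (Or.inl hx), mem_sing.1 hp⟩
      · rintro y ⟨g, hg, hy⟩
        rcases hg _ hy with h | ⟨m, z, hz, h⟩
        · exact absurd (opair_inj.1 h).1 (succ_ne_emp n)
        · obtain ⟨h1, h2⟩ := opair_inj.1 h
          have h3 := succ_inj h1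
          subst h3
          have := hux z ⟨g, hg, hz⟩
          rw [h2, this]
  obtain ⟨U, hU⟩ := exists_repl (fun n x => ∃ f, IsAtt F s f ∧ opair n x ∈ f) omega key
  refine ⟨U, (hU s).2 ⟨emp, emp_mem_omega, sing (opair emp s), ?_, mem_sing.2 rfl⟩, ?_⟩
  · intro p hp
    exact Or.inl (mem_sing.1 hp)
  · intro x hx
    obtain ⟨n, hn, f, hf, hx⟩ := (hU x).1 hx
    refine (hU _).2 ⟨succ n, succ_mem_omega hn, un f (sing (opair (succ n) (F x))), ?_,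
      mem_un.2 (Or.inr (mem_sing.2 rfl))⟩
    intro p hp
    rcases mem_un.1 hp with hp | hp
    · rcases hf _ hp with h | ⟨m, y, hy, h⟩
      · exact Or.inl h
      · exact Or.inr ⟨m, y, mem_un.2 (Or.inl hy), h⟩
    · exact Or.inr ⟨n, x, mem_un.2 (Or.inl hx), mem_sing.1 hp⟩

end iterate

/-! ### Induction on membership -/

theorem exists_trans (x : V) : ∃ T : V, x ∈ T ∧ Trans T := by
  obtain ⟨U, hU, hU'⟩ := iterate (fun y : V => sUn y) (sing x) (fun t ht => inferInstance)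
  refine ⟨sUn U, mem_sUn.2 ⟨_, hU, mem_sing.2 rfl⟩, ?_⟩
  intro y hy z hz
  obtain ⟨w, hw, hy⟩ := mem_sUn.1 hy
  exact mem_sUn.2 ⟨sUn w, hU' w hw, mem_sUn.2 ⟨y, hy, hz⟩⟩

theorem exists_min {Q : V → Prop} [DP (fun v => Q (v 0))] {x : V} (hx : Q x) :
    ∃ y, Q y ∧ ∀ z ∈ y, ¬ Q z := by
  obtain ⟨T, hxT, hT⟩ := exists_trans x
  obtain ⟨y, hy, hy'⟩ := IsZF.found (sep Q T) ⟨x, mem_sep.2 ⟨hxT, hx⟩⟩
  rw [mem_sep] at hy
  exact ⟨y, hy.2, fun z hz hQ => hy' z (mem_sep.2 ⟨hT y hy.1 z hz, hQ⟩) hz⟩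

theorem mem_ind {Q : V → Prop} [DP (fun v => Q (v 0))] (h : ∀ x, (∀ y ∈ x, Q y) → Q x) :
    ∀ x, Q x := by
  intro x
  by_contra hx
  obtain ⟨y, hy, hy'⟩ := exists_min (Q := fun x => ¬ Q x) hx
  exact hy (h y fun z hz => not_not.1 (hy' z hz))

/-! ### Levels -/

theorem IsHist.trans {h : V} (hh : IsHist h) : ∀ x, x ∈ h → Trans x := by
  refine mem_ind (Q := fun x => x ∈ h → Trans x) ?_
  intro x ih hx y hy z hz
  obtain ⟨b, hb, hbx, hyb⟩ := (hh x hx y).1 hy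
  have h1 := ih b hbx hb z (hyb z hz)
  exact (hh x hx z).2 ⟨b, hb, hbx, h1⟩

theorem IsHist.lev {h : V} (hh : IsHist h) {x : V} (hx : x ∈ h) : IsLev x := by
  refine ⟨sep (fun c => c ∈ x) h, ?_, ?_⟩
  · intro y hy z
    rw [mem_sep] at hy
    rw [hh y hy.1 z]
    constructor
    · rintro ⟨c, hc, hcy, hz⟩
      exact ⟨c, mem_sep.2 ⟨hc, hh.trans x hx y hy.2 c hcy⟩, hcy, hz⟩
    · rintro ⟨c, hc, hcy, hz⟩
      exact ⟨c, (mem_sep.1 hc).1, hcy, hz⟩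
  · intro z
    rw [hh x hx z]
    constructor
    · rintro ⟨c, hc, hcx, hz⟩
      exact ⟨c, mem_sep.2 ⟨hc, hcx⟩, hz⟩
    · rintro ⟨c, hc, hz⟩
      exact ⟨c, (mem_sep.1 hc).1, (mem_sep.1 hc).2, hz⟩

theorem IsLev.potent {s x z : V} (hs : IsLev s) (hx : x ∈ s) (hz : Sub z x) : z ∈ s := by
  obtain ⟨h, _, hs⟩ := hs
  obtain ⟨c, hc, hxc⟩ := (hs x).1 hx
  exact (hs z).2 ⟨c, hc, sub_trans hz hxc⟩

theorem IsLev.trans {s : V} (hs : IsLev s) : Trans s := by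
  obtain ⟨h, hh, hs⟩ := hs
  intro x hx y hy
  obtain ⟨c, hc, hxc⟩ := (hs x).1 hx
  exact (hs y).2 ⟨c, hc, hh.trans c hc y (hxc y hy)⟩

theorem IsLev.mem_iff {s : V} (hs : IsLev s) (z : V) :
    z ∈ s ↔ ∃ c ∈ s, IsLev c ∧ Sub z c := by
  constructor
  · intro hz
    obtain ⟨h, hh, hs⟩ := hs
    obtain ⟨c, hc, hzc⟩ := (hs z).1 hz
    exact ⟨c, (hs c).2 ⟨c, hc, sub_refl c⟩, hh.lev hc, hzc⟩
  · rintro ⟨c, hc, _, hz⟩
    exact hs.potent hc hz

/-- Comparability of levels. -/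
theorem lev_comp (r : V) (hr : IsLev r) : ∀ s, IsLev s → r ∈ s ∨ r = s ∨ s ∈ r := by
  by_contra hcon
  -- `r` minimal with an incomparable level
  obtain ⟨r, ⟨hr, hrs⟩, hrmin⟩ := exists_min
    (Q := fun r => IsLev r ∧ ∃ s, IsLev s ∧ ¬ (r ∈ s ∨ r = s ∨ s ∈ r)) (x := r)
    ⟨hr, by push Not at hcon ⊢; exact hcon⟩
  obtain ⟨s, hs0⟩ := hrs
  obtain ⟨s, ⟨hs, hrs⟩, hsmin⟩ := exists_min
    (Q := fun s => IsLev s ∧ ¬ (r ∈ s ∨ r = s ∨ s ∈ r)) hs0
  apply hrs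
  right; left
  have h1 : ∀ c ∈ r, IsLev c → c ∈ s := by
    intro c hc hcl
    have h2 : ¬ (IsLev c ∧ ∃ s, IsLev s ∧ ¬ (c ∈ s ∨ c = s ∨ s ∈ c)) := hrmin c hc
    have h3 : c ∈ s ∨ c = s ∨ s ∈ c := by
      by_contra h4
      exact h2 ⟨hcl, s, hs, h4⟩
    rcases h3 with h3 | h3 | h3
    · exact h3
    · subst h3; exact absurd (Or.inr (Or.inr hc)) hrs
    · exact absurd (Or.inr (Or.inr (hr.trans c hc s h3))) hrs
  have h2 : ∀ c ∈ s, IsLev c → c ∈ r := by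
    intro c hc hcl
    have h3 : r ∈ c ∨ r = c ∨ c ∈ r := by
      by_contra h4
      exact hsmin c hc ⟨hcl, h4⟩
    rcases h3 with h3 | h3 | h3
    · exact absurd (Or.inl (hs.trans c hc r h3)) hrs
    · subst h3; exact absurd (Or.inl hc) hrs
    · exact h3
  refine ext fun z => ?_
  rw [hr.mem_iff, hs.mem_iff]
  constructor
  · rintro ⟨c, hc, hcl, hz⟩; exact ⟨c, h1 c hc hcl, hcl, hz⟩
  · rintro ⟨c, hc, hcl, hz⟩; exact ⟨c, h2 c hc hcl, hcl, hz⟩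

theorem IsLev.pow {s : V} (hs : IsLev s) : IsLev (pow s) := by
  refine ⟨sep (fun c => IsLev c) (HZF.pow s), ?_, ?_⟩
  · intro x hx z
    rw [mem_sep, mem_pow] at hx
    rw [hx.2.mem_iff]
    constructor
    · rintro ⟨c, hc, hcl, hz⟩
      exact ⟨c, mem_sep.2 ⟨mem_pow.2 (hs.trans c (hx.1 c hc)), hcl⟩, hc, hz⟩
    · rintro ⟨c, hc, hcx, hz⟩
      exact ⟨c, hcx, (mem_sep.1 hc).2, hz⟩
  · intro z
    rw [mem_pow]
    constructor
    · intro hz
      exact ⟨s, mem_sep.2 ⟨mem_pow.2 (sub_refl s), hs⟩, hz⟩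
    · rintro ⟨c, hc, hz⟩
      exact sub_trans hz (mem_pow.1 (mem_sep.1 hc).1)

theorem isLev_sUn {K : V} (hK : ∀ r ∈ K, IsLev r) : IsLev (sUn K) := by
  refine ⟨sep (fun c => IsLev c) (sUn K), ?_, ?_⟩
  · intro x hx z
    rw [mem_sep, mem_sUn] at hx
    obtain ⟨⟨r, hr, hxr⟩, hx⟩ := hx
    rw [hx.mem_iff]
    constructor
    · rintro ⟨c, hc, hcl, hz⟩
      exact ⟨c, mem_sep.2 ⟨mem_sUn.2 ⟨r, hr, (hK r hr).trans x hxr c hc⟩, hcl⟩, hc, hz⟩
    · rintro ⟨c, hc, hcx, hz⟩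
      exact ⟨c, hcx, (mem_sep.1 hc).2, hz⟩
  · intro z
    rw [mem_sUn]
    constructor
    · rintro ⟨r, hr, hz⟩
      obtain ⟨c, hc, hcl, hz⟩ := ((hK r hr).mem_iff z).1 hz
      exact ⟨c, mem_sep.2 ⟨mem_sUn.2 ⟨r, hr, hc⟩, hcl⟩, hz⟩
    · rintro ⟨c, hc, hz⟩
      obtain ⟨r, hr, hc⟩ := mem_sUn.1 (mem_sep.1 hc).1
      exact ⟨r, hr, (hK r hr).potent hc hz⟩

/-- Least levels with a definable property. -/
theorem exists_least {Q : V → Prop} [DP (fun v => Q (v 0))] {x : V} (hx : IsLev x) (hQ : Q x) :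
    ∃! y, IsLev y ∧ Q y ∧ ∀ z ∈ y, IsLev z → ¬ Q z := by
  obtain ⟨y, ⟨hy, hyQ⟩, hmin⟩ := exists_min (Q := fun y => IsLev y ∧ Q y) (x := x) ⟨hx, hQ⟩
  refine ⟨y, ⟨hy, hyQ, fun z hz hzl hzQ => hmin z hz ⟨hzl, hzQ⟩⟩, ?_⟩
  rintro z ⟨hz, hzQ, hzmin⟩
  rcases lev_comp z hz y hy with h | h | h
  · exact absurd ⟨hz, hzQ⟩ (hmin z h)
  · exact h
  · exact absurd hyQ (hzmin y h hy)

theorem lev_above (x : V) : ∃ s : V, IsLev s ∧ Sub x s := by
  refine mem_ind (Q := fun x => ∃ s, IsLev s ∧ Sub x s) ?_ x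
  intro x ih
  obtain ⟨K, hK⟩ := exists_repl
    (fun y r => IsLev r ∧ y ∈ r ∧ ∀ z ∈ r, IsLev z → ¬ y ∈ z) x (fun y hy => by
      obtain ⟨s, hs, hys⟩ := ih y hy
      exact exists_least (Q := fun r => y ∈ r) hs.pow (mem_pow.2 hys))
  refine ⟨sUn K, isLev_sUn fun r hr => ?_, fun y hy => ?_⟩
  · obtain ⟨y, _, h, _⟩ := (hK r).1 hr
    exact h
  · obtain ⟨s, hs, hys⟩ := ih y hy
    obtain ⟨r, hr, _⟩ := exists_least (Q := fun r => y ∈ r) hs.pow (mem_pow.2 hys)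
    exact mem_sUn.2 ⟨r, (hK r).2 ⟨y, hy, hr⟩, hr.2.1⟩

theorem exists_lev_mem (x : V) : ∃ s : V, IsLev s ∧ x ∈ s := by
  obtain ⟨s, hs, hx⟩ := lev_above x
  exact ⟨_, hs.pow, mem_pow.2 hx⟩

theorem isInductive_omega : IsInductive (omega : V) :=
  isInductive_iff.2 ⟨emp_mem_omega, fun _ h => succ_mem_omega h⟩

/-- Limit levels are unbounded. -/
theorem lim_above (x : V) : ∃ u : V, IsLim u ∧ x ∈ u := by
  obtain ⟨s, hs, hx⟩ := exists_lev_mem (upair x omega)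
  have hx' : x ∈ s := hs.trans _ hx x (mem_upair.2 (Or.inl rfl))
  have ho : (omega : V) ∈ s := hs.trans _ hx _ (mem_upair.2 (Or.inr rfl))
  obtain ⟨U, hsU, hU⟩ := iterate (fun y : V => pow y) s (fun t ht => inferInstance)
  have hlev : IsLev (sUn (sep (fun c => IsLev c) U)) := isLev_sUn fun r hr => (mem_sep.1 hr).2
  have hsub : ∀ y ∈ s, y ∈ sUn (sep (fun c => IsLev c) U) := fun y hy =>
    mem_sUn.2 ⟨s, mem_sep.2 ⟨hsU, hs⟩, hy⟩
  refine ⟨sUn (sep (fun c => IsLev c) U), ⟨hlev, ⟨omega, hsub _ ho, isInductive_omega⟩, ?_⟩,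
    hsub _ hx'⟩
  intro y hy
  obtain ⟨r, hr, hyr⟩ := mem_sUn.1 hy
  rw [mem_sep] at hr
  refine ⟨r, ?_, hr.2, hyr⟩
  exact mem_sUn.2 ⟨pow r, mem_sep.2 ⟨hU r hr.1, hr.2.pow⟩, mem_pow.2 (sub_refl r)⟩

end

end Pool.Agent.HZF
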