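import Pool.Agent.Lib_helper12.HZF.Syntax

/-!
Uniform definability (without parameters, by one formula for all structures).
-/

set_option linter.unusedSectionVars false
set_option linter.unusedVariables false

universe u

namespace Pool.Agent.HZF

open FirstOrder Language

/-- Uniform definability of a predicate on assignments in structures for the language of set
theory. -/
class UD (Q : ∀ (N : Type u) [Lset.Structure N], (ℕ → N) → Prop) : Prop where
  out : ∃ φ : Lset.Formula ℕ, ∀ (N : Type u) [Lset.Structure N] (v : ℕ → N),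
    φ.Realize v ↔ Q N v

theorem UD.congr {P Q : ∀ (N : Type u) [Lset.Structure N], (ℕ → N) → Prop} (h : UD P)
    (hPQ : ∀ (N : Type u) [Lset.Structure N] (v : ℕ → N), P N v ↔ Q N v) : UD Q := by
  obtain ⟨φ, hφ⟩ := h.out
  exact ⟨⟨φ, fun N _ v => (hφ N v).trans (hPQ N v)⟩⟩

instance UD.not {P : ∀ (N : Type u) [Lset.Structure N], (ℕ → N) → Prop} [hP : UD P] :
    UD (fun N _ v => ¬ P N v) := by
  obtain ⟨φ, hφ⟩ := hP.out
  exact ⟨⟨φ.not, fun N _ v => by simp [Formula.realize_not, hφ]⟩⟩

instance UD.imp {P Q : ∀ (N : Type u) [Lset.Structure N], (ℕ → N) → Prop} [hP : UD P]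
    [hQ : UD Q] : UD (fun N _ v => P N v → Q N v) := by
  obtain ⟨φ, hφ⟩ := hP.out
  obtain ⟨ψ, hψ⟩ := hQ.out
  exact ⟨⟨φ.imp ψ, fun N _ v => by simp [Formula.realize_imp, hφ, hψ]⟩⟩

instance UD.and {P Q : ∀ (N : Type u) [Lset.Structure N], (ℕ → N) → Prop} [hP : UD P]
    [hQ : UD Q] : UD (fun N _ v => P N v ∧ Q N v) := by
  have h : UD (fun N _ v => ¬ (P N v → ¬ Q N v)) := inferInstance
  exact h.congr (fun N _ v => by tauto)

instance UD.or {P Q : ∀ (N : Type u) [Lset.Structure N], (ℕ → N) → Prop} [hP : UD P]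
    [hQ : UD Q] : UD (fun N _ v => P N v ∨ Q N v) := by
  have h : UD (fun N _ v => (¬ P N v → Q N v)) := inferInstance
  exact h.congr (fun N _ v => by tauto)

instance UD.iff {P Q : ∀ (N : Type u) [Lset.Structure N], (ℕ → N) → Prop} [hP : UD P]
    [hQ : UD Q] : UD (fun N _ v => (P N v ↔ Q N v)) := by
  have h : UD (fun N _ v => ((P N v → Q N v) ∧ (Q N v → P N v))) := inferInstance
  exact h.congr (fun N _ v => by tauto)

/-- The relabelling used for quantifiers. -/
def shiftMapU : ℕ → ℕ ⊕ Fin 1
  | 0 => Sum.inr 0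
  | (n + 1) => Sum.inl n

theorem UD.all' {P : ∀ (N : Type u) [Lset.Structure N], N → (ℕ → N) → Prop}
    (h : UD (fun N _ v => P N (v 0) (shift v))) : UD (fun N _ v => ∀ x, P N x v) := by
  obtain ⟨φ, hφ⟩ := h.out
  refine ⟨⟨BoundedFormula.all (BoundedFormula.relabel (n := 1) shiftMapU φ), fun N _ v => ?_⟩⟩
  unfold Formula.Realize at hφ ⊢
  rw [BoundedFormula.realize_all]
  refine forall_congr' fun x => ?_
  rw [BoundedFormula.realize_relabel]
  have hP : P N x v ↔ BoundedFormula.Realize φ (fun n => Nat.casesOn n x v : ℕ → N) default :=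
    (hφ N (fun n => Nat.casesOn n x v)).symm
  rw [hP]
  have h1 : (Sum.elim v ((Fin.snoc default x : Fin (0 + 1) → N) ∘ Fin.castAdd 0) ∘
      shiftMapU) = (fun n => Nat.casesOn n x v : ℕ → N) := by
    funext i
    rcases i with _ | n
    · simp [shiftMapU, Fin.snoc]
    · simp [shiftMapU]
  rw [h1]
  have h2 : ((Fin.snoc default x : Fin (0 + 1) → N) ∘ Fin.natAdd 1) = (default : Fin 0 → N) :=
    Subsingleton.elim _ _
  rw [h2]

instance UD.all {P : ∀ (N : Type u) [Lset.Structure N], N → (ℕ → N) → Prop}
    [h : UD (fun N _ v => P N (v 0) (shift v))] : UD (fun N _ v => ∀ x, P N x v) := UD.all' h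

instance UD.ex {P : ∀ (N : Type u) [Lset.Structure N], N → (ℕ → N) → Prop}
    [h : UD (fun N _ v => P N (v 0) (shift v))] : UD (fun N _ v => ∃ x, P N x v) := by
  have h1 : UD (fun N _ v => ¬ P N (v 0) (shift v)) := UD.not
  have h2 : UD (fun N _ v => ∀ x, ¬ P N x v) := UD.all' (P := fun N _ x v => ¬ P N x v) h1
  have h3 : UD (fun N _ v => ¬ ∀ x, ¬ P N x v) := UD.not
  exact h3.congr (fun N _ v => by push Not; rfl)

theorem UD.rename {Q : ∀ (N : Type u) [Lset.Structure N], (ℕ → N) → Prop} (h : UD Q)
    (f : ℕ → ℕ) : UD (fun N _ v => Q N (v ∘ f)) := by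
  obtain ⟨φ, hφ⟩ := h.out
  refine ⟨⟨φ.relabel f, fun N _ v => ?_⟩⟩
  rw [Formula.realize_relabel, ← hφ]

instance UD.mem (i j : ℕ) : UD.{u} (fun N _ v => v i ∈ v j) :=
  ⟨⟨fMem i j, fun N _ v => by
    unfold fMem
    rw [Formula.realize_rel₂]
    simp
    rfl⟩⟩

instance UD.eq (i j : ℕ) : UD.{u} (fun N _ v => v i = v j) :=
  ⟨⟨Term.equal (Term.var i) (Term.var j), fun N _ v => by simp [Formula.realize_equal]⟩⟩

instance UD.exu {P : ∀ (N : Type u) [Lset.Structure N], N → (ℕ → N) → Prop}
    [h : UD (fun N _ v => P N (v 0) (shift v))] : UD (fun N _ v => ∃! x, P N x v) := by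
  have h1 : UD (fun N _ v => P N (v 0) (shift (shift v))) :=
    UD.rename (Q := fun N _ v => P N (v 0) (shift v)) h skipOne
  have h2 : UD (fun N _ v => ∀ y, P N y (shift v) → y = v 0) :=
    UD.all' (P := fun N _ y v => P N y (shift v) → y = v 0) UD.imp
  have h3 : UD (fun N _ v => P N (v 0) (shift v) ∧ ∀ y, P N y (shift v) → y = v 0) := UD.and
  exact UD.ex (P := fun N _ x v => P N x v ∧ ∀ y, P N y v → y = x)

section notions
variable (i j k l m n : ℕ)

instance : UD.{u} (fun N _ v => Sub (v i) (v j)) := by unfold Sub; infer_instance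
instance : UD.{u} (fun N _ v => IsEmp (v i)) := by unfold IsEmp; infer_instance
instance : UD.{u} (fun N _ v => IsUpair (v i) (v j) (v k)) := by unfold IsUpair; infer_instance
instance : UD.{u} (fun N _ v => IsOpair (v i) (v j) (v k)) := by unfold IsOpair; infer_instance
instance : UD.{u} (fun N _ v => IsSucc (v i) (v j)) := by unfold IsSucc; infer_instance
instance : UD.{u} (fun N _ v => IsInductive (v i)) := by unfold IsInductive; infer_instance
instance : UD.{u} (fun N _ v => IsNat (v i)) := by unfold IsNat; infer_instance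
instance : UD.{u} (fun N _ v => OMem (v i) (v j) (v k)) := by unfold OMem; infer_instance
instance : UD.{u} (fun N _ v => IsFun (v i) (v j) (v k)) := by unfold IsFun; infer_instance
instance : UD.{u} (fun N _ v => Trans (v i)) := by unfold Trans; infer_instance
instance : UD.{u} (fun N _ v => IsHist (v i)) := by unfold IsHist; infer_instance
instance : UD.{u} (fun N _ v => IsLev (v i)) := by unfold IsLev; infer_instance
instance : UD.{u} (fun N _ v => IsLim (v i)) := by unfold IsLim; infer_instance

theorem ud_isNum : ∀ (k : ℕ) (i : ℕ), UD.{u} (fun N _ v => IsNum k (v i))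
  | 0, i => by unfold IsNum; infer_instance
  | (k + 1), i => by
    have : ∀ i, UD.{u} (fun N _ v => IsNum k (v i)) := fun i => ud_isNum k i
    unfold IsNum; infer_instance

instance : UD.{u} (fun N _ v => IsNum k (v i)) := ud_isNum k i
instance : UD.{u} (fun N _ v => IsCode1 k (v i) (v j)) := by unfold IsCode1; infer_instance
instance : UD.{u} (fun N _ v => IsCode2 k (v i) (v j) (v l)) := by
  unfold IsCode2; infer_instance
instance : UD.{u} (fun N _ v => IsComp (v i) (v j) (v k)) := by unfold IsComp; infer_instance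
instance : UD.{u} (fun N _ v => IsExt (v i) (v j) (v k) (v l)) := by
  unfold IsExt; infer_instance
instance : UD.{u} (fun N _ v => IsStr (v i) (v j)) := by unfold IsStr; infer_instance
instance : UD.{u} (fun N _ v => IsBij (v i) (v j) (v k)) := by unfold IsBij; infer_instance
instance : UD.{u} (fun N _ v => Equinum (v i) (v j)) := by unfold Equinum; infer_instance
instance : UD.{u} (fun N _ v => LIForm (v i)) := by unfold LIForm; infer_instance
instance : UD.{u} (fun N _ v => IsDefSet (v i) (v j) (v k) (v l) (v m) (v n)) := by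
  unfold IsDefSet; infer_instance
instance : UD.{u} (fun N _ v => LIClause (v i) (v j) (v k) (v l) (v m) (v n)) := by
  unfold LIClause; infer_instance
instance : UD.{u} (fun N _ v => LISat (v i) (v j) (v k) (v l)) := by
  unfold LISat; infer_instance
instance : UD.{u} (fun N _ v => LISentence (v i)) := by unfold LISentence; infer_instance
instance : UD.{u} (fun N _ v => LIModel (v i) (v j)) := by unfold LIModel; infer_instance
instance : UD.{u} (fun N _ v => SOForm (v i)) := by unfold SOForm; infer_instance
instance : UD.{u} (fun N _ v => SMem (v i) (v j) (v k) (v l)) := by unfold SMem; infer_instance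
instance : UD.{u} (fun N _ v => Agree (v i) (v j) (v k) (v l) (v m)) := by
  unfold Agree; infer_instance
instance : UD.{u} (fun N _ v => SOClause (v i) (v j) (v k) (v l) (v m) (v n)) := by
  unfold SOClause; infer_instance
instance : UD.{u} (fun N _ v => SOSat (v i) (v j) (v k)) := by unfold SOSat; infer_instance
instance : UD.{u} (fun N _ v => SOSentence (v i)) := by unfold SOSentence; infer_instance
instance : UD.{u} (fun N _ v => SOModel (v i) (v j)) := by unfold SOModel; infer_instance

end notions

/-- A uniformly definable property of structures is expressed by a sentence, in all nonempty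
structures. -/
theorem exists_sentence {P : ∀ (N : Type u) [Lset.Structure N], Prop}
    (h : UD (fun N _ _ => P N)) :
    ∃ S : Lset.Sentence, ∀ (N : Type u) [Lset.Structure N] [Nonempty N], N ⊨ S ↔ P N := by
  obtain ⟨φ, hφ⟩ := h.out
  refine ⟨BoundedFormula.all
    (BoundedFormula.relabel (n := 1) (fun _ => Sum.inr 0 : ℕ → Empty ⊕ Fin 1) φ),
    fun N _ hN => ?_⟩
  unfold Sentence.Realize Formula.Realize
  rw [BoundedFormula.realize_all]
  have key : ∀ x : N, (BoundedFormula.relabel (n := 1)
      (fun _ => Sum.inr 0 : ℕ → Empty ⊕ Fin 1) φ).Realize default (Fin.snoc default x) ↔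
      P N := by
    intro x
    rw [BoundedFormula.realize_relabel, ← hφ N (fun _ => x)]
    unfold Formula.Realize
    have h1 : (Sum.elim (default : Empty → N)
        ((Fin.snoc default x : Fin (0 + 1) → N) ∘ Fin.castAdd 0) ∘
        (fun _ => Sum.inr 0 : ℕ → Empty ⊕ Fin 1)) = (fun _ => x) := by
      funext i
      simp [Fin.snoc]
    rw [h1]
    have h2 : ((Fin.snoc default x : Fin (0 + 1) → N) ∘ Fin.natAdd 1) =
        (default : Fin 0 → N) := Subsingleton.elim _ _
    rw [h2]
  constructor
  · intro h
    obtain ⟨x⟩ := hN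
    exact (key x).1 (h x)
  · intro h x
    exact (key x).2 h

end Pool.Agent.HZF
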