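import Pool.Agent.Lib_helper12.HZF.Trans2
import Pool.Agent.Lib_helper12.HZF.UDef

/-!
The diagonalization: in every model of ZF some second-order spectrum is not an `L(I)`-spectrum.
-/

set_option linter.unusedSectionVars false
set_option linter.unusedVariables false

universe u

namespace Pool.Agent.HZF

open FirstOrder Language

/-- Every `L(I)`-sentence having a model with universe `u` has a model whose universe is a limit
level belonging to `u`. -/
def Reflects {N : Type u} [Lset.Structure N] (u : N) : Prop :=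
  ∀ φ, LISentence φ → LIModel u φ → ∃ u' ∈ u, IsLim u' ∧ LIModel u' φ

/-- The property of the structure of the subsets of `V_α` used in the diagonalization. -/
def Theta (N : Type u) [Lset.Structure N] : Prop :=
  (∀ x y : N, (∀ z, z ∈ x ↔ z ∈ y) → x = y) ∧
  (∀ x : N, (∃ y, y ∈ x) → ∃ y ∈ x, ∀ z ∈ x, z ∉ y) ∧
  ∃ u : N, (∀ x, Sub x u) ∧ IsLim u ∧ Reflects u

instance (i : ℕ) : UD.{u} (fun N _ v => Reflects (v i)) := by unfold Reflects; infer_instance

instance ud_theta : UD.{u} (fun N _ _ => Theta N) := by unfold Theta; infer_instance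

section
variable {V : Type u} [Lset.Structure V]

instance {t : (ℕ → V) → V} [ht : DF t] : DP (fun v => Reflects (t v)) :=
  DP.comp1 (by unfold Reflects; infer_instance) ht

variable [IsZF V]

/-- For a transitive set `T`: if the structure of the subsets of `T` has the property `Theta`,
then `T` is a limit level which reflects. -/
theorem of_theta_mod {T : V} (hT : Trans T) (h : Theta (Mod (pow T))) :
    IsLim T ∧ Reflects T := by
  obtain ⟨_, _, u, hu, hlim, hrefl⟩ := h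
  have hc : Trans (pow T) := trans_pow' hT
  have hTm : T ∈ pow T := mem_pow.2 (sub_refl T)
  have huT : u.1 = T := by
    refine sub_antisymm (mem_pow.1 u.2) ?_
    exact (abs_sub hc (x := ⟨T, hTm⟩)).1 (hu ⟨T, hTm⟩)
  have hL : IsLim T := by
    have := (abs_lim hc potent_pow).1 hlim
    rwa [huT] at this
  refine ⟨hL, fun φ hφ hm => ?_⟩
  have hφT : φ ∈ pow T := by
    obtain ⟨G, e, hG, he, hGe⟩ := hφ
    exact up hL (liForm_mem hL hG φ e hGe)
  have h1 : LISentence (V := Mod (pow T)) ⟨φ, hφT⟩ := (abs_liSentence hL).2 hφ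
  have h2 : LIModel u ⟨φ, hφT⟩ := by
    refine (abs_liModel hL (by rw [huT]; exact hL)).2 ?_
    rw [huT]; exact hm
  obtain ⟨u', hu', hlim', hm'⟩ := hrefl _ h1 h2
  have h3 := (abs_lim hc potent_pow).1 hlim'
  refine ⟨u'.1, ?_, h3, (abs_liModel hL h3).1 hm'⟩
  have := mem_mod.1 hu'
  rwa [huT] at this

theorem theta_mod {U : V} (hU : IsLim U) (h : Reflects U) : Theta (Mod (pow U)) := by
  have hc : Trans (pow U) := tp hU
  have hUm : U ∈ pow U := mem_pow.2 (sub_refl U)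
  refine ⟨fun x y hxy => ?_, fun x hx => ?_, ⟨U, hUm⟩, fun x => ?_, ?_, ?_⟩
  · refine eq_mod.2 (ext fun z => ⟨fun hz => ?_, fun hz => ?_⟩)
    · exact mem_mod.1 ((hxy ⟨z, lift_mem hc hz⟩).1 (mem_mod.2 hz))
    · exact mem_mod.1 ((hxy ⟨z, lift_mem hc hz⟩).2 (mem_mod.2 hz))
  · obtain ⟨y, hy⟩ := hx
    obtain ⟨y, hy, hmin⟩ := IsZF.found x.1 ⟨y.1, mem_mod.1 hy⟩
    exact ⟨⟨y, lift_mem hc hy⟩, mem_mod.2 hy, fun z hz hzy =>
      hmin z.1 (mem_mod.1 hz) (mem_mod.1 hzy)⟩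
  · exact (abs_sub hc).2 (mem_pow.1 x.2)
  · exact (abs_lim hc potent_pow).2 hU
  · intro φ hφ hm
    have h1 := (abs_liSentence hU).1 hφ
    have h2 : LIModel U φ.1 := (abs_liModel hU (X := ⟨U, hUm⟩) hU).1 hm
    obtain ⟨u', hu', hlim', hm'⟩ := h φ.1 h1 h2
    have hu'm : u' ∈ pow U := up hU hu'
    exact ⟨⟨u', hu'm⟩, mem_mod.2 hu', (abs_lim hc potent_pow).2 hlim',
      (abs_liModel hU (X := ⟨u', hu'm⟩) hlim').2 hm'⟩

instance (c : V) [h : Nonempty {x : V // x ∈ c}] : Nonempty (Mod c) := h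

theorem nonempty_mod (T : V) : Nonempty (Mod (pow T)) := ⟨⟨T, mem_pow.2 (sub_refl T)⟩⟩

theorem nonempty_py (Y r : V) : Nonempty (PY Y r) := ⟨⟨Y, mem_pow.2 (sub_refl Y)⟩⟩

theorem relMap_iff {N : Type u} [Lset.Structure N] (x : Fin 2 → N) :
    Structure.RelMap (L := Lset) (MemRel.mem : Lset.Relations 2) x ↔ x 0 ∈ x 1 := by
  have e : x = ![x 0, x 1] := by funext i; fin_cases i <;> rfl
  conv_lhs => rw [e]
  exact Iff.rfl

/-- Isomorphisms from bijections preserving membership. -/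
def equivOf {M N : Type u} [Lset.Structure M] [Lset.Structure N] (e : M ≃ N)
    (h : ∀ x y, e x ∈ e y ↔ x ∈ y) : Language.Equiv Lset M N where
  toEquiv := e
  map_fun' := fun f => Empty.elim f
  map_rel' := by
    intro n R x
    cases R
    rw [relMap_iff, relMap_iff]
    exact h _ _

/-- For a limit level `U`, the structure of the subsets of `U`, in its two guises. -/
theorem exists_py_equiv {U : V} (hU : IsLim U) :
    ∃ r : V, (∀ w u, opair w u ∈ r → w ∈ U ∧ u ∈ U) ∧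
      Nonempty (Language.Equiv Lset (PY U r) (Mod (pow U))) := by
  have hr : ∀ w u, opair w u ∈ sep (fun p => ∃ w u : V, p = opair w u ∧ w ∈ u ∧ u ∈ U) U ↔
      w ∈ u ∧ u ∈ U := by
    intro w u
    rw [mem_sep]
    constructor
    · rintro ⟨_, w', u', e, h1, h2⟩
      obtain ⟨rfl, rfl⟩ := opair_inj.1 e
      exact ⟨h1, h2⟩
    · rintro ⟨h1, h2⟩
      exact ⟨hU.opair (hU.mem_of_mem h1 h2) h2, w, u, rfl, h1, h2⟩
  refine ⟨sep (fun p => ∃ w u : V, p = opair w u ∧ w ∈ u ∧ u ∈ U) U, fun w u h => ?_, ⟨?_⟩⟩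
  · obtain ⟨h1, h2⟩ := (hr w u).1 h
    exact ⟨hU.mem_of_mem h1 h2, h2⟩
  · refine equivOf
      { toFun := fun z => ⟨z.1, z.2⟩
        invFun := fun z => ⟨z.1, z.2⟩
        left_inv := fun _ => rfl
        right_inv := fun _ => rfl } ?_
    intro x y
    rw [mem_mod, mem_py]
    change x.1 ∈ y.1 ↔ _
    constructor
    · intro h
      have hx0 : x.1 ∈ U := mem_pow.1 y.2 _ h
      refine ⟨x.1, h, fun w => ?_⟩
      rw [hr]
      exact ⟨fun hw => ⟨hU.mem_of_mem hw hx0, hw, hx0⟩, fun hw => hw.2.1⟩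
    · rintro ⟨u, hu, h⟩
      have huU : u ∈ U := mem_pow.1 y.2 _ hu
      have : x.1 = u := by
        refine ext fun w => ?_
        rw [h w, hr]
        exact ⟨fun hw => hw.2.1, fun hw => ⟨hU.mem_of_mem hw huU, hw, huU⟩⟩
      rw [this]; exact hu

/-- If the structure of the subsets of `Y` given by the relation `r` has the property `Theta`,
then there is a bijection of `Y` onto a reflecting limit level. -/
theorem of_theta_py {Y r : V} (hr : ∀ w u, opair w u ∈ r → w ∈ Y ∧ u ∈ Y)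
    (θ : Lset.Sentence) (hθ : ∀ (N : Type u) [Lset.Structure N] [Nonempty N], N ⊨ θ ↔ Theta N)
    (h : PY Y r ⊨ θ) : ∃ T f : V, IsBij f Y T ∧ IsLim T ∧ Reflects T := by
  have := nonempty_py Y r
  have hTh : Theta (PY Y r) := (hθ _).1 h
  obtain ⟨hE, hF, _⟩ := hTh
  -- singletons as elements of `PY Y r`
  have hsing : ∀ y ∈ Y, sing y ∈ pow Y := fun y hy => mem_pow.2 fun z hz => by
    rw [mem_sing.1 hz]; exact hy
  -- the sets of predecessors
  have hpre : ∀ u : V, sep (fun w => opair w u ∈ r) Y ∈ pow Y := fun u =>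
    mem_pow.2 fun z hz => (mem_sep.1 hz).1
  have hmem : ∀ (x y : PY Y r), x ∈ y ↔ ∃ u ∈ y.1, x.1 = sep (fun w => opair w u ∈ r) Y := by
    intro x y
    rw [mem_py]
    refine exists_congr fun u => and_congr_right fun hu => ?_
    constructor
    · intro h
      refine ext fun w => ?_
      rw [h w, mem_sep]
    · intro h w
      rw [h, mem_sep]
  have hext : ∀ y ∈ Y, ∀ y' ∈ Y, (∀ w, opair w y ∈ r ↔ opair w y' ∈ r) → y = y' := by
    intro y hy y' hy' hyy'
    have e : sep (fun w => opair w y ∈ r) Y = sep (fun w => opair w y' ∈ r) Y := by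
      refine ext fun w => ?_
      rw [mem_sep, mem_sep, hyy' w]
    have h1 := hE ⟨sing y, hsing y hy⟩ ⟨sing y', hsing y' hy'⟩ (by
      intro z
      rw [hmem, hmem]
      constructor
      · rintro ⟨u, hu, hz⟩
        rw [mem_sing] at hu
        subst hu
        exact ⟨y', mem_sing.2 rfl, hz.trans e⟩
      · rintro ⟨u, hu, hz⟩
        rw [mem_sing] at hu
        subst hu
        exact ⟨y, mem_sing.2 rfl, hz.trans e.symm⟩)
    exact sing_inj (congrArg Subtype.val h1)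
  have hwf : WFRel Y r := by
    refine ⟨hr, fun Z hZ hne => ?_⟩
    obtain ⟨z, hz⟩ := hne
    obtain ⟨y, hy, hmin⟩ := hF ⟨Z, mem_pow.2 hZ⟩
      ⟨⟨sep (fun w => opair w z ∈ r) Y, hpre z⟩, (hmem _ _).2 ⟨z, hz, rfl⟩⟩
    obtain ⟨u, hu, hyu⟩ := (hmem _ _).1 hy
    refine ⟨u, hu, fun w hw hwu => ?_⟩
    refine hmin ⟨sep (fun w' => opair w' w ∈ r) Y, hpre w⟩ ((hmem _ _).2 ⟨w, hw, rfl⟩) ?_
    refine (hmem _ _).2 ⟨w, ?_, rfl⟩
    rw [hyu, mem_sep]
    exact ⟨hZ w hw, hwu⟩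
  obtain ⟨T, f, hf, hT, hstep⟩ := collapse hwf hext
  refine ⟨T, f, hf, ?_⟩
  -- the isomorphism induced by `f`
  have himg : ∀ z : V, sep (fun x => ∃ y ∈ z, opair y x ∈ f) T ∈ pow T := fun z =>
    mem_pow.2 fun w hw => (mem_sep.1 hw).1
  have hpreim : ∀ z : V, sep (fun y => ∃ x ∈ z, opair y x ∈ f) Y ∈ pow Y := fun z =>
    mem_pow.2 fun w hw => (mem_sep.1 hw).1
  have hinj : ∀ y y' x, opair y x ∈ f → opair y' x ∈ f → y = y' := by
    intro y y' x h1 h2
    exact (hf.2 x (hf.1.ran h1)).unique (oMem_iff.2 h1) (oMem_iff.2 h2)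
  have hleft : ∀ z, Sub z Y → sep (fun y => ∃ x ∈ sep (fun x => ∃ y ∈ z, opair y x ∈ f) T,
      opair y x ∈ f) Y = z := by
    intro z hz
    refine ext fun y => ?_
    rw [mem_sep]
    constructor
    · rintro ⟨hy, x, hx, hyx⟩
      obtain ⟨_, y', hy', hyx'⟩ := mem_sep.1 hx
      rw [hinj y y' x hyx hyx']
      exact hy'
    · intro hy
      obtain ⟨x, hx⟩ := hf.1.exists (hz y hy)
      exact ⟨hz y hy, x, mem_sep.2 ⟨hf.1.ran hx, y, hy, hx⟩, hx⟩
  have hright : ∀ z, Sub z T → sep (fun x => ∃ y ∈ sep (fun y => ∃ x ∈ z, opair y x ∈ f) Y,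
      opair y x ∈ f) T = z := by
    intro z hz
    refine ext fun x => ?_
    rw [mem_sep]
    constructor
    · rintro ⟨hx, y, hy, hyx⟩
      obtain ⟨_, x', hx', hyx'⟩ := mem_sep.1 hy
      rw [hf.1.uniq hyx hyx']
      exact hx'
    · intro hx
      obtain ⟨y, hy, _⟩ := hf.2 x (hz x hx)
      rw [oMem_iff] at hy
      exact ⟨hz x hx, y, mem_sep.2 ⟨hf.1.dom hy, x, hx, hy⟩, hy⟩
  let e : PY Y r ≃ Mod (pow T) :=
    { toFun := fun z => ⟨sep (fun x => ∃ y ∈ z.1, opair y x ∈ f) T, himg z.1⟩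
      invFun := fun z => ⟨sep (fun y => ∃ x ∈ z.1, opair y x ∈ f) Y, hpreim z.1⟩
      left_inv := fun z => Subtype.ext (hleft z.1 (mem_pow.1 z.2))
      right_inv := fun z => Subtype.ext (hright z.1 (mem_pow.1 z.2)) }
  have he : ∀ x y : PY Y r, e x ∈ e y ↔ x ∈ y := by
    intro x y
    rw [mem_mod, hmem]
    change sep (fun x' => ∃ y ∈ x.1, opair y x' ∈ f) T ∈
      sep (fun x' => ∃ y' ∈ y.1, opair y' x' ∈ f) T ↔ _
    rw [mem_sep]
    -- the image of the set of predecessors of `u` is the value of `f` at `u`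
    have himgpre : ∀ u x', opair u x' ∈ f →
        sep (fun x'' => ∃ y ∈ sep (fun w => opair w u ∈ r) Y, opair y x'' ∈ f) T = x' := by
      intro u x' hu
      refine ext fun z => ?_
      rw [mem_sep, hstep u x' hu z]
      constructor
      · rintro ⟨_, w, hw, hwz⟩
        exact ⟨w, (mem_sep.1 hw).2, hwz⟩
      · rintro ⟨w, hw, hwz⟩
        exact ⟨hf.1.ran hwz, w, mem_sep.2 ⟨(hr w u hw).1, hw⟩, hwz⟩
    constructor
    · rintro ⟨_, u, hu, h1⟩
      refine ⟨u, hu, ?_⟩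
      have h2 := himgpre u _ h1
      have h3 := hleft x.1 (mem_pow.1 x.2)
      have h4 := hleft _ (mem_pow.1 (hpre u))
      rw [← h3, ← h4, h2]
    · rintro ⟨u, hu, hx⟩
      obtain ⟨x', hx'⟩ := hf.1.exists (mem_pow.1 y.2 u hu)
      have h2 := himgpre u x' hx'
      rw [hx, h2]
      exact ⟨hf.1.ran hx', u, hu, hx'⟩
  have := nonempty_mod T
  have h1 : Mod (pow T) ⊨ θ := (StrongHomClass.realize_sentence (equivOf e he) θ).1 h
  exact of_theta_mod hT ((hθ _).1 h1)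

/-! ### Existence of a reflecting limit level -/

theorem exists_reflects : ∃ U : V, IsLim U ∧ Reflects U := by
  obtain ⟨U0, hU0, _⟩ := lim_above (emp : V)
  -- the least limit levels carrying models of the sentences
  obtain ⟨D, hD⟩ := exists_repl
    (fun φ u => IsLev u ∧ (IsLim u ∧ LIModel u φ) ∧ ∀ z ∈ u, IsLev z → ¬ (IsLim z ∧ LIModel z φ))
    (sep (fun φ => ∃ u, IsLim u ∧ LIModel u φ) U0) (fun φ hφ => by
      obtain ⟨_, u, hu, hm⟩ := mem_sep.1 hφ
      exact exists_least (Q := fun u => IsLim u ∧ LIModel u φ) hu.lev ⟨hu, hm⟩)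
  obtain ⟨U, hU, hDU⟩ := lim_above D
  refine ⟨U, hU, fun φ hφ hm => ?_⟩
  have hφ0 : φ ∈ U0 := by
    obtain ⟨G, e, hG, he, hGe⟩ := hφ
    exact liForm_mem hU0 hG φ e hGe
  obtain ⟨u, hu, _⟩ := exists_least (Q := fun u => IsLim u ∧ LIModel u φ) hU.lev ⟨hU, hm⟩
  have huD : u ∈ D := (hD u).2 ⟨φ, mem_sep.2 ⟨hφ0, U, hU, hm⟩, hu⟩
  exact ⟨u, hU.mem_of_mem huD hDU, hu.2.1.1, hu.2.1.2⟩

/-! ### The diagonalization -/

/-- In a model of ZF there is a second-order sentence whose models have the universes in bijection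
with the reflecting limit levels. -/
theorem exists_so_sentence : ∃ σ : V, SOSentence σ ∧
    (∀ U, IsLim U → Reflects U → SOModel U σ) ∧
    (∀ Y, SOModel Y σ → ∃ T f : V, IsBij f Y T ∧ IsLim T ∧ Reflects T) := by
  obtain ⟨θ, hθ⟩ := exists_sentence (P := fun N _ => Theta N) ud_theta.{u}
  have h1 : ∀ U : V, IsLim U → Reflects U → SOModel U ((tr θ).code : V) := by
    intro U hU hR
    rw [soModel_tr]
    obtain ⟨r, hr, ⟨e⟩⟩ := exists_py_equiv hU
    refine ⟨r, hr, ?_⟩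
    have := nonempty_mod U
    have h2 : Mod (pow U) ⊨ θ := (hθ _).2 (theta_mod hU hR)
    exact (StrongHomClass.realize_sentence e θ).2 h2
  refine ⟨(tr θ).code, ?_, h1, fun Y hY => ?_⟩
  · obtain ⟨U, hU, hR⟩ := exists_reflects (V := V)
    exact soSentence_code (tr_wf θ) U ((soModel_iff (tr_wf θ)).1 (h1 U hU hR))
  · obtain ⟨r, hr, h⟩ := (soModel_tr θ).1 hY
    exact of_theta_py hr θ hθ h

/-- In a model of ZF some second-order spectrum is not an `L(I)`-spectrum. -/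
theorem main_diag : ∃ σ : V, SOSentence σ ∧ ∀ φ : V, LISentence φ →
    ∃ X : V, (∃ x, x ∈ X) ∧ ¬ (SOModel X σ ↔ LIModel X φ) := by
  obtain ⟨σ, hσ, h1, h2⟩ := exists_so_sentence (V := V)
  refine ⟨σ, hσ, fun φ hφ => ?_⟩
  by_contra hcon
  have hcon' : ∀ X : V, (∃ x, x ∈ X) → (SOModel X σ ↔ LIModel X φ) := by
    intro X hX
    by_contra h
    exact hcon ⟨X, hX, h⟩
  have hne : ∀ U : V, IsLim U → ∃ x, x ∈ U := fun U hU => ⟨_, hU.emp_mem⟩
  obtain ⟨U0, hU0, hR0⟩ := exists_reflects (V := V)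
  obtain ⟨U, ⟨_, ⟨hU, hUσ⟩, hmin⟩, _⟩ := exists_least
    (Q := fun U => IsLim U ∧ SOModel U σ) hU0.lev ⟨hU0, h1 U0 hU0 hR0⟩
  obtain ⟨T, f, hf, hT, hR⟩ := h2 U hUσ
  have hUT : U = T := lim_eq_of_bij' hT hU hf
  subst hUT
  obtain ⟨u, huU, hu, hum⟩ := hR φ hφ ((hcon' U (hne U hU)).1 hUσ)
  exact hmin u huU hu.lev ⟨hu, (hcon' u (hne u hu)).2 hum⟩

end

end Pool.Agent.HZF
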