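import Pool.Agent.Lib_helper12.HZF.Theory

/-!
Models of the theory ZF satisfy the semantic form of the axioms.
-/

set_option linter.unusedSectionVars false
set_option linter.unusedVariables false

universe u

namespace Pool.Agent.HZF

open FirstOrder Language BoundedFormula

section
variable {V : Type u} [Lset.Structure V]

theorem realize_axSep {n : ℕ} (φ : Lset.BoundedFormula Empty (n + 1)) :
    V ⊨ axSep φ ↔ ∀ (p : Fin n → V) (a : V), ∃ b : V, ∀ z : V,
      z ∈ b ↔ z ∈ a ∧ φ.Realize default (Fin.snoc p z) := by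
  unfold axSep Sentence.Realize
  rw [BoundedFormula.realize_alls]
  refine forall_congr' fun p => ?_
  rw [BoundedFormula.realize_all]
  refine forall_congr' fun a => ?_
  rw [BoundedFormula.realize_ex]
  refine exists_congr fun b => ?_
  rw [BoundedFormula.realize_all]
  refine forall_congr' fun z => ?_
  rw [BoundedFormula.realize_iff, realize_bMem, BoundedFormula.realize_inf, realize_bMem,
    BoundedFormula.realize_liftAt (by omega)]
  have e0 : (Fin.snoc (Fin.snoc (Fin.snoc p a : Fin (n + 1) → V) b : Fin (n + 2) → V) z :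
      Fin (n + 3) → V) ⟨n + 2, by omega⟩ = z := Fin.snoc_last _ _
  have e1 : (Fin.snoc (Fin.snoc (Fin.snoc p a : Fin (n + 1) → V) b : Fin (n + 2) → V) z :
      Fin (n + 3) → V) ⟨n + 1, by omega⟩ = b := by
    simp [Fin.snoc]
  have e2 : (Fin.snoc (Fin.snoc (Fin.snoc p a : Fin (n + 1) → V) b : Fin (n + 2) → V) z :
      Fin (n + 3) → V) ⟨n, by omega⟩ = a := by
    simp [Fin.snoc]
  rw [e0, e1, e2]
  have e3 : ((Fin.snoc (Fin.snoc (Fin.snoc p a : Fin (n + 1) → V) b : Fin (n + 2) → V) z :
      Fin (n + 3) → V) ∘ fun i : Fin (n + 1) => if ↑i < n then Fin.castAdd 2 i else Fin.addNat i 2)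
      = Fin.snoc p z := by
    funext i
    refine Fin.lastCases ?_ (fun j => ?_) i
    · simp [Fin.snoc]
    · have := j.2
      simp [Fin.snoc, this]
      rw [dif_pos (by omega)]
      rfl
  rw [e3]

theorem realize_axRepl {n : ℕ} (φ : Lset.BoundedFormula Empty (n + 2)) :
    V ⊨ axRepl φ ↔ ∀ (p : Fin n → V) (a : V),
      (∀ x : V, x ∈ a → ∃ z : V, ∀ y : V, φ.Realize default
        (Fin.snoc (Fin.snoc p x : Fin (n + 1) → V) y) ↔ y = z) →
      ∃ b : V, ∀ x : V, x ∈ a → ∃ y : V, y ∈ b ∧ φ.Realize default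
        (Fin.snoc (Fin.snoc p x : Fin (n + 1) → V) y) := by
  unfold axRepl Sentence.Realize
  rw [BoundedFormula.realize_alls]
  refine forall_congr' fun p => ?_
  rw [BoundedFormula.realize_all]
  refine forall_congr' fun a => ?_
  rw [BoundedFormula.realize_imp]
  refine imp_congr ?_ ?_
  · rw [BoundedFormula.realize_all]
    refine forall_congr' fun x => ?_
    rw [BoundedFormula.realize_imp, realize_bMem, BoundedFormula.realize_ex]
    have e0 : (Fin.snoc (Fin.snoc p a : Fin (n + 1) → V) x : Fin (n + 2) → V)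
        ⟨n + 1, by omega⟩ = x := Fin.snoc_last _ _
    have e1 : (Fin.snoc (Fin.snoc p a : Fin (n + 1) → V) x : Fin (n + 2) → V)
        ⟨n, by omega⟩ = a := by simp [Fin.snoc]
    rw [e0, e1]
    refine imp_congr_right fun _ => exists_congr fun z => ?_
    rw [BoundedFormula.realize_all]
    refine forall_congr' fun y => ?_
    rw [BoundedFormula.realize_iff, realize_bEq, BoundedFormula.realize_liftAt (by omega),
      BoundedFormula.realize_liftAt (by omega)]
    have e2 : (Fin.snoc (Fin.snoc (Fin.snoc (Fin.snoc p a : Fin (n + 1) → V) x :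
        Fin (n + 2) → V) z : Fin (n + 3) → V) y : Fin (n + 4) → V)
        ⟨n + 3, by omega⟩ = y := Fin.snoc_last _ _
    have e3 : (Fin.snoc (Fin.snoc (Fin.snoc (Fin.snoc p a : Fin (n + 1) → V) x :
        Fin (n + 2) → V) z : Fin (n + 3) → V) y : Fin (n + 4) → V)
        ⟨n + 2, by omega⟩ = z := by simp [Fin.snoc]
    rw [e2, e3]
    have e4 : (((Fin.snoc (Fin.snoc (Fin.snoc (Fin.snoc p a : Fin (n + 1) → V) x :
        Fin (n + 2) → V) z : Fin (n + 3) → V) y : Fin (n + 4) → V) ∘
        fun i : Fin (n + 3) => if ↑i < n + 2 then Fin.castAdd 1 i else Fin.addNat i 1) ∘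
        fun i : Fin (n + 2) => if ↑i < n then Fin.castAdd 1 i else Fin.addNat i 1)
        = Fin.snoc (Fin.snoc p x : Fin (n + 1) → V) y := by
      funext i
      refine Fin.lastCases ?_ (fun j => ?_) i
      · simp [Fin.snoc]
      · refine Fin.lastCases ?_ (fun k => ?_) j
        · simp [Fin.snoc]
        · have := k.2
          have h2 : (k : ℕ) < n + 2 := by omega
          simp [Fin.snoc, this, h2]
          intro h3
          omega
    rw [e4]
  · rw [BoundedFormula.realize_ex]
    refine exists_congr fun b => ?_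
    rw [BoundedFormula.realize_all]
    refine forall_congr' fun x => ?_
    rw [BoundedFormula.realize_imp, realize_bMem, BoundedFormula.realize_ex]
    have e0 : (Fin.snoc (Fin.snoc (Fin.snoc p a : Fin (n + 1) → V) b : Fin (n + 2) → V) x :
        Fin (n + 3) → V) ⟨n + 2, by omega⟩ = x := Fin.snoc_last _ _
    have e1 : (Fin.snoc (Fin.snoc (Fin.snoc p a : Fin (n + 1) → V) b : Fin (n + 2) → V) x :
        Fin (n + 3) → V) ⟨n, by omega⟩ = a := by simp [Fin.snoc]
    rw [e0, e1]
    refine imp_congr_right fun _ => exists_congr fun y => ?_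
    rw [BoundedFormula.realize_inf, realize_bMem, BoundedFormula.realize_liftAt (by omega)]
    have e2 : (Fin.snoc (Fin.snoc (Fin.snoc (Fin.snoc p a : Fin (n + 1) → V) b :
        Fin (n + 2) → V) x : Fin (n + 3) → V) y : Fin (n + 4) → V)
        ⟨n + 3, by omega⟩ = y := Fin.snoc_last _ _
    have e3 : (Fin.snoc (Fin.snoc (Fin.snoc (Fin.snoc p a : Fin (n + 1) → V) b :
        Fin (n + 2) → V) x : Fin (n + 3) → V) y : Fin (n + 4) → V)
        ⟨n + 1, by omega⟩ = b := by simp [Fin.snoc]
    rw [e2, e3]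
    have e4 : ((Fin.snoc (Fin.snoc (Fin.snoc (Fin.snoc p a : Fin (n + 1) → V) b :
        Fin (n + 2) → V) x : Fin (n + 3) → V) y : Fin (n + 4) → V) ∘
        fun i : Fin (n + 2) => if ↑i < n then Fin.castAdd 2 i else Fin.addNat i 2)
        = Fin.snoc (Fin.snoc p x : Fin (n + 1) → V) y := by
      funext i
      refine Fin.lastCases ?_ (fun j => ?_) i
      · simp [Fin.snoc]
      · refine Fin.lastCases ?_ (fun k => ?_) j
        · simp [Fin.snoc]
        · have := k.2
          have h2 : (k : ℕ) < n + 2 := by omega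
          simp [Fin.snoc, this, h2]
          rw [dif_pos (by omega)]
          rfl
    rw [e4]

/-- Formulas with parameters. -/
theorem exists_param [Nonempty V] {α : Type u} (φ : Lset.Formula α) (m : ℕ)
    (h : α → Fin m ⊕ V) :
    ∃ (n : ℕ) (p : Fin n → V) (ψ : Lset.BoundedFormula Empty (n + m)), ∀ xs : Fin m → V,
      ψ.Realize default (Fin.append p xs) ↔ φ.Realize (fun a => Sum.elim xs id (h a)) := by
  classical
  let s := φ.freeVarFinset
  let e : s ≃ Fin s.card := s.equivFin
  let f : φ.freeVarFinset → Fin (s.card + m) := fun a =>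
    Sum.elim (fun j => Fin.natAdd s.card j) (fun _ => Fin.castAdd m (e a)) (h a.1)
  let p : Fin s.card → V := fun i =>
    Sum.elim (fun _ => Classical.arbitrary V) id (h (e.symm i).1)
  refine ⟨s.card, p, BoundedFormula.relabel (n := s.card + m)
    (Sum.inr : Fin (s.card + m) → Empty ⊕ Fin (s.card + m))
    (BoundedFormula.restrictFreeVar φ f), fun xs => ?_⟩
  rw [BoundedFormula.realize_relabel]
  have h1 : (Sum.elim (default : Empty → V) ((Fin.append p xs : Fin (s.card + m) → V) ∘
      Fin.castAdd 0) ∘ (Sum.inr : Fin (s.card + m) → Empty ⊕ Fin (s.card + m))) =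
      Fin.append p xs := by
    funext i
    simp
  rw [h1, BoundedFormula.realize_restrictFreeVar (fun a => Sum.elim xs id (h a))]
  · unfold Formula.Realize
    have h2 : ((Fin.append p xs : Fin (s.card + m) → V) ∘ Fin.natAdd (s.card + m)) =
        (default : Fin 0 → V) := Subsingleton.elim _ _
    rw [h2]
  · rintro ⟨a, ha⟩
    dsimp only [f]
    rcases hh : h a with j | c
    · simp
    · simp [p, hh]

/-- Models of `ZF` are models of ZF in the semantic form. -/
theorem isZF_of_models [Nonempty V] (h : V ⊨ ZF) : IsZF V := by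
  have hm : ∀ S ∈ ZF, V ⊨ S := fun S hS => Theory.realize_sentence_of_mem (M := V) (T := ZF) hS
  have hsep : ∀ (Q : V → Prop), DP (fun v => Q (v 0)) → ∀ a : V, ∃ b : V, ∀ z,
      z ∈ b ↔ z ∈ a ∧ Q z := by
    intro Q hQ a
    obtain ⟨φ, hφ⟩ := hQ.out
    obtain ⟨n, p, ψ, hψ⟩ := exists_param φ 1 (Sum.map (fun _ => 0) id)
    obtain ⟨b, hb⟩ := (realize_axSep ψ).1 (hm _ (Or.inl (Or.inr ⟨n, ψ, rfl⟩))) p a
    refine ⟨b, fun z => ?_⟩
    rw [hb z]
    refine and_congr_right fun _ => ?_
    have h1 := hψ (fun _ => z)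
    have e1 : (Fin.append p (fun _ : Fin 1 => z) : Fin (n + 1) → V) = Fin.snoc p z :=
      Fin.append_right_eq_snoc _ _
    rw [e1] at h1
    rw [h1]
    have h2 := hφ (fun _ => z)
    have e2 : (fun a : ℕ ⊕ V => Sum.elim (fun _ : Fin 1 => z) id
        (Sum.map (fun _ : ℕ => (0 : Fin 1)) id a)) = Sum.elim (fun _ => z) id := by
      funext a
      rcases a with a | a <;> rfl
    rw [e2]
    exact h2
  refine ⟨realize_axExt.1 (hm _ ?_), realize_axFound.1 (hm _ ?_), realize_axPair.1 (hm _ ?_),
    realize_axUnion.1 (hm _ ?_), realize_axPower.1 (hm _ ?_), ?_, hsep, ?_⟩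
  any_goals exact Or.inl (Or.inl (by simp))
  · obtain ⟨x, ⟨e, he, he'⟩, hx⟩ := realize_axInf.1 (hm _ (Or.inl (Or.inl (by simp))))
    exact ⟨x, ⟨e, he, he'⟩, hx⟩
  · intro R hR a ha
    obtain ⟨φ, hφ⟩ := hR.out
    obtain ⟨n, p, ψ, hψ⟩ := exists_param φ 2 (Sum.map (fun i => if i = 0 then 0 else 1) id)
    have key : ∀ x y : V, ψ.Realize default (Fin.snoc (Fin.snoc p x : Fin (n + 1) → V) y) ↔
        R x y := by
      intro x y
      have h1 := hψ ![x, y]
      have e1 : (Fin.append p ![x, y] : Fin (n + 2) → V) =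
          Fin.snoc (Fin.snoc p x : Fin (n + 1) → V) y := by
        funext i
        refine Fin.lastCases ?_ (fun j => ?_) i
        · have : Fin.last (n + 1) = Fin.natAdd n (1 : Fin 2) := rfl
          rw [this, Fin.append_right, ← this, Fin.snoc_last]
          rfl
        · refine Fin.lastCases ?_ (fun k => ?_) j
          · have : (Fin.last n).castSucc = Fin.natAdd n (0 : Fin 2) := rfl
            rw [this, Fin.append_right, ← this, Fin.snoc_castSucc, Fin.snoc_last]
            rfl
          · have : (k.castSucc).castSucc = Fin.castAdd 2 k := rfl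
            rw [this, Fin.append_left, ← this, Fin.snoc_castSucc, Fin.snoc_castSucc]
      rw [e1] at h1
      rw [h1]
      have h2 := hφ (fun i => if i = 0 then x else y)
      have e2 : (fun a : ℕ ⊕ V => Sum.elim ![x, y] id
          (Sum.map (fun i : ℕ => if i = 0 then (0 : Fin 2) else 1) id a)) =
          Sum.elim (fun i => if i = 0 then x else y) id := by
        funext a
        rcases a with a | a
        · by_cases ha : a = 0 <;> simp [ha]
        · rfl
      rw [e2]
      simpa using h2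
    obtain ⟨b, hb⟩ := (realize_axRepl ψ).1 (hm _ (Or.inr ⟨n, ψ, rfl⟩)) p a (by
      intro x hx
      obtain ⟨z, hz, huz⟩ := ha x hx
      refine ⟨z, fun y => ?_⟩
      rw [key]
      exact ⟨fun h => huz y h, fun h => h ▸ hz⟩)
    have hD : DP (fun v : ℕ → V => ∃ x ∈ a, R x (v 0)) := by
      have : DP (fun v : ℕ → V => R (v 0) (v 1)) := hR
      have h1 : ∀ (t s : (ℕ → V) → V) [DF t] [DF s], DP (fun v => R (t v) (s v)) :=
        fun t s ht hs => DP.comp2 hR ht hs
      infer_instance
    obtain ⟨c, hc⟩ := hsep (fun y => ∃ x ∈ a, R x y) hD b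
    refine ⟨c, fun y => ?_⟩
    rw [hc y]
    refine ⟨fun h => h.2, fun h => ⟨?_, h⟩⟩
    obtain ⟨x, hx, hxy⟩ := h
    obtain ⟨y', hy', hxy'⟩ := hb x hx
    rw [key] at hxy'
    rw [(ha x hx).unique hxy hxy']
    exact hy'

end

end Pool.Agent.HZF
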