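import Mathlib

/-!
# The notions entering the statement about spectra

For an arbitrary structure `V` for the first-order language of set theory we define what it means
that `V` is a model of ZF, and, as first-order notions inside `V`, the codes of formulas of the
logic `L(I)` with the Härtig quantifier and of second-order logic, structures, satisfaction and
spectra.
-/

universe u

namespace Pool.Agent.HZF

open FirstOrder Language

/-- The only symbol of the language of set theory. -/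
inductive MemRel : ℕ → Type
  | mem : MemRel 2

/-- The first-order language of set theory, with one binary relation symbol. -/
def Lset : FirstOrder.Language.{0, 0} := ⟨fun _ => Empty, MemRel⟩

/-- In a structure for the language of set theory, `x ∈ y` is the interpretation of the
relation symbol. -/
instance memInst {V : Type u} [Lset.Structure V] : Membership V V :=
  ⟨fun y x => Structure.RelMap (L := Lset) MemRel.mem ![x, y]⟩

section notions
variable {V : Type u} [Lset.Structure V]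

/-! ### Elementary notions -/

/-- `x ⊆ y`. -/
def Sub (x y : V) : Prop := ∀ z ∈ x, z ∈ y

/-- `x = ∅`. -/
def IsEmp (x : V) : Prop := ∀ z, z ∉ x

/-- `p = {x, y}`. -/
def IsUpair (p x y : V) : Prop := ∀ z, z ∈ p ↔ z = x ∨ z = y

/-- `p` is the (Kuratowski) ordered pair of `x` and `y`. -/
def IsOpair (p x y : V) : Prop := ∃ a b, IsUpair a x x ∧ IsUpair b x y ∧ IsUpair p a b

/-- `y = x ∪ {x}`. -/
def IsSucc (y x : V) : Prop := ∀ z, z ∈ y ↔ z ∈ x ∨ z = x

/-- `I` contains `∅` and is closed under `x ↦ x ∪ {x}`. -/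
def IsInductive (I : V) : Prop := (∃ e ∈ I, IsEmp e) ∧ ∀ x ∈ I, ∃ y ∈ I, IsSucc y x

/-- `n` is a natural number: it lies in every inductive set. -/
def IsNat (n : V) : Prop := ∀ I : V, IsInductive I → n ∈ I

/-- `⟨x, y⟩ ∈ f`. -/
def OMem (x y f : V) : Prop := ∃ p ∈ f, IsOpair p x y

/-- `f` is a function from `d` to `X`. -/
def IsFun (f d X : V) : Prop :=
  (∀ p ∈ f, ∃ x ∈ d, ∃ y ∈ X, IsOpair p x y) ∧ ∀ x ∈ d, ∃! y, OMem x y f

/-! ### Logics -/

/-- `x` is the numeral `k` (a von Neumann natural number). -/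
def IsNum : ℕ → V → Prop
  | 0, x => IsEmp x
  | (k + 1), x => ∃ y, IsNum k y ∧ IsSucc x y

/-- `g = ⟨k, a⟩`, the pair of the numeral `k` and `a`. -/
def IsCode1 (k : ℕ) (g a : V) : Prop := ∃ t, IsNum k t ∧ IsOpair g t a

/-- `g = ⟨k, ⟨a, b⟩⟩`. -/
def IsCode2 (k : ℕ) (g a b : V) : Prop := ∃ p, IsOpair p a b ∧ IsCode1 k g p

/-- `t = s ∘ v` (for functions `s`, `v` such that the values of `v` lie in the domain
of `s`). -/
def IsComp (t s v : V) : Prop :=
  (∀ p ∈ t, ∃ l j a, IsOpair p l a ∧ OMem l j v ∧ OMem j a s) ∧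
  ∀ l j, OMem l j v → ∃ a, OMem j a s ∧ OMem l a t

/-- `s' = s ∪ {⟨n, x⟩}`: the finite sequence `s` of length `n` is prolonged by `x`. -/
def IsExt (s' s n x : V) : Prop := ∀ p, p ∈ s' ↔ p ∈ s ∨ IsOpair p n x

/-- `A` is a structure on `X`: a set of pairs `⟨i, t⟩` with `i` a natural number and `t` a finite
sequence of elements of `X`. For natural numbers `i`, `k` the `i`-th relation symbol of arity `k`
is interpreted by the set of all `t : k → X` with `⟨i, t⟩ ∈ A`. -/
def IsStr (X A : V) : Prop :=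
  ∀ p ∈ A, ∃ i t k, IsOpair p i t ∧ IsNat i ∧ IsNat k ∧ IsFun t k X

/-- `f` is a bijection from `B` onto `C`. -/
def IsBij (f B C : V) : Prop := IsFun f B C ∧ ∀ y ∈ C, ∃! x, OMem x y f

/-- There is a bijection from `B` onto `C`. -/
def Equinum (B C : V) : Prop := ∃ f, IsBij f B C

/-! #### Logic with the Härtig quantifier -/

/-- `G` is a set of pairs `⟨g, n⟩` where `n` is a natural number and `g` codes a formula of `L(I)`
in the variables `x_i`, `i < n`, together with its subformulas: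
`⟨0, ⟨i, j⟩⟩` is `x_i = x_j`; `⟨1, ⟨i, v⟩⟩` with `v : k → n` is the `i`-th relation symbol of
arity `k` applied to `x_{v(0)}, …, x_{v(k-1)}`; `⟨2, ⟨a, b⟩⟩` is `¬ (a ∧ b)`; `⟨3, a⟩` is
`∀ x_n a`; `⟨4, ⟨a, b⟩⟩` is `I x_n x_n (a, b)`. -/
def LIForm (G : V) : Prop :=
  ∀ q ∈ G, ∃ g n, IsOpair q g n ∧ IsNat n ∧
    ((∃ i j, IsCode2 0 g i j ∧ i ∈ n ∧ j ∈ n) ∨
     (∃ i v k, IsCode2 1 g i v ∧ IsNat i ∧ IsNat k ∧ IsFun v k n) ∨
     (∃ a b, IsCode2 2 g a b ∧ OMem a n G ∧ OMem b n G) ∨
     (∃ a m, IsCode1 3 g a ∧ IsSucc m n ∧ OMem a m G) ∨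
     (∃ a b m, IsCode2 4 g a b ∧ IsSucc m n ∧ OMem a m G ∧ OMem b m G))

/-- `B` is the set of the `x ∈ X` such that the formula `a` is true at `s` prolonged by `x`,
according to the truth set `W`. -/
def IsDefSet (X W a s n B : V) : Prop :=
  ∀ x, x ∈ B ↔ x ∈ X ∧ ∃ s', IsExt s' s n x ∧ OMem a s' W

/-- The clause for the truth of the formula `g` at the assignment `s : n → X` in the structure
`(X, A)`, in terms of the truth set `W` of pairs `⟨a, s'⟩`. -/
def LIClause (X A W g n s : V) : Prop :=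
  (∃ i j x, IsCode2 0 g i j ∧ OMem i x s ∧ OMem j x s) ∨
  (∃ i v t, IsCode2 1 g i v ∧ IsComp t s v ∧ OMem i t A) ∨
  (∃ a b, IsCode2 2 g a b ∧ ¬ (OMem a s W ∧ OMem b s W)) ∨
  (∃ a, IsCode1 3 g a ∧ ∀ x ∈ X, ∃ s', IsExt s' s n x ∧ OMem a s' W) ∨
  (∃ a b, IsCode2 4 g a b ∧
    ∃ B C, IsDefSet X W a s n B ∧ IsDefSet X W b s n C ∧ Equinum B C)

/-- `W` is a satisfaction relation of the structure `(X, A)` for the formulas in `G`. -/
def LISat (X A G W : V) : Prop :=
  ∀ g n s, OMem g n G → IsFun s n X → (OMem g s W ↔ LIClause X A W g n s)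

/-- `φ` is (the code of) a sentence of `L(I)`. -/
def LISentence (φ : V) : Prop := ∃ G e, LIForm G ∧ IsEmp e ∧ OMem φ e G

/-- Some structure with universe `X` satisfies the `L(I)`-sentence `φ`. -/
def LIModel (X φ : V) : Prop :=
  ∃ A G W e, IsStr X A ∧ LIForm G ∧ IsEmp e ∧ OMem φ e G ∧ LISat X A G W ∧ OMem φ e W

/-! #### Second-order logic -/

/-- `G` is a set of pairs `⟨g, n⟩` where `n` is a natural number and `g` codes a formula of
second-order logic in the first-order variables `x_i`, `i < n`, together with its subformulas.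
The codes are as for `L(I)`, without `⟨4, ⟨a, b⟩⟩`, and with `⟨5, ⟨⟨i, k⟩, a⟩⟩` for
`∀ R a` where `R` is the `i`-th relation symbol (relation variable) of arity `k`. -/
def SOForm (G : V) : Prop :=
  ∀ q ∈ G, ∃ g n, IsOpair q g n ∧ IsNat n ∧
    ((∃ i j, IsCode2 0 g i j ∧ i ∈ n ∧ j ∈ n) ∨
     (∃ i v k, IsCode2 1 g i v ∧ IsNat i ∧ IsNat k ∧ IsFun v k n) ∨
     (∃ a b, IsCode2 2 g a b ∧ OMem a n G ∧ OMem b n G) ∨
     (∃ a m, IsCode1 3 g a ∧ IsSucc m n ∧ OMem a m G) ∨
     (∃ r i k a, IsOpair r i k ∧ IsCode2 5 g r a ∧ IsNat i ∧ IsNat k ∧ OMem a n G))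

/-- `⟨a, ⟨A, s⟩⟩ ∈ W`: the formula `a` is true in the structure `(X, A)` at `s`. -/
def SMem (a A s W : V) : Prop := ∃ q, IsOpair q A s ∧ OMem a q W

/-- The structures `A` and `A'` on `X` differ at most in the interpretation of the `i`-th
relation symbol of arity `k`. -/
def Agree (X i k A A' : V) : Prop :=
  ∀ p, (p ∈ A ↔ p ∈ A') ∨ ∃ t, IsOpair p i t ∧ IsFun t k X

/-- The clause for the truth of the formula `g` at the assignment `s : n → X` in the structure
`(X, A)`. -/
def SOClause (X A W g n s : V) : Prop :=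
  (∃ i j x, IsCode2 0 g i j ∧ OMem i x s ∧ OMem j x s) ∨
  (∃ i v t, IsCode2 1 g i v ∧ IsComp t s v ∧ OMem i t A) ∨
  (∃ a b, IsCode2 2 g a b ∧ ¬ (SMem a A s W ∧ SMem b A s W)) ∨
  (∃ a, IsCode1 3 g a ∧ ∀ x ∈ X, ∃ s', IsExt s' s n x ∧ SMem a A s' W) ∨
  (∃ r i k a, IsOpair r i k ∧ IsCode2 5 g r a ∧
    ∀ A', IsStr X A' → Agree X i k A A' → SMem a A' s W)

/-- `W` is a satisfaction relation for second-order formulas in `G` over the domain `X`. -/
def SOSat (X G W : V) : Prop :=
  ∀ g n s A, OMem g n G → IsFun s n X → IsStr X A → (SMem g A s W ↔ SOClause X A W g n s)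

/-- `σ` is (the code of) a sentence of second-order logic. -/
def SOSentence (σ : V) : Prop := ∃ G e, SOForm G ∧ IsEmp e ∧ OMem σ e G

/-- Some structure with universe `X` satisfies the second-order sentence `σ`. -/
def SOModel (X σ : V) : Prop :=
  ∃ A G W e, IsStr X A ∧ SOForm G ∧ IsEmp e ∧ OMem σ e G ∧ SOSat X G W ∧ SMem σ A e W

/-! ### Spectra -/

/-- The cardinality of `X` belongs to the spectrum of the `L(I)`-sentence `φ`: some set of the same
cardinality is the universe of a model of `φ`. -/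
def InLISpec (X φ : V) : Prop := ∃ Y, Equinum X Y ∧ LIModel Y φ

/-- The cardinality of `X` belongs to the spectrum of the second-order sentence `σ`. -/
def InSOSpec (X σ : V) : Prop := ∃ Y, Equinum X Y ∧ SOModel Y σ

end notions

/-- Every second-order spectrum is an `L(I)`-spectrum, as a statement about the structure `V` for
the language of set theory. (Structures have nonempty universes.) -/
def SpectraStatement (V : Type u) [Lset.Structure V] : Prop :=
  ∀ σ : V, SOSentence σ → ∃ φ : V, LISentence φ ∧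
    ∀ X : V, (∃ x, x ∈ X) → (InSOSpec X σ ↔ InLISpec X φ)

/-! ### Models of ZF -/

/-- The structure `V` for the language of set theory is a model of ZF. The axioms are
Extensionality, Foundation, Pairing, Union, Power set, Infinity and, for every first-order formula
`φ` in the variables `x_0, x_1, …` and all values `v` of its variables, Separation for `φ(x_0)` and
Replacement for `φ(x_0, x_1)`. -/
def ModelsZF (V : Type u) [Lset.Structure V] : Prop :=
  (∀ x y : V, (∀ z, z ∈ x ↔ z ∈ y) → x = y) ∧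
  (∀ x : V, (∃ y, y ∈ x) → ∃ y ∈ x, ∀ z ∈ x, z ∉ y) ∧
  (∀ x y : V, ∃ p : V, ∀ z, z ∈ p ↔ z = x ∨ z = y) ∧
  (∀ x : V, ∃ u : V, ∀ z, z ∈ u ↔ ∃ y ∈ x, z ∈ y) ∧
  (∀ x : V, ∃ p : V, ∀ z, z ∈ p ↔ Sub z x) ∧
  (∃ x : V, IsInductive x) ∧
  (∀ (φ : Lset.Formula ℕ) (v : ℕ → V) (a : V), ∃ b : V, ∀ z,
    z ∈ b ↔ z ∈ a ∧ φ.Realize (Function.update v 0 z)) ∧
  (∀ (φ : Lset.Formula ℕ) (v : ℕ → V) (a : V),
    (∀ x ∈ a, ∃! y, φ.Realize (Function.update (Function.update v 0 x) 1 y)) →
    ∃ b : V, ∀ y, y ∈ b ↔ ∃ x ∈ a, φ.Realize (Function.update (Function.update v 0 x) 1 y))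

end Pool.Agent.HZF
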