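import Pool.Agent.Lib_helper12.HZF.Collapse

/-!
Evaluation, inside a model of ZF, of the satisfaction relation for codes of standard
second-order formulas.
-/

set_option linter.unusedSectionVars false

universe u

namespace Pool.Agent.HZF

open FirstOrder Language

section
variable {V : Type u} [Lset.Structure V] [IsZF V]

/-! ### Numerals and finite sequences -/

/-- Numerals. -/
noncomputable def num : ℕ → V
  | 0 => emp
  | (k + 1) => succ (num k)

theorem isNum_iff {k : ℕ} {x : V} : IsNum k x ↔ x = num k := by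
  induction k generalizing x with
  | zero => exact isEmp_iff
  | succ k ih =>
    constructor
    · rintro ⟨y, hy, hx⟩
      rw [isSucc_iff.1 hx, ih.1 hy]; rfl
    · rintro rfl
      exact ⟨num k, ih.2 rfl, isSucc_iff.2 rfl⟩

theorem num_mem_omega (k : ℕ) : (num k : V) ∈ (omega : V) := by
  induction k with
  | zero => exact emp_mem_omega
  | succ k ih => exact succ_mem_omega ih

theorem isNat_num (k : ℕ) : IsNat (num k : V) := mem_omega.1 (num_mem_omega k)

theorem mem_num {k : ℕ} {z : V} : z ∈ (num k : V) ↔ ∃ i < k, z = num i := by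
  induction k generalizing z with
  | zero =>
    constructor
    · intro h; exact absurd h (not_mem_emp z)
    · rintro ⟨i, hi, _⟩; omega
  | succ k ih =>
    have : (num (k + 1) : V) = succ (num k) := rfl
    rw [this, mem_succ, ih]
    constructor
    · rintro (⟨i, hi, rfl⟩ | rfl)
      · exact ⟨i, by omega, rfl⟩
      · exact ⟨k, by omega, rfl⟩
    · rintro ⟨i, hi, rfl⟩
      rcases Nat.lt_succ_iff_lt_or_eq.1 hi with h | h
      · exact Or.inl ⟨i, h, rfl⟩
      · exact Or.inr (by rw [h])

theorem num_inj {i j : ℕ} : (num i : V) = num j ↔ i = j := by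
  constructor
  · intro h
    rcases lt_trichotomy i j with h1 | h1 | h1
    · have : (num i : V) ∈ (num j : V) := mem_num.2 ⟨i, h1, rfl⟩
      rw [h] at this
      exact absurd this (not_mem_self _)
    · exact h1
    · have : (num j : V) ∈ (num i : V) := mem_num.2 ⟨j, h1, rfl⟩
      rw [h] at this
      exact absurd this (not_mem_self _)
  · rintro rfl; rfl

theorem num_mem_num {i k : ℕ} : (num i : V) ∈ (num k : V) ↔ i < k := by
  rw [mem_num]
  constructor
  · rintro ⟨j, hj, h⟩
    rw [num_inj] at h
    omega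
  · intro h; exact ⟨i, h, rfl⟩

/-- The finite sequence with entries `a 0, …, a (k-1)`. -/
noncomputable def tup : (k : ℕ) → (Fin k → V) → V
  | 0, _ => emp
  | (k + 1), a => un (tup k (fun i => a i.castSucc)) (sing (opair (num k) (a (Fin.last k))))

theorem mem_tup {k : ℕ} {a : Fin k → V} {p : V} :
    p ∈ tup k a ↔ ∃ i : Fin k, p = opair (num i) (a i) := by
  induction k with
  | zero =>
    constructor
    · intro h; exact absurd h (not_mem_emp p)
    · rintro ⟨i, _⟩; exact i.elim0
  | succ k ih =>
    have : tup (k + 1) a = un (tup k (fun i => a i.castSucc))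
      (sing (opair (num k) (a (Fin.last k)))) := rfl
    rw [this, mem_un, ih, mem_sing]
    constructor
    · rintro (⟨i, h⟩ | h)
      · exact ⟨i.castSucc, h⟩
      · exact ⟨Fin.last k, h⟩
    · rintro ⟨i, h⟩
      refine Fin.lastCases (fun h => Or.inr h) (fun j h => Or.inl ⟨j, h⟩) i h

theorem opair_mem_tup {k : ℕ} {a : Fin k → V} {i : ℕ} {x : V} :
    opair (num i) x ∈ tup k a ↔ ∃ h : i < k, a ⟨i, h⟩ = x := by
  rw [mem_tup]
  constructor
  · rintro ⟨j, h⟩
    obtain ⟨h1, h2⟩ := opair_inj.1 h
    have h3 := num_inj.1 h1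
    subst h3
    exact ⟨j.2, h2.symm⟩
  · rintro ⟨h, rfl⟩
    exact ⟨⟨i, h⟩, rfl⟩

theorem isFun_tup {k : ℕ} {a : Fin k → V} {X : V} (h : ∀ i, a i ∈ X) :
    IsFun (tup k a) (num k) X := by
  rw [isFun_iff]
  constructor
  · intro p hp
    obtain ⟨i, rfl⟩ := mem_tup.1 hp
    exact ⟨num i, num_mem_num.2 i.2, a i, h i, rfl⟩
  · intro x hx
    obtain ⟨i, hi, rfl⟩ := mem_num.1 hx
    refine ⟨a ⟨i, hi⟩, opair_mem_tup.2 ⟨hi, rfl⟩, fun y hy => ?_⟩
    obtain ⟨_, h⟩ := opair_mem_tup.1 hy
    exact h.symm

theorem exists_tup {k : ℕ} {t X : V} (h : IsFun t (num k) X) :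
    ∃ a : Fin k → V, (∀ i, a i ∈ X) ∧ t = tup k a := by
  induction k generalizing t with
  | zero =>
    refine ⟨fun i => i.elim0, fun i => i.elim0, ?_⟩
    exact isFun_emp.1 h
  | succ k ih =>
    obtain ⟨s, x, hs, hx, rfl⟩ := isFun_succ h
    obtain ⟨a, ha, rfl⟩ := ih hs
    refine ⟨Fin.snoc a x, fun i => ?_, ?_⟩
    · refine Fin.lastCases ?_ (fun j => ?_) i
      · rw [Fin.snoc_last]; exact hx
      · rw [Fin.snoc_castSucc]; exact ha j
    · have : tup (k + 1) (Fin.snoc a x : Fin (k + 1) → V) =
        un (tup k (fun i => (Fin.snoc a x : Fin (k + 1) → V) i.castSucc))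
        (sing (opair (num k) ((Fin.snoc a x : Fin (k + 1) → V) (Fin.last k)))) := rfl
      rw [this]
      simp only [Fin.snoc_castSucc, Fin.snoc_last]

theorem tup_snoc {k : ℕ} {a : Fin k → V} {x : V} :
    un (tup k a) (sing (opair (num k) x)) = tup (k + 1) (Fin.snoc a x) := by
  have : tup (k + 1) (Fin.snoc a x : Fin (k + 1) → V) =
    un (tup k (fun i => (Fin.snoc a x : Fin (k + 1) → V) i.castSucc))
    (sing (opair (num k) ((Fin.snoc a x : Fin (k + 1) → V) (Fin.last k)))) := rfl
  rw [this]
  simp only [Fin.snoc_castSucc, Fin.snoc_last]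

theorem tup_inj {k : ℕ} {a b : Fin k → V} : tup k a = tup k b ↔ a = b := by
  constructor
  · intro h
    funext i
    have : opair (num i) (a i) ∈ tup k b := by rw [← h]; exact opair_mem_tup.2 ⟨i.2, rfl⟩
    obtain ⟨_, h⟩ := opair_mem_tup.1 this
    exact h.symm
  · rintro rfl; rfl

theorem tup_len {k l : ℕ} {a : Fin k → V} {b : Fin l → V} (h : tup k a = tup l b) : k = l := by
  by_contra hne
  rcases Nat.lt_or_gt_of_ne hne with h1 | h1
  · have : opair (num k) (b ⟨k, h1⟩) ∈ tup k a := by rw [h]; exact opair_mem_tup.2 ⟨h1, rfl⟩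
    obtain ⟨h2, _⟩ := opair_mem_tup.1 this
    exact absurd h2 (lt_irrefl k)
  · have : opair (num l) (a ⟨l, h1⟩) ∈ tup l b := by rw [← h]; exact opair_mem_tup.2 ⟨h1, rfl⟩
    obtain ⟨h2, _⟩ := opair_mem_tup.1 this
    exact absurd h2 (lt_irrefl l)

theorem isFun_dom_uniq {t d d' X X' : V} (h : IsFun t d X) (h' : IsFun t d' X') : d = d' := by
  refine ext fun x => ⟨fun hx => ?_, fun hx => ?_⟩
  · obtain ⟨y, hy⟩ := h.exists hx; exact h'.dom hy
  · obtain ⟨y, hy⟩ := h'.exists hx; exact h.dom hy

theorem isCode1_iff' {k : ℕ} {g a : V} : IsCode1 k g a ↔ g = opair (num k) a := by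
  simp [IsCode1, isNum_iff, isOpair_iff]

theorem isCode2_iff' {k : ℕ} {g a b : V} : IsCode2 k g a b ↔ g = opair (num k) (opair a b) := by
  simp [IsCode2, isCode1_iff', isOpair_iff]

theorem sMem_iff {a A s W : V} : SMem a A s W ↔ opair a (opair A s) ∈ W := by
  simp [SMem, isOpair_iff, oMem_iff]

/-! ### Standard second-order formulas -/

/-- Second-order formulas (in the first-order variables `x_0, x_1, …`, with de Bruijn
levels). -/
inductive SOF : Type
  | eq (i j : ℕ) : SOF
  | rel (r k : ℕ) (v : Fin k → ℕ) : SOF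
  | nand (a b : SOF) : SOF
  | all (a : SOF) : SOF
  | so (r k : ℕ) (a : SOF) : SOF

/-- The formula is a formula in the variables `x_i`, `i < n`. -/
def SOF.WF : ℕ → SOF → Prop
  | n, .eq i j => i < n ∧ j < n
  | n, .rel _ _ v => ∀ i, v i < n
  | n, .nand a b => a.WF n ∧ b.WF n
  | n, .all a => a.WF (n + 1)
  | n, .so _ _ a => a.WF n

/-- The code of a formula. -/
noncomputable def SOF.code : SOF → V
  | .eq i j => opair (num 0) (opair (num i) (num j))
  | .rel r k v => opair (num 1) (opair (num r) (tup k (fun i => num (v i))))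
  | .nand a b => opair (num 2) (opair a.code b.code)
  | .all a => opair (num 3) a.code
  | .so r k a => opair (num 5) (opair (opair (num r) (num k)) a.code)

theorem code_inj : ∀ {a b : SOF}, (a.code : V) = b.code → a = b := by
  intro a
  induction a with
  | eq i j =>
    intro b h
    cases b <;> simp [SOF.code, opair_inj, num_inj] at h ⊢
    exact h
  | rel r k v =>
    intro b h
    cases b with
    | rel r' k' v' =>
      simp only [SOF.code, opair_inj, num_inj, true_and] at h
      obtain ⟨rfl, h⟩ := h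
      have := tup_len h
      subst this
      have h2 := tup_inj.1 h
      have : v = v' := by
        funext i
        exact num_inj.1 (congrFun h2 i)
      rw [this]
    | _ => simp [SOF.code, opair_inj, num_inj] at h
  | nand a b iha ihb =>
    intro c h
    cases c <;> simp [SOF.code, opair_inj, num_inj] at h ⊢
    exact ⟨iha h.1, ihb h.2⟩
  | all a iha =>
    intro c h
    cases c <;> simp [SOF.code, opair_inj, num_inj] at h ⊢
    exact iha h
  | so r k a iha =>
    intro c h
    cases c <;> simp [SOF.code, opair_inj, num_inj] at h ⊢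
    exact ⟨h.1.1, h.1.2, iha h.2⟩

/-- Truth of a standard formula in `n` variables, in the structure `(X, A)`, at the finite
sequence `s`. -/
def HoldsV (X : V) : SOF → ℕ → V → V → Prop
  | .eq i j, _, _, s => ∃ x, opair (num i) x ∈ s ∧ opair (num j) x ∈ s
  | .rel r k v, _, A, s => ∃ t, IsComp t s (tup k (fun i => num (v i))) ∧ opair (num r) t ∈ A
  | .nand a b, n, A, s => ¬ (HoldsV X a n A s ∧ HoldsV X b n A s)
  | .all a, n, A, s => ∀ x ∈ X, HoldsV X a (n + 1) A (un s (sing (opair (num n) x)))
  | .so r k a, n, A, s => ∀ A', IsStr X A' → Agree X (num r) (num k) A A' → HoldsV X a n A' s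

theorem dp_holdsV (X : V) (a : SOF) : ∀ (n : ℕ) {A s : (ℕ → V) → V}, DF A → DF s →
    DP (fun v => HoldsV X a n (A v) (s v)) := by
  induction a with
  | eq i j =>
    intro n A s hA hs
    refine DP.comp2 (R := fun A s => HoldsV X (.eq i j) n A s) ?_ hA hs
    unfold HoldsV; infer_instance
  | rel r k v =>
    intro n A s hA hs
    refine DP.comp2 (R := fun A s => HoldsV X (.rel r k v) n A s) ?_ hA hs
    unfold HoldsV; infer_instance
  | nand a b iha ihb =>
    intro n A s hA hs
    have h1 : ∀ (A s : (ℕ → V) → V) [DF A] [DF s], DP (fun v => HoldsV X a n (A v) (s v)) :=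
      fun A s h1 h2 => iha n h1 h2
    have h2 : ∀ (A s : (ℕ → V) → V) [DF A] [DF s], DP (fun v => HoldsV X b n (A v) (s v)) :=
      fun A s h1 h2 => ihb n h1 h2
    refine DP.comp2 (R := fun A s => HoldsV X (.nand a b) n A s) ?_ hA hs
    unfold HoldsV; infer_instance
  | all a iha =>
    intro n A s hA hs
    have h1 : ∀ (A s : (ℕ → V) → V) [DF A] [DF s],
        DP (fun v => HoldsV X a (n + 1) (A v) (s v)) := fun A s h1 h2 => iha (n + 1) h1 h2
    refine DP.comp2 (R := fun A s => HoldsV X (.all a) n A s) ?_ hA hs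
    unfold HoldsV; infer_instance
  | so r k a iha =>
    intro n A s hA hs
    have h1 : ∀ (A s : (ℕ → V) → V) [DF A] [DF s], DP (fun v => HoldsV X a n (A v) (s v)) :=
      fun A s h1 h2 => iha n h1 h2
    refine DP.comp2 (R := fun A s => HoldsV X (.so r k a) n A s) ?_ hA hs
    unfold HoldsV; infer_instance

instance (X : V) (a : SOF) (n : ℕ) {A s : (ℕ → V) → V} [hA : DF A] [hs : DF s] :
    DP (fun v => HoldsV X a n (A v) (s v)) := dp_holdsV X a n hA hs

/-! ### The clause at standard codes -/

theorem soClause_eq {X A W n s : V} {i j : ℕ} :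
    SOClause X A W (SOF.eq i j).code n s ↔
      ∃ x, opair (num i) x ∈ s ∧ opair (num j) x ∈ s := by
  simp [SOClause, SOF.code, isCode1_iff', isCode2_iff', opair_inj, num_inj, oMem_iff]

theorem soClause_rel {X A W n s : V} {r k : ℕ} {v : Fin k → ℕ} :
    SOClause X A W (SOF.rel r k v).code n s ↔
      ∃ t, IsComp t s (tup k (fun i => num (v i))) ∧ opair (num r) t ∈ A := by
  simp [SOClause, SOF.code, isCode1_iff', isCode2_iff', opair_inj, num_inj, oMem_iff]

theorem soClause_nand {X A W n s : V} {a b : SOF} :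
    SOClause X A W (SOF.nand a b).code n s ↔ ¬ (SMem a.code A s W ∧ SMem b.code A s W) := by
  simp [SOClause, SOF.code, isCode1_iff', isCode2_iff', opair_inj, num_inj]

theorem soClause_all {X A W n s : V} {a : SOF} :
    SOClause X A W (SOF.all a).code n s ↔
      ∀ x ∈ X, SMem a.code A (un s (sing (opair n x))) W := by
  simp [SOClause, SOF.code, isCode1_iff', isCode2_iff', opair_inj, num_inj, isExt_iff]

theorem soClause_so {X A W n s : V} {r k : ℕ} {a : SOF} :
    SOClause X A W (SOF.so r k a).code n s ↔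
      ∀ A', IsStr X A' → Agree X (num r) (num k) A A' → SMem a.code A' s W := by
  simp [SOClause, SOF.code, isCode1_iff', isCode2_iff', opair_inj, num_inj, isOpair_iff]

end

end Pool.Agent.HZF
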