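import Pool.Agent.Lib_helper12.HZF.SOEval

/-!
Evaluation of the internal second-order satisfaction relation at codes of standard sentences:
`SOModel X ⌜a⌝` holds iff some structure on `X` satisfies `a`.
-/

set_option linter.unusedSectionVars false

universe u

namespace Pool.Agent.HZF

open FirstOrder Language

section
variable {V : Type u} [Lset.Structure V] [IsZF V]

theorem soForm_at {G g n : V} (hG : SOForm G) (h : OMem g n G) :
    IsNat n ∧
    ((∃ i j, IsCode2 0 g i j ∧ i ∈ n ∧ j ∈ n) ∨
     (∃ i v k, IsCode2 1 g i v ∧ IsNat i ∧ IsNat k ∧ IsFun v k n) ∨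
     (∃ a b, IsCode2 2 g a b ∧ OMem a n G ∧ OMem b n G) ∨
     (∃ a m, IsCode1 3 g a ∧ IsSucc m n ∧ OMem a m G) ∨
     (∃ r i k a, IsOpair r i k ∧ IsCode2 5 g r a ∧ IsNat i ∧ IsNat k ∧ OMem a n G)) := by
  obtain ⟨q, hq, hqg⟩ := h
  obtain ⟨g', n', hq', hn, hcases⟩ := hG q hq
  rw [isOpair_iff] at hqg hq'
  rw [hqg, opair_inj] at hq'
  obtain ⟨rfl, rfl⟩ := hq'
  exact ⟨hn, hcases⟩

theorem soForm_nand {G n : V} {a b : SOF} (hG : SOForm G) (h : OMem (SOF.nand a b).code n G) :
    OMem a.code n G ∧ OMem b.code n G := by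
  have := (soForm_at hG h).2
  simpa [SOF.code, isCode1_iff', isCode2_iff', opair_inj, num_inj] using this

theorem soForm_all {G n : V} {a : SOF} (hG : SOForm G) (h : OMem (SOF.all a).code n G) :
    OMem a.code (succ n) G := by
  have := (soForm_at hG h).2
  simpa [SOF.code, isCode1_iff', isCode2_iff', opair_inj, num_inj, isSucc_iff] using this

theorem soForm_so {G n : V} {r k : ℕ} {a : SOF} (hG : SOForm G)
    (h : OMem (SOF.so r k a).code n G) : OMem a.code n G := by
  have := (soForm_at hG h).2
  simp [SOF.code, isCode1_iff', isCode2_iff', opair_inj, num_inj, isOpair_iff] at this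
  exact this.2.2

/-- Internal satisfaction of the code of a standard formula is satisfaction. -/
theorem holds_of_sat {X G W : V} (hG : SOForm G) (hW : SOSat X G W) (a : SOF) :
    ∀ (n : ℕ), OMem a.code (num n) G → ∀ A s, IsFun s (num n) X → IsStr X A →
      (SMem a.code A s W ↔ HoldsV X a n A s) := by
  induction a with
  | eq i j =>
    intro n hn A s hs hA
    rw [hW _ _ s A hn hs hA, soClause_eq]; rfl
  | rel r k v =>
    intro n hn A s hs hA
    rw [hW _ _ s A hn hs hA, soClause_rel]; rfl
  | nand a b iha ihb =>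
    intro n hn A s hs hA
    obtain ⟨h1, h2⟩ := soForm_nand hG hn
    rw [hW _ _ s A hn hs hA, soClause_nand, iha n h1 A s hs hA, ihb n h2 A s hs hA]; rfl
  | all a iha =>
    intro n hn A s hs hA
    have h1 := soForm_all hG hn
    rw [hW _ _ s A hn hs hA, soClause_all]
    refine forall_congr' fun x => imp_congr_right fun hx => ?_
    exact iha (n + 1) h1 A _ (isFun_ext hs hx) hA
  | so r k a iha =>
    intro n hn A s hs hA
    have h1 := soForm_so hG hn
    rw [hW _ _ s A hn hs hA, soClause_so]
    refine forall_congr' fun A' => imp_congr_right fun hA' => imp_congr_right fun _ => ?_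
    exact iha n h1 A' s hs hA'

/-! ### Existence of satisfaction relations for standard formulas -/

/-- The subformulas of a formula, with their numbers of variables. -/
def SOF.subs : ℕ → SOF → List (ℕ × SOF)
  | n, .eq i j => [(n, .eq i j)]
  | n, .rel r k v => [(n, .rel r k v)]
  | n, .nand a b => (n, .nand a b) :: (a.subs n ++ b.subs n)
  | n, .all a => (n, .all a) :: a.subs (n + 1)
  | n, .so r k a => (n, .so r k a) :: a.subs n

theorem SOF.self_subs (n : ℕ) (a : SOF) : (n, a) ∈ a.subs n := by
  cases a <;> simp [SOF.subs]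

theorem SOF.subs_closed (a : SOF) : ∀ (n : ℕ) (p : ℕ × SOF), p ∈ a.subs n →
    ∀ q ∈ p.2.subs p.1, q ∈ a.subs n := by
  induction a with
  | eq i j =>
    intro n p hp q hq
    simp only [SOF.subs, List.mem_singleton] at hp
    subst hp
    exact hq
  | rel r k v =>
    intro n p hp q hq
    simp only [SOF.subs, List.mem_singleton] at hp
    subst hp
    exact hq
  | nand a b iha ihb =>
    intro n p hp q hq
    simp only [SOF.subs, List.mem_cons, List.mem_append] at hp
    rcases hp with rfl | hp | hp
    · exact hq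
    · have := iha n p hp q hq
      simp [SOF.subs, this]
    · have := ihb n p hp q hq
      simp [SOF.subs, this]
  | all a iha =>
    intro n p hp q hq
    simp only [SOF.subs, List.mem_cons] at hp
    rcases hp with rfl | hp
    · exact hq
    · have := iha (n + 1) p hp q hq
      simp [SOF.subs, this]
  | so r k a iha =>
    intro n p hp q hq
    simp only [SOF.subs, List.mem_cons] at hp
    rcases hp with rfl | hp
    · exact hq
    · have := iha n p hp q hq
      simp [SOF.subs, this]

theorem SOF.subs_wf (a : SOF) : ∀ (n : ℕ), a.WF n → ∀ p ∈ a.subs n, p.2.WF p.1 := by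
  induction a with
  | eq i j =>
    intro n h p hp
    simp only [SOF.subs, List.mem_singleton] at hp
    subst hp
    exact h
  | rel r k v =>
    intro n h p hp
    simp only [SOF.subs, List.mem_singleton] at hp
    subst hp
    exact h
  | nand a b iha ihb =>
    intro n h p hp
    simp only [SOF.subs, List.mem_cons, List.mem_append] at hp
    rcases hp with rfl | hp | hp
    · exact h
    · exact iha n h.1 p hp
    · exact ihb n h.2 p hp
  | all a iha =>
    intro n h p hp
    simp only [SOF.subs, List.mem_cons] at hp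
    rcases hp with rfl | hp
    · exact h
    · exact iha (n + 1) h p hp
  | so r k a iha =>
    intro n h p hp
    simp only [SOF.subs, List.mem_cons] at hp
    rcases hp with rfl | hp
    · exact h
    · exact iha n h p hp

/-- The finite set with the given elements. -/
noncomputable def ofList : List V → V
  | [] => emp
  | x :: l => un (sing x) (ofList l)

theorem mem_ofList {l : List V} {z : V} : z ∈ ofList l ↔ z ∈ l := by
  induction l with
  | nil => simp [ofList, not_mem_emp]
  | cons x l ih => simp [ofList, mem_un, mem_sing, ih]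

/-- Finite disjunctions of definable predicates are definable. -/
theorem dp_list {ι : Type} (P : ι → (ℕ → V) → Prop) (hP : ∀ i, DP (P i)) (L : List ι) :
    DP (fun v => ∃ i ∈ L, P i v) := by
  induction L with
  | nil =>
    have : DP (fun _ : ℕ → V => False) := inferInstance
    exact this.congr (fun v => by simp)
  | cons i L ih =>
    have h1 := hP i
    have : DP (fun v => P i v ∨ ∃ i ∈ L, P i v) := DP.or
    exact this.congr (fun v => by simp)

/-- The members of the truth set attached to a list of standard formulas. -/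
def InTruth (X : V) (L : List (ℕ × SOF)) (w : V) : Prop :=
  ∃ p ∈ L, ∃ A s, w = opair p.2.code (opair A s) ∧ IsFun s (num p.1) X ∧ IsStr X A ∧
    HoldsV X p.2 p.1 A s

instance dp_inTruth (X : V) (L : List (ℕ × SOF)) : DP (fun v => InTruth X L (v 0)) := by
  unfold InTruth
  exact dp_list (fun (p : ℕ × SOF) (v : ℕ → V) => ∃ A s, v 0 = opair p.2.code (opair A s) ∧
    IsFun s (num p.1) X ∧ IsStr X A ∧ HoldsV X p.2 p.1 A s) (fun p => inferInstance) L

theorem code_mem_lim {U : V} (hU : IsLim U) (a : SOF) : a.code ∈ U := by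
  have hn : ∀ k, (num k : V) ∈ U := fun k => hU.nat_mem (num_mem_omega k)
  induction a with
  | eq i j => exact hU.opair (hn 0) (hU.opair (hn i) (hn j))
  | rel r k v =>
    refine hU.opair (hn 1) (hU.opair (hn r) ?_)
    exact hU.fun_mem (num_mem_omega k) _ (isFun_tup fun i => hn (v i))
  | nand a b iha ihb => exact hU.opair (hn 2) (hU.opair iha ihb)
  | all a iha => exact hU.opair (hn 3) iha
  | so r k a iha => exact hU.opair (hn 5) (hU.opair (hU.opair (hn r) (hn k)) iha)

theorem exists_truth (X : V) (L : List (ℕ × SOF)) :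
    ∃ W : V, ∀ w, w ∈ W ↔ InTruth X L w := by
  obtain ⟨U, hU, hXU⟩ := lim_above X
  obtain ⟨U', hU', hUU'⟩ := lim_above U
  refine ⟨sep (fun w => InTruth X L w) U', fun w => ?_⟩
  rw [mem_sep]
  refine ⟨fun h => h.2, fun h => ⟨?_, h⟩⟩
  obtain ⟨p, _, A, s, rfl, hs, hA, _⟩ := h
  have hXsub : Sub X U := hU.trans X hXU
  have hsU : s ∈ U := hU.fun_mem' (num_mem_omega _) hs hXsub
  have hAU : Sub A U := by
    intro q hq
    obtain ⟨i, t, k, h1, h2, h3, h4⟩ := hA q hq
    rw [isOpair_iff.1 h1]
    exact hU.opair (hU.nat_mem (mem_omega.2 h2)) (hU.fun_mem' (mem_omega.2 h3) h4 hXsub)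
  exact hU'.opair (code_mem_lim hU' _) (hU'.opair (hU'.potent hUU' hAU)
    (hU'.mem_of_mem hsU hUU'))

theorem soModel_iff {X : V} {a : SOF} (ha : a.WF 0) :
    SOModel X a.code ↔ ∃ A, IsStr X A ∧ HoldsV X a 0 A emp := by
  have h0 : IsFun (emp : V) (num 0) X := isFun_emp.2 rfl
  constructor
  · rintro ⟨A, G, W, e, hA, hG, he, haG, hW, hAW⟩
    have he' := isEmp_iff.1 he
    subst he'
    exact ⟨A, hA, (holds_of_sat hG hW a 0 haG A emp h0 hA).1 hAW⟩
  · rintro ⟨A, hA, h⟩
    obtain ⟨W, hW⟩ := exists_truth X (a.subs 0)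
    set G : V := ofList ((a.subs 0).map (fun p => opair p.2.code (num p.1))) with hG
    have hGm : ∀ g n, OMem g n G ↔ ∃ p ∈ a.subs 0, g = p.2.code ∧ n = num p.1 := by
      intro g n
      rw [oMem_iff, hG, mem_ofList, List.mem_map]
      constructor
      · rintro ⟨p, hp, h⟩
        obtain ⟨h1, h2⟩ := opair_inj.1 h
        exact ⟨p, hp, h1.symm, h2.symm⟩
      · rintro ⟨p, hp, rfl, rfl⟩
        exact ⟨p, hp, rfl⟩
    have hGp : ∀ p ∈ a.subs 0, OMem (p.2.code : V) (num p.1) G :=
      fun p hp => (hGm _ _).2 ⟨p, hp, rfl, rfl⟩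
    have hWm : ∀ p ∈ a.subs 0, ∀ A s, IsFun s (num p.1) X → IsStr X A →
        (SMem p.2.code A s W ↔ HoldsV X p.2 p.1 A s) := by
      intro p hp A s hs hA
      rw [sMem_iff, hW]
      constructor
      · rintro ⟨q, hq, A', s', e, hs', hA', h⟩
        obtain ⟨h1, h2⟩ := opair_inj.1 e
        obtain ⟨rfl, rfl⟩ := opair_inj.1 h2
        have h3 := code_inj h1
        have h4 := num_inj.1 (isFun_dom_uniq hs hs')
        have h5 : p = q := Prod.ext h4 h3
        rw [h5]; exact h
      · intro h
        exact ⟨p, hp, A, s, rfl, hs, hA, h⟩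
    have hform : SOForm G := by
      intro q hq
      rw [hG, mem_ofList, List.mem_map] at hq
      obtain ⟨p, hp, rfl⟩ := hq
      refine ⟨p.2.code, num p.1, isOpair_iff.2 rfl, isNat_num _, ?_⟩
      have hwf := a.subs_wf 0 ha p hp
      have hcl := a.subs_closed 0 p hp
      obtain ⟨n, b⟩ := p
      simp only at hwf hcl ⊢
      cases b with
      | eq i j =>
        exact Or.inl ⟨num i, num j, isCode2_iff'.2 rfl, num_mem_num.2 hwf.1,
          num_mem_num.2 hwf.2⟩
      | rel r k v =>
        exact Or.inr (Or.inl ⟨num r, _, num k, isCode2_iff'.2 rfl, isNat_num r, isNat_num k,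
          isFun_tup fun i => num_mem_num.2 (hwf i)⟩)
      | nand b c =>
        have hb : (n, b) ∈ a.subs 0 := hcl _ (by simp [SOF.subs, SOF.self_subs])
        have hc : (n, c) ∈ a.subs 0 := hcl _ (by simp [SOF.subs, SOF.self_subs])
        exact Or.inr (Or.inr (Or.inl ⟨b.code, c.code, isCode2_iff'.2 rfl, hGp _ hb, hGp _ hc⟩))
      | all b =>
        have hb : (n + 1, b) ∈ a.subs 0 := hcl _ (by simp [SOF.subs, SOF.self_subs])
        exact Or.inr (Or.inr (Or.inr (Or.inl ⟨b.code, num (n + 1), isCode1_iff'.2 rfl,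
          isSucc_iff.2 rfl, hGp _ hb⟩)))
      | so r k b =>
        have hb : (n, b) ∈ a.subs 0 := hcl _ (by simp [SOF.subs, SOF.self_subs])
        exact Or.inr (Or.inr (Or.inr (Or.inr ⟨opair (num r) (num k), num r, num k, b.code,
          isOpair_iff.2 rfl, isCode2_iff'.2 rfl, isNat_num r, isNat_num k, hGp _ hb⟩)))
    have hsat : SOSat X G W := by
      intro g n s A hgn hs hA
      obtain ⟨p, hp, rfl, rfl⟩ := (hGm g n).1 hgn
      rw [hWm p hp A s hs hA]
      have hcl := a.subs_closed 0 p hp
      obtain ⟨n, b⟩ := p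
      simp only at hs hcl ⊢
      cases b with
      | eq i j => rw [soClause_eq]; rfl
      | rel r k v => rw [soClause_rel]; rfl
      | nand b c =>
        have hb : (n, b) ∈ a.subs 0 := hcl _ (by simp [SOF.subs, SOF.self_subs])
        have hc : (n, c) ∈ a.subs 0 := hcl _ (by simp [SOF.subs, SOF.self_subs])
        rw [soClause_nand, hWm _ hb A s hs hA, hWm _ hc A s hs hA]; rfl
      | all b =>
        have hb : (n + 1, b) ∈ a.subs 0 := hcl _ (by simp [SOF.subs, SOF.self_subs])
        rw [soClause_all]
        refine forall_congr' fun x => imp_congr_right fun hx => ?_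
        exact (hWm _ hb A _ (isFun_ext hs hx) hA).symm
      | so r k b =>
        have hb : (n, b) ∈ a.subs 0 := hcl _ (by simp [SOF.subs, SOF.self_subs])
        rw [soClause_so]
        refine forall_congr' fun A' => imp_congr_right fun hA' => imp_congr_right fun _ => ?_
        exact (hWm _ hb A' s hs hA').symm
    have hself := SOF.self_subs 0 a
    refine ⟨A, G, W, emp, hA, hform, isEmp_iff.2 rfl, hGp _ hself, hsat, ?_⟩
    exact (hWm _ hself A emp h0 hA).2 h

theorem soSentence_code {a : SOF} (ha : a.WF 0) (X : V) (h : ∃ A, IsStr X A ∧ HoldsV X a 0 A emp) :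
    SOSentence (a.code : V) := by
  obtain ⟨A, G, W, e, hA, hG, he, haG, hW, hAW⟩ := (soModel_iff ha).2 h
  exact ⟨G, e, hG, he, haG⟩

end

end Pool.Agent.HZF
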