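import Pool.Agent.Lib_helper12.HZF.Levels

/-!
The notions entering the statement about spectra, in the language of set theory: codes of
formulas of `L(I)` and of second-order logic, structures, satisfaction, spectra.
-/

universe u

namespace Pool.Agent.HZF

open FirstOrder Language

section notions
variable {V : Type u} [Lset.Structure V]

/-! #### Definability -/

variable {t s r q p w y : (ℕ → V) → V}

theorem dp_isNum : ∀ (k : ℕ) {t : (ℕ → V) → V}, DF t → DP (fun v => IsNum k (t v))
  | 0, t, ht => by
    unfold IsNum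
    infer_instance
  | (k + 1), t, ht => by
    have : ∀ (t : (ℕ → V) → V) [DF t], DP (fun v => IsNum k (t v)) := fun t h => dp_isNum k h
    refine DP.comp1 (R := fun x => IsNum (k + 1) x) ?_ ht
    unfold IsNum
    infer_instance

instance (k : ℕ) [ht : DF t] : DP (fun v => IsNum k (t v)) := dp_isNum k ht

instance (k : ℕ) [ht : DF t] [hs : DF s] : DP (fun v => IsCode1 k (t v) (s v)) :=
  DP.comp2 (by unfold IsCode1; infer_instance) ht hs

instance (k : ℕ) [ht : DF t] [hs : DF s] [hr : DF r] :
    DP (fun v => IsCode2 k (t v) (s v) (r v)) :=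
  DP.comp3 (by unfold IsCode2; infer_instance) ht hs hr

instance [ht : DF t] [hs : DF s] [hr : DF r] : DP (fun v => IsComp (t v) (s v) (r v)) :=
  DP.comp3 (by unfold IsComp; infer_instance) ht hs hr

instance [ht : DF t] [hs : DF s] [hr : DF r] [hq : DF q] :
    DP (fun v => IsExt (t v) (s v) (r v) (q v)) :=
  DP.comp4 (by unfold IsExt; infer_instance) ht hs hr hq

instance [ht : DF t] [hs : DF s] : DP (fun v => IsStr (t v) (s v)) :=
  DP.comp2 (by unfold IsStr; infer_instance) ht hs

instance [ht : DF t] [hs : DF s] [hr : DF r] : DP (fun v => IsBij (t v) (s v) (r v)) :=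
  DP.comp3 (by unfold IsBij; infer_instance) ht hs hr

instance [ht : DF t] [hs : DF s] : DP (fun v => Equinum (t v) (s v)) :=
  DP.comp2 (by unfold Equinum; infer_instance) ht hs

instance [ht : DF t] : DP (fun v => LIForm (t v)) :=
  DP.comp1 (by unfold LIForm; infer_instance) ht

instance [ht : DF t] [hs : DF s] [hr : DF r] [hq : DF q] [hp : DF p] [hw : DF w] :
    DP (fun v => IsDefSet (t v) (s v) (r v) (q v) (p v) (w v)) :=
  DP.comp6 (by unfold IsDefSet; infer_instance) ht hs hr hq hp hw

instance [ht : DF t] [hs : DF s] [hr : DF r] [hq : DF q] [hp : DF p] [hw : DF w] :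
    DP (fun v => LIClause (t v) (s v) (r v) (q v) (p v) (w v)) :=
  DP.comp6 (by unfold LIClause; infer_instance) ht hs hr hq hp hw

instance [ht : DF t] [hs : DF s] [hr : DF r] [hq : DF q] :
    DP (fun v => LISat (t v) (s v) (r v) (q v)) :=
  DP.comp4 (by unfold LISat; infer_instance) ht hs hr hq

instance [ht : DF t] : DP (fun v => LISentence (t v)) :=
  DP.comp1 (by unfold LISentence; infer_instance) ht

instance [ht : DF t] [hs : DF s] : DP (fun v => LIModel (t v) (s v)) :=
  DP.comp2 (by unfold LIModel; infer_instance) ht hs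

instance [ht : DF t] : DP (fun v => SOForm (t v)) :=
  DP.comp1 (by unfold SOForm; infer_instance) ht

instance [ht : DF t] [hs : DF s] [hr : DF r] [hq : DF q] :
    DP (fun v => SMem (t v) (s v) (r v) (q v)) :=
  DP.comp4 (by unfold SMem; infer_instance) ht hs hr hq

instance [ht : DF t] [hs : DF s] [hr : DF r] [hq : DF q] [hp : DF p] :
    DP (fun v => Agree (t v) (s v) (r v) (q v) (p v)) :=
  DP.comp5 (by unfold Agree; infer_instance) ht hs hr hq hp

instance [ht : DF t] [hs : DF s] [hr : DF r] [hq : DF q] [hp : DF p] [hw : DF w] :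
    DP (fun v => SOClause (t v) (s v) (r v) (q v) (p v) (w v)) :=
  DP.comp6 (by unfold SOClause; infer_instance) ht hs hr hq hp hw

instance [ht : DF t] [hs : DF s] [hr : DF r] : DP (fun v => SOSat (t v) (s v) (r v)) :=
  DP.comp3 (by unfold SOSat; infer_instance) ht hs hr

instance [ht : DF t] : DP (fun v => SOSentence (t v)) :=
  DP.comp1 (by unfold SOSentence; infer_instance) ht

instance [ht : DF t] [hs : DF s] : DP (fun v => SOModel (t v) (s v)) :=
  DP.comp2 (by unfold SOModel; infer_instance) ht hs

end notions

end Pool.Agent.HZF
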