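import Pool.Agent.Lib_helper12.HZF.Basic

/-!
The theory ZF, and its models.
-/

set_option linter.unusedSectionVars false
set_option linter.unusedVariables false

universe u

namespace Pool.Agent.HZF

open FirstOrder Language BoundedFormula

/-- The formula `x_i ∈ x_j`. -/
def bMem {n : ℕ} (i j : Fin n) : Lset.BoundedFormula Empty n :=
  Relations.boundedFormula₂ (L := Lset) (MemRel.mem : Lset.Relations 2)
    (Term.var (Sum.inr i)) (Term.var (Sum.inr j))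

/-- The formula `x_i = x_j`. -/
def bEq {n : ℕ} (i j : Fin n) : Lset.BoundedFormula Empty n :=
  Term.bdEqual (Term.var (Sum.inr i)) (Term.var (Sum.inr j))

/-- Extensionality: `∀ x y, (∀ z, z ∈ x ↔ z ∈ y) → x = y`. -/
def axExt : Lset.Sentence := ∀' ∀' ((∀' (bMem 2 0 ⇔ bMem 2 1)) ⟹ bEq 0 1)

/-- Foundation: `∀ x, (∃ y, y ∈ x) → ∃ y, y ∈ x ∧ ∀ z, z ∈ x → z ∉ y`. -/
def axFound : Lset.Sentence :=
  ∀' ((∃' bMem 1 0) ⟹ ∃' (bMem 1 0 ⊓ ∀' (bMem 2 0 ⟹ ∼ (bMem 2 1))))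

/-- Pairing: `∀ x y, ∃ p, ∀ z, z ∈ p ↔ z = x ∨ z = y`. -/
def axPair : Lset.Sentence := ∀' ∀' ∃' ∀' (bMem 3 2 ⇔ (bEq 3 0 ⊔ bEq 3 1))

/-- Union: `∀ x, ∃ u, ∀ z, z ∈ u ↔ ∃ y, y ∈ x ∧ z ∈ y`. -/
def axUnion : Lset.Sentence := ∀' ∃' ∀' (bMem 2 1 ⇔ ∃' (bMem 3 0 ⊓ bMem 2 3))

/-- Power set: `∀ x, ∃ p, ∀ z, z ∈ p ↔ ∀ w, w ∈ z → w ∈ x`. -/
def axPower : Lset.Sentence := ∀' ∃' ∀' (bMem 2 1 ⇔ ∀' (bMem 3 2 ⟹ bMem 3 0))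

/-- Infinity: `∃ x, (∃ e, e ∈ x ∧ ∀ z, z ∉ e) ∧
∀ y, y ∈ x → ∃ s, s ∈ x ∧ ∀ z, z ∈ s ↔ z ∈ y ∨ z = y`. -/
def axInf : Lset.Sentence :=
  ∃' ((∃' (bMem 1 0 ⊓ ∀' ∼ (bMem 2 1))) ⊓
    ∀' (bMem 1 0 ⟹ ∃' (bMem 2 0 ⊓ ∀' (bMem 3 2 ⇔ (bMem 3 1 ⊔ bEq 3 1)))))

/-- Separation for the formula `φ(p_0, …, p_{n-1}, z)`:
`∀ p_0 … p_{n-1}, ∀ a, ∃ b, ∀ z, z ∈ b ↔ z ∈ a ∧ φ(p, z)`. The variables of the matrix are
`p_0, …, p_{n-1}, a, b, z`. -/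
def axSep {n : ℕ} (φ : Lset.BoundedFormula Empty (n + 1)) : Lset.Sentence :=
  BoundedFormula.alls (∀' ∃' ∀' (bMem (n := n + 3) ⟨n + 2, by omega⟩ ⟨n + 1, by omega⟩ ⇔
    (bMem (n := n + 3) ⟨n + 2, by omega⟩ ⟨n, by omega⟩ ⊓ φ.liftAt 2 n)))

/-- Replacement for the formula `φ(p_0, …, p_{n-1}, x, y)`: `∀ p_0 … p_{n-1}, ∀ a,
(∀ x, x ∈ a → ∃ z, ∀ y, φ(p, x, y) ↔ y = z) → ∃ b, ∀ x, x ∈ a → ∃ y, y ∈ b ∧ φ(p, x, y)`. -/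
def axRepl {n : ℕ} (φ : Lset.BoundedFormula Empty (n + 2)) : Lset.Sentence :=
  BoundedFormula.alls (∀' (
    (∀' (bMem (n := n + 2) ⟨n + 1, by omega⟩ ⟨n, by omega⟩ ⟹
      ∃' ∀' (((φ.liftAt 1 n).liftAt 1 (n + 2)) ⇔
        bEq (n := n + 4) ⟨n + 3, by omega⟩ ⟨n + 2, by omega⟩))) ⟹
    ∃' ∀' (bMem (n := n + 3) ⟨n + 2, by omega⟩ ⟨n, by omega⟩ ⟹
      ∃' (bMem (n := n + 4) ⟨n + 3, by omega⟩ ⟨n + 1, by omega⟩ ⊓ φ.liftAt 2 n))))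

/-- The axioms of ZF. -/
def ZF : Lset.Theory :=
  {axExt, axFound, axPair, axUnion, axPower, axInf} ∪
  {S | ∃ (n : ℕ) (φ : Lset.BoundedFormula Empty (n + 1)), S = axSep φ} ∪
  {S | ∃ (n : ℕ) (φ : Lset.BoundedFormula Empty (n + 2)), S = axRepl φ}

section
variable {V : Type u} [Lset.Structure V]

theorem realize_bMem {n : ℕ} (i j : Fin n) (v : Empty → V) (xs : Fin n → V) :
    (bMem i j).Realize v xs ↔ xs i ∈ xs j := by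
  unfold bMem
  rw [BoundedFormula.realize_rel₂]
  exact Iff.rfl

theorem realize_bEq {n : ℕ} (i j : Fin n) (v : Empty → V) (xs : Fin n → V) :
    (bEq i j).Realize v xs ↔ xs i = xs j := by
  unfold bEq
  rw [BoundedFormula.realize_bdEqual]
  exact Iff.rfl

theorem realize_axExt : V ⊨ axExt ↔ ∀ x y : V, (∀ z, z ∈ x ↔ z ∈ y) → x = y := by
  simp [axExt, Sentence.Realize, Formula.Realize, realize_bMem, realize_bEq, Fin.snoc]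

theorem realize_axFound : V ⊨ axFound ↔
    ∀ x : V, (∃ y, y ∈ x) → ∃ y ∈ x, ∀ z ∈ x, z ∉ y := by
  simp [axFound, Sentence.Realize, Formula.Realize, realize_bMem, Fin.snoc]

theorem realize_axPair : V ⊨ axPair ↔ ∀ x y : V, ∃ p : V, ∀ z, z ∈ p ↔ z = x ∨ z = y := by
  simp [axPair, Sentence.Realize, Formula.Realize, realize_bMem, realize_bEq, Fin.snoc]

theorem realize_axUnion : V ⊨ axUnion ↔ ∀ x : V, ∃ u : V, ∀ w, w ∈ u ↔ ∃ y ∈ x, w ∈ y := by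
  simp [axUnion, Sentence.Realize, Formula.Realize, realize_bMem, Fin.snoc]

theorem realize_axPower : V ⊨ axPower ↔
    ∀ x : V, ∃ p : V, ∀ w, w ∈ p ↔ ∀ z ∈ w, z ∈ x := by
  simp [axPower, Sentence.Realize, Formula.Realize, realize_bMem, Fin.snoc]

theorem realize_axInf : V ⊨ axInf ↔
    ∃ x : V, (∃ e ∈ x, ∀ z, z ∉ e) ∧ ∀ y ∈ x, ∃ s ∈ x, ∀ z, z ∈ s ↔ z ∈ y ∨ z = y := by
  simp [axInf, Sentence.Realize, Formula.Realize, realize_bMem, realize_bEq, Fin.snoc]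

end

end Pool.Agent.HZF
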