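import Pool.Agent.Lib_helper12.HZF.SOEval2

/-!
Translation of first-order sentences over the structure of all subsets of `Y` into
second-order sentences over `Y`.
-/

set_option linter.unusedSectionVars false

universe u

namespace Pool.Agent.HZF

open FirstOrder Language

section
variable {V : Type u} [Lset.Structure V] [IsZF V]

/-- The type of subsets (in the sense of `V`) of `Y`. -/
def PY (Y _r : V) : Type u := {z : V // z ∈ pow Y}

/-- The structure on the subsets of `Y`: `x ∈ y` iff `x` is the set of `r`-predecessors of some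
element of `y`. -/
instance (Y r : V) : Lset.Structure (PY Y r) where
  funMap := fun f => f.elim
  RelMap := fun {n} R v =>
    match n, R, v with
    | _, MemRel.mem, v => ∃ u ∈ (v 1).1, ∀ w, w ∈ (v 0).1 ↔ w ∈ Y ∧ opair w u ∈ r

theorem mem_py {Y r : V} {x y : PY Y r} :
    x ∈ y ↔ ∃ u ∈ y.1, ∀ w, w ∈ x.1 ↔ w ∈ Y ∧ opair w u ∈ r := Iff.rfl

theorem exists_image (F : V → V) (hF : DP (fun v => v 1 = F (v 0))) (a : V) :
    ∃ b : V, ∀ z, z ∈ b ↔ ∃ x ∈ a, z = F x :=
  exists_repl (fun x y => y = F x) (h := hF) a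
    (fun x _ => ⟨F x, rfl, fun _ h => h⟩)

instance {t : (ℕ → V) → V} [ht : DF t] : DF (fun v => tup 1 ![t v]) := by
  change DF (fun v => un emp (sing (opair emp (t v))))
  infer_instance

instance {t s : (ℕ → V) → V} [ht : DF t] [hs : DF s] : DF (fun v => tup 2 ![t v, s v]) := by
  change DF (fun v => un (un emp (sing (opair emp (t v)))) (sing (opair (num 1) (s v))))
  infer_instance

/-! ### Abbreviations for second-order formulas -/

namespace SOF

/-- Negation. -/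
def neg (a : SOF) : SOF := .nand a a
/-- Conjunction. -/
def and (a b : SOF) : SOF := neg (.nand a b)
/-- Implication. -/
def imp (a b : SOF) : SOF := .nand a (neg b)
/-- Equivalence. -/
def iff (a b : SOF) : SOF := and (imp a b) (imp b a)
/-- Existence. -/
def ex (a : SOF) : SOF := neg (.all (neg a))
/-- Falsity. -/
def bot : SOF := neg (.all (.eq 0 0))
/-- Equality of the sets `Z_i` and `Z_j`. -/
def eqF (i j : ℕ) : SOF := .all (iff (.rel i 1 ![0]) (.rel j 1 ![0]))
/-- Membership of the set `Z_i` in `Z_j`. -/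
def memF (i j : ℕ) : SOF :=
  ex (and (.rel j 1 ![0]) (.all (iff (.rel i 1 ![1]) (.rel 0 2 ![1, 0]))))

end SOF

theorem holds_neg {X A s : V} {n : ℕ} {a : SOF} :
    HoldsV X a.neg n A s ↔ ¬ HoldsV X a n A s := by
  simp [SOF.neg, HoldsV]

theorem holds_and {X A s : V} {n : ℕ} {a b : SOF} :
    HoldsV X (a.and b) n A s ↔ HoldsV X a n A s ∧ HoldsV X b n A s := by
  rw [SOF.and, holds_neg]
  simp [HoldsV]

theorem holds_imp {X A s : V} {n : ℕ} {a b : SOF} :
    HoldsV X (a.imp b) n A s ↔ (HoldsV X a n A s → HoldsV X b n A s) := by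
  unfold SOF.imp
  simp only [HoldsV, holds_neg]
  tauto

theorem holds_iff {X A s : V} {n : ℕ} {a b : SOF} :
    HoldsV X (a.iff b) n A s ↔ (HoldsV X a n A s ↔ HoldsV X b n A s) := by
  rw [SOF.iff, holds_and, holds_imp, holds_imp]
  tauto

theorem holds_all {X A s : V} {n : ℕ} {a : SOF} :
    HoldsV X a.all n A s ↔ ∀ x ∈ X, HoldsV X a (n + 1) A (un s (sing (opair (num n) x))) :=
  Iff.rfl

theorem holds_ex {X A s : V} {n : ℕ} {a : SOF} :
    HoldsV X a.ex n A s ↔ ∃ x ∈ X, HoldsV X a (n + 1) A (un s (sing (opair (num n) x))) := by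
  rw [SOF.ex, holds_neg, holds_all]
  simp only [holds_neg]
  push Not
  rfl

theorem comp_tup {n k : ℕ} {s : Fin n → V} {v : Fin k → ℕ} (h : ∀ i, v i < n) {t : V} :
    IsComp t (tup n s) (tup k (fun i => num (v i))) ↔ t = tup k (fun i => s ⟨v i, h i⟩) := by
  have key : ∀ l j a : V, (OMem l j (tup k (fun i => num (v i))) ∧ OMem j a (tup n s)) ↔
      ∃ i : Fin k, l = num i ∧ j = num (v i) ∧ a = s ⟨v i, h i⟩ := by
    intro l j a
    rw [oMem_iff, oMem_iff, mem_tup]
    constructor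
    · rintro ⟨⟨i, hi⟩, ha⟩
      obtain ⟨rfl, rfl⟩ := opair_inj.1 hi
      obtain ⟨_, ha⟩ := opair_mem_tup.1 ha
      exact ⟨i, rfl, rfl, ha.symm⟩
    · rintro ⟨i, rfl, rfl, rfl⟩
      exact ⟨⟨i, rfl⟩, opair_mem_tup.2 ⟨h i, rfl⟩⟩
  constructor
  · rintro ⟨h1, h2⟩
    refine ext fun p => ?_
    rw [mem_tup]
    constructor
    · intro hp
      obtain ⟨l, j, a, h3, h4, h5⟩ := h1 p hp
      obtain ⟨i, rfl, rfl, rfl⟩ := (key l j a).1 ⟨h4, h5⟩
      exact ⟨i, isOpair_iff.1 h3⟩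
    · rintro ⟨i, rfl⟩
      have h3 := (key (num i) (num (v i)) (s ⟨v i, h i⟩)).2 ⟨i, rfl, rfl, rfl⟩
      obtain ⟨a, h4, h5⟩ := h2 _ _ h3.1
      obtain ⟨i', e1, _, e2⟩ := (key _ _ a).1 ⟨h3.1, h4⟩
      have e3 : i = i' := Fin.ext (num_inj.1 e1)
      subst e3
      rw [← e2]
      exact oMem_iff.1 h5
  · rintro rfl
    constructor
    · intro p hp
      obtain ⟨i, rfl⟩ := mem_tup.1 hp
      have h3 := (key (num i) (num (v i)) (s ⟨v i, h i⟩)).2 ⟨i, rfl, rfl, rfl⟩
      exact ⟨num i, num (v i), s ⟨v i, h i⟩, isOpair_iff.2 rfl, h3.1, h3.2⟩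
    · intro l j hlj
      obtain ⟨i, hi⟩ := mem_tup.1 (oMem_iff.1 hlj)
      obtain ⟨rfl, rfl⟩ := opair_inj.1 hi
      have h3 := (key (num i) (num (v i)) (s ⟨v i, h i⟩)).2 ⟨i, rfl, rfl, rfl⟩
      exact ⟨s ⟨v i, h i⟩, h3.2, oMem_iff.2 (mem_tup.2 ⟨i, rfl⟩)⟩

theorem holds_rel {X A : V} {n r k : ℕ} {v : Fin k → ℕ} {s : Fin n → V} (h : ∀ i, v i < n) :
    HoldsV X (.rel r k v) n A (tup n s) ↔
      opair (num r) (tup k (fun i => s ⟨v i, h i⟩)) ∈ A := by
  unfold HoldsV
  simp only [comp_tup h]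
  simp

theorem tup_one (x : V) : un emp (sing (opair (num 0) x)) = tup 1 ![x] := rfl

theorem tup_two (x y : V) : un (tup 1 ![x]) (sing (opair (num 1) y)) = tup 2 ![x, y] := rfl

/-- The set `Z_i` coded by `A`. -/
noncomputable def zset (Y A : V) (i : ℕ) : V :=
  sep (fun y : V => opair (num i : V) (tup 1 ![y] : V) ∈ A) Y

theorem mem_zset {Y A y : V} {i : ℕ} :
    y ∈ zset Y A i ↔ y ∈ Y ∧ opair (num i) (tup 1 ![y]) ∈ A := mem_sep

theorem zset_mem (Y A : V) (i : ℕ) : zset Y A i ∈ pow Y :=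
  mem_pow.2 fun _ h => (mem_zset.1 h).1

theorem holds_z0 {Y A y : V} {i : ℕ} :
    HoldsV Y (.rel i 1 ![0]) 1 A (tup 1 ![y]) ↔ opair (num i) (tup 1 ![y]) ∈ A := by
  rw [holds_rel (fun i => by fin_cases i; decide)]
  have : (fun i : Fin 1 => (![y] : Fin 1 → V) ⟨(![0] : Fin 1 → ℕ) i,
      (by fin_cases i; decide)⟩) = ![y] := by
    funext i; fin_cases i; rfl
  rw [this]

theorem holds_z1 {Y A y z : V} {i : ℕ} :
    HoldsV Y (.rel i 1 ![1]) 2 A (tup 2 ![y, z]) ↔ opair (num i) (tup 1 ![z]) ∈ A := by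
  rw [holds_rel (fun i => by fin_cases i; decide)]
  have : (fun i : Fin 1 => (![y, z] : Fin 2 → V) ⟨(![1] : Fin 1 → ℕ) i,
      (by fin_cases i; decide)⟩) = ![z] := by
    funext i; fin_cases i; rfl
  rw [this]

theorem holds_r {Y A y z : V} {i : ℕ} :
    HoldsV Y (.rel i 2 ![1, 0]) 2 A (tup 2 ![y, z]) ↔ opair (num i) (tup 2 ![z, y]) ∈ A := by
  rw [holds_rel (fun i => by fin_cases i <;> decide)]
  have : (fun i : Fin 2 => (![y, z] : Fin 2 → V) ⟨(![1, 0] : Fin 2 → ℕ) i,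
      (by fin_cases i <;> decide)⟩) = ![z, y] := by
    funext i; fin_cases i <;> rfl
  rw [this]

theorem holds_eqF {Y A : V} {i j : ℕ} :
    HoldsV Y (SOF.eqF i j) 0 A emp ↔ zset Y A i = zset Y A j := by
  unfold SOF.eqF
  rw [holds_all]
  constructor
  · intro h
    refine ext fun y => ?_
    rw [mem_zset, mem_zset]
    refine and_congr_right fun hy => ?_
    have := h y hy
    rw [holds_iff, tup_one, holds_z0, holds_z0] at this
    exact this
  · intro h y hy
    rw [holds_iff, tup_one, holds_z0, holds_z0]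
    have h1 : y ∈ zset Y A i ↔ y ∈ zset Y A j := by rw [h]
    rw [mem_zset, mem_zset] at h1
    tauto

theorem holds_memF {Y A r : V} {i j : ℕ}
    (hr : ∀ w ∈ Y, ∀ u ∈ Y, opair (num 0) (tup 2 ![w, u]) ∈ A ↔ opair w u ∈ r) :
    HoldsV Y (SOF.memF i j) 0 A emp ↔
      ∃ u ∈ zset Y A j, ∀ w, w ∈ zset Y A i ↔ w ∈ Y ∧ opair w u ∈ r := by
  unfold SOF.memF
  rw [holds_ex]
  constructor
  · rintro ⟨u, hu, h⟩
    rw [holds_and, tup_one, holds_z0, holds_all] at h
    refine ⟨u, mem_zset.2 ⟨hu, h.1⟩, fun w => ?_⟩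
    rw [mem_zset]
    refine and_congr_right fun hw => ?_
    have := h.2 w hw
    rw [holds_iff, tup_two, holds_z1, holds_r, hr w hw u hu] at this
    exact this
  · rintro ⟨u, hu, h⟩
    obtain ⟨huY, hu⟩ := mem_zset.1 hu
    refine ⟨u, huY, ?_⟩
    rw [holds_and, tup_one, holds_z0, holds_all]
    refine ⟨hu, fun w hw => ?_⟩
    rw [holds_iff, tup_two, holds_z1, holds_r, hr w hw u huY]
    have := h w
    rw [mem_zset] at this
    tauto

/-! ### The translation -/

/-- The index of a term (which is a variable). -/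
def idx {n : ℕ} : Lset.Term (Empty ⊕ Fin n) → Fin n
  | .var (Sum.inr i) => i
  | .var (Sum.inl e) => e.elim
  | .func f _ => Empty.elim f

theorem realize_idx {N : Type u} [Lset.Structure N] {n : ℕ} (t : Lset.Term (Empty ⊕ Fin n))
    (w : Empty → N) (xs : Fin n → N) : t.realize (Sum.elim w xs) = xs (idx t) := by
  match t with
  | .var (Sum.inr i) => rfl
  | .var (Sum.inl e) => exact e.elim
  | .func f _ => exact Empty.elim f

/-- Translation of first-order formulas about the structure of the subsets of `Y` into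
second-order formulas over `Y`. -/
def tr : ∀ {n : ℕ}, Lset.BoundedFormula Empty n → SOF
  | _, .falsum => SOF.bot
  | _, .equal t s => SOF.eqF (idx t) (idx s)
  | _, .rel (l := l) R ts =>
    match l, R, ts with
    | _, MemRel.mem, ts => SOF.memF (idx (ts 0)) (idx (ts 1))
  | _, .imp a b => SOF.imp (tr a) (tr b)
  | n, .all a => SOF.so n 1 (tr a)

theorem wf_neg {a : SOF} {n : ℕ} : a.neg.WF n ↔ a.WF n := by simp [SOF.neg, SOF.WF]
theorem wf_and {a b : SOF} {n : ℕ} : (a.and b).WF n ↔ a.WF n ∧ b.WF n := by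
  simp [SOF.and, wf_neg, SOF.WF]
theorem wf_imp {a b : SOF} {n : ℕ} : (a.imp b).WF n ↔ a.WF n ∧ b.WF n := by
  simp [SOF.imp, wf_neg, SOF.WF]
theorem wf_iff {a b : SOF} {n : ℕ} : (a.iff b).WF n ↔ a.WF n ∧ b.WF n := by
  simp [SOF.iff, wf_and, wf_imp]; tauto

theorem tr_wf {n : ℕ} (a : Lset.BoundedFormula Empty n) : (tr a).WF 0 := by
  induction a with
  | falsum => simp [tr, SOF.bot, wf_neg, SOF.WF]
  | equal t s => simp [tr, SOF.eqF, SOF.WF, wf_iff]
  | rel R ts =>
    cases R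
    simp [tr, SOF.memF, SOF.ex, SOF.WF, wf_iff, wf_neg, wf_and, Fin.forall_fin_two]
  | imp a b iha ihb => rw [tr, wf_imp]; exact ⟨iha, ihb⟩
  | all a ih => exact ih

end

end Pool.Agent.HZF
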