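import Pool.Agent.Lib_helper12.HZF.Trans

/-!
Correctness of the translation: a structure on `Y` satisfies `tr θ` iff the structure of the
subsets of `Y` given by some relation `r` satisfies `θ`.
-/

set_option linter.unusedSectionVars false

universe u

namespace Pool.Agent.HZF

open FirstOrder Language

section
variable {V : Type u} [Lset.Structure V] [IsZF V]

/-- `A` codes the relation `r` on `Y`. -/
def Codes (Y A r : V) : Prop :=
  ∀ w ∈ Y, ∀ u ∈ Y, opair (num 0) (tup 2 ![w, u]) ∈ A ↔ opair w u ∈ r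

theorem zset_congr {Y A A' : V} {n i : ℕ} (h : Agree Y (num n) (num 1) A A') (hi : i ≠ n) :
    zset Y A i = zset Y A' i := by
  refine ext fun y => ?_
  rw [mem_zset, mem_zset]
  refine and_congr_right fun _ => ?_
  rcases h (opair (num i) (tup 1 ![y])) with h | ⟨t, h, _⟩
  · exact h
  · rw [isOpair_iff, opair_inj, num_inj] at h
    exact absurd h.1 hi

theorem codes_congr {Y A A' r : V} {n : ℕ} (h : Agree Y (num n) (num 1) A A')
    (hA : Codes Y A r) : Codes Y A' r := by
  intro w hw u hu
  rw [← hA w hw u hu]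
  rcases h (opair (num 0) (tup 2 ![w, u])) with h | ⟨t, h, ht⟩
  · exact h.symm
  · rw [isOpair_iff, opair_inj] at h
    rw [← h.2] at ht
    have h2 : IsFun (tup 2 ![w, u]) (num 2) Y := isFun_tup fun i => by
      fin_cases i
      · exact hw
      · exact hu
    have := isFun_dom_uniq ht h2
    rw [num_inj] at this
    omega

theorem exists_modify {Y A x : V} (hA : IsStr Y A) (n : ℕ) (hx : Sub x Y) :
    ∃ A', IsStr Y A' ∧ Agree Y (num n) (num 1) A A' ∧ zset Y A' n = x := by
  obtain ⟨B, hB⟩ := exists_image (fun y : V => opair (num n : V) (tup 1 ![y] : V))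
    inferInstance x
  have hfun : ∀ y ∈ Y, IsFun (tup 1 ![y]) (num 1) Y := fun y hy => isFun_tup fun i => by
    fin_cases i; exact hy
  refine ⟨un (sep (fun p => ¬ ∃ t, p = opair (num n : V) t ∧ IsFun t (num 1) Y) A) B,
    ?_, ?_, ?_⟩
  · intro p hp
    rcases mem_un.1 hp with hp | hp
    · exact hA p (mem_sep.1 hp).1
    · obtain ⟨y, hy, rfl⟩ := (hB p).1 hp
      exact ⟨num n, tup 1 ![y], num 1, isOpair_iff.2 rfl, isNat_num n, isNat_num 1,
        hfun y (hx y hy)⟩
  · intro p
    by_cases hp : ∃ t, p = opair (num n : V) t ∧ IsFun t (num 1) Y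
    · obtain ⟨t, rfl, ht⟩ := hp
      exact Or.inr ⟨t, isOpair_iff.2 rfl, ht⟩
    · left
      rw [mem_un, mem_sep]
      constructor
      · intro h; exact Or.inl ⟨h, hp⟩
      · rintro (h | h)
        · exact h.1
        · obtain ⟨y, hy, rfl⟩ := (hB p).1 h
          exact absurd ⟨tup 1 ![y], rfl, hfun y (hx y hy)⟩ hp
  · refine ext fun y => ?_
    rw [mem_zset, mem_un, mem_sep, hB]
    constructor
    · rintro ⟨hy, ⟨_, h⟩ | ⟨y', hy', h⟩⟩
      · exact absurd ⟨tup 1 ![y], rfl, hfun y hy⟩ h
      · have := tup_inj.1 (opair_inj.1 h).2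
        have h2 : y = y' := congrFun this 0
        rw [h2]; exact hy'
    · intro hy
      exact ⟨hx y hy, Or.inr ⟨y, hy, rfl⟩⟩

theorem tr_iff {Y r : V} {n : ℕ} (a : Lset.BoundedFormula Empty n) :
    ∀ A : V, IsStr Y A → Codes Y A r →
      (HoldsV Y (tr a) 0 A emp ↔
        a.Realize (M := PY Y r) default (fun i : Fin n => ⟨zset Y A i, zset_mem Y A i⟩)) := by
  induction a with
  | falsum =>
    intro A hA hr
    simp [tr, SOF.bot, holds_neg, HoldsV, BoundedFormula.Realize]
    intro x _
    exact ⟨x, mem_un.2 (Or.inr (mem_sing.2 rfl))⟩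
  | equal t s =>
    intro A hA hr
    rw [tr, holds_eqF]
    unfold BoundedFormula.Realize
    rw [realize_idx, realize_idx]
    exact ⟨fun h => Subtype.ext h, fun h => congrArg Subtype.val h⟩
  | rel R ts =>
    intro A hA hr
    cases R
    rw [tr, holds_memF hr]
    unfold BoundedFormula.Realize
    simp only [realize_idx]
    exact Iff.rfl
  | imp a b iha ihb =>
    intro A hA hr
    rw [tr, holds_imp, iha A hA hr, ihb A hA hr]
    exact BoundedFormula.realize_imp.symm
  | @all n a ih =>
    intro A hA hr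
    rw [tr, BoundedFormula.realize_all]
    constructor
    · intro h x
      obtain ⟨A', hA', hag, hx⟩ := exists_modify hA n (mem_pow.1 x.2)
      have h1 := (ih A' hA' (codes_congr hag hr)).1 (h A' hA' hag)
      have e : (fun i : Fin (n + 1) => (⟨zset Y A' i, zset_mem Y A' i⟩ : PY Y r)) =
          Fin.snoc (fun i : Fin n => (⟨zset Y A i, zset_mem Y A i⟩ : PY Y r)) x := by
        funext i
        refine Fin.lastCases ?_ (fun j => ?_) i
        · rw [Fin.snoc_last]
          exact Subtype.ext hx
        · rw [Fin.snoc_castSucc]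
          refine Subtype.ext ?_
          exact (zset_congr hag (Nat.ne_of_lt j.2)).symm
      rw [e] at h1
      exact h1
    · intro h A' hA' hag
      refine (ih A' hA' (codes_congr hag hr)).2 ?_
      have h1 := h ⟨zset Y A' n, zset_mem Y A' n⟩
      have e : (fun i : Fin (n + 1) => (⟨zset Y A' i, zset_mem Y A' i⟩ : PY Y r)) =
          Fin.snoc (fun i : Fin n => (⟨zset Y A i, zset_mem Y A i⟩ : PY Y r))
            ⟨zset Y A' n, zset_mem Y A' n⟩ := by
        funext i
        refine Fin.lastCases ?_ (fun j => ?_) i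
        · rw [Fin.snoc_last]; rfl
        · rw [Fin.snoc_castSucc]
          refine Subtype.ext ?_
          exact (zset_congr hag (Nat.ne_of_lt j.2)).symm
      rw [e]
      exact h1

/-- Some structure with universe `Y` satisfies the translation of the sentence `θ` iff, for some
relation `r` on `Y`, the structure `PY Y r` satisfies `θ`. -/
theorem soModel_tr {Y : V} (θ : Lset.Sentence) :
    SOModel Y ((tr θ).code : V) ↔
      ∃ r : V, (∀ w u, opair w u ∈ r → w ∈ Y ∧ u ∈ Y) ∧ PY Y r ⊨ θ := by
  rw [soModel_iff (tr_wf θ)]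
  obtain ⟨U, hU, hYU⟩ := lim_above Y
  have hYs : Sub Y U := hU.trans Y hYU
  have hreal : ∀ (A r : V), (PY Y r ⊨ θ ↔ BoundedFormula.Realize (M := PY Y r) θ default
      (fun i : Fin 0 => ⟨zset Y A i, zset_mem Y A i⟩)) := by
    intro A r
    unfold Sentence.Realize Formula.Realize
    have : (fun i : Fin 0 => (⟨zset Y A i, zset_mem Y A i⟩ : PY Y r)) = default :=
      Subsingleton.elim _ _
    rw [this]
    exact Iff.rfl
  constructor
  · rintro ⟨A, hA, h⟩
    refine ⟨sep (fun p => ∃ w u, w ∈ Y ∧ u ∈ Y ∧ p = opair w u ∧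
      opair (num 0 : V) (tup 2 ![w, u] : V) ∈ A) U, ?_, ?_⟩
    · intro w u h
      obtain ⟨_, w', u', hw, hu, e, _⟩ := mem_sep.1 h
      obtain ⟨rfl, rfl⟩ := opair_inj.1 e
      exact ⟨hw, hu⟩
    · rw [hreal A, ← tr_iff θ A hA]
      · exact h
      · intro w hw u hu
        rw [mem_sep]
        constructor
        · intro h
          exact ⟨hU.opair (hYs w hw) (hYs u hu), w, u, hw, hu, rfl, h⟩
        · rintro ⟨_, w', u', _, _, e, h⟩
          obtain ⟨rfl, rfl⟩ := opair_inj.1 e
          exact h
  · rintro ⟨r, hr, h⟩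
    have hfun : ∀ w ∈ Y, ∀ u ∈ Y, IsFun (tup 2 ![w, u]) (num 2) Y :=
      fun w hw u hu => isFun_tup fun i => by
        fin_cases i
        · exact hw
        · exact hu
    have hstr : IsStr Y (sep (fun p => ∃ w u, p = opair (num 0 : V) (tup 2 ![w, u] : V) ∧
        opair w u ∈ r) U) := by
      intro p hp
      obtain ⟨_, w, u, rfl, hwu⟩ := mem_sep.1 hp
      obtain ⟨hw, hu⟩ := hr w u hwu
      exact ⟨num 0, tup 2 ![w, u], num 2, isOpair_iff.2 rfl, isNat_num 0, isNat_num 2,
        hfun w hw u hu⟩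
    refine ⟨_, hstr, ?_⟩
    rw [tr_iff (r := r) θ _ hstr, ← hreal]
    · exact h
    · intro w hw u hu
      rw [mem_sep]
      constructor
      · rintro ⟨_, w', u', e, h⟩
        have h1 := tup_inj.1 (opair_inj.1 e).2
        have h2 : w = w' := congrFun h1 0
        have h3 : u = u' := congrFun h1 1
        rw [h2, h3]; exact h
      · intro h
        exact ⟨hU.opair (hU.nat_mem (num_mem_omega 0))
          (hU.fun_mem' (num_mem_omega 2) (hfun w hw u hu) hYs), w, u, rfl, h⟩

end

end Pool.Agent.HZF
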